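import Mathlib
import Pool.Agent.Lib.P4a7640.Defs

/-!
# Metric families of sign functions
-/

namespace Pool.Agent.Lib.P4a7640M

open Pool.Agent.Lib.P4a7640

open Classical in
/-- the signs: `-1` if `p ∈ P` and `α θ_p` lies in `A` modulo one, and `1` otherwise -/
noncomputable def xs (A : Set ℝ) (P : Set ℕ) (θ : ℕ → ℝ) (α : ℝ) : SS :=
  fun p => if p ∈ P ∧ Int.fract (α * θ p) ∈ A then -1 else 1

end Pool.Agent.Lib.P4a7640M
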