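import Mathlib
import Pool.Agent.Lib.P4a7640.Corr
import Pool.Agent.Lib.P4a7640M.Fam

/-!
# Metric families of sign functions: basic definitions
-/

open MeasureTheory

namespace Pool.Agent.Lib.P4a7640M

open Pool.Agent.Lib.P4a7640

/-- finite unions of intervals -/
def FinInt (A : Set ℝ) : Prop :=
  ∃ s : Finset (Set ℝ), (∀ J ∈ s, J.OrdConnected) ∧ A = ⋃ J ∈ s, J

open Classical in
/-- the one-periodic function with values `-1` on `A` and `1` elsewhere -/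
noncomputable def phi (A : Set ℝ) (t : ℝ) : ℝ := if Int.fract t ∈ A then -1 else 1

/-- the mean of `phi A` -/
noncomputable def cc (A : Set ℝ) : ℝ := 1 - 2 * (volume (A ∩ Set.Ico (0:ℝ) 1)).toReal

/-- `log log N` -/
noncomputable def lam (N : ℕ) : ℝ := Real.log (Real.log N)

/-- the lower bound for large primes -/
noncomputable def zz (N : ℕ) : ℝ := Real.exp (lam N ^ 5)

/-- the separation parameter -/
noncomputable def LL (a N : ℕ) : ℝ := Real.log N ^ a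

/-- `u` has a prime factor `p > z` and `v` has a prime factor `q ∈ [p / L, p)` -/
def Close (z L : ℝ) (u v : ℕ) : Prop :=
  ∃ p q : ℕ, p.Prime ∧ q.Prime ∧ q < p ∧ z < p ∧ (p:ℝ) ≤ L * q ∧ p ∣ u ∧ q ∣ v

/-- the pair `(n, n')` has good prime factors -/
structure Good (P : Set ℕ) (z L : ℝ) (H : Finset ℕ) (h₀ k n n' : ℕ) : Prop where
  many : ∃ s : Finset ℕ, k ≤ s.card ∧ ∀ p ∈ s, p ∈ oddT (n + h₀) ∧ p ∈ P ∧ z < p
  common : ∀ h ∈ H, ∀ h' ∈ H, ∀ p : ℕ, p.Prime → z < p → p ∣ n + h → ¬ p ∣ n' + h'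
  sep1 : ∀ h ∈ H, ∀ h' ∈ H, ¬ Close z L (n + h) (n + h')
  sep2 : ∀ h ∈ H, ∀ h' ∈ H, ¬ Close z L (n' + h) (n' + h')
  sep3 : ∀ h ∈ H, ∀ h' ∈ H, ¬ Close z L (n + h) (n' + h')
  sep4 : ∀ h ∈ H, ∀ h' ∈ H, ¬ Close z L (n' + h) (n + h')

/-- `F` is constant on the subintervals of `(u, v)` that avoid `Z` -/
def PC (Z : Finset ℝ) (u v : ℝ) (F : ℝ → ℝ) : Prop :=
  ∀ s t, u < s → s ≤ t → t < v → (∀ ζ ∈ Z, ζ < s ∨ t < ζ) → F s = F t

/-- the primes in `(w, z]` that do not divide `m` -/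
def PP (w z m : ℕ) : Finset ℕ := (Finset.Ioc w z).filter (fun l => l.Prime ∧ ¬ l ∣ m)

end Pool.Agent.Lib.P4a7640M
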