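import Mathlib
import Pool.Agent.Lib.P4a7640M.Base

/-!
# Oscillation of the periodic sign function
-/

open MeasureTheory

namespace Pool.Agent.Lib.P4a7640M

lemma abs_phi (A : Set ℝ) (t : ℝ) : |phi A t| = 1 := by
  unfold phi
  split_ifs <;> simp

lemma measurable_phi_one {A : Set ℝ} (hA : MeasurableSet A) : Measurable (phi A) := by
  unfold phi
  exact Measurable.ite (measurable_fract hA) measurable_const measurable_const

lemma measurable_phi {A : Set ℝ} (hA : MeasurableSet A) (θ : ℝ) :
    Measurable (fun α : ℝ => phi A (α * θ)) :=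
  (measurable_phi_one hA).comp (measurable_id.mul_const θ)

lemma vol_mem (A : Set ℝ) : 0 ≤ (volume (A ∩ Set.Ico (0:ℝ) 1)).toReal ∧
    (volume (A ∩ Set.Ico (0:ℝ) 1)).toReal ≤ 1 := by
  refine ⟨ENNReal.toReal_nonneg, ?_⟩
  have h : volume (A ∩ Set.Ico (0:ℝ) 1) ≤ 1 := by
    refine (measure_mono Set.inter_subset_right).trans ?_
    simp
  exact ENNReal.toReal_le_of_le_ofReal zero_le_one (by simpa using h)

lemma abs_cc_le_one (A : Set ℝ) : |cc A| ≤ 1 := by
  have h := vol_mem A
  unfold cc
  rw [abs_le]
  constructor <;> linarith [h.1, h.2]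

lemma FinInt.measurableSet {A : Set ℝ} (hA : FinInt A) : MeasurableSet A := by
  obtain ⟨s, hs, rfl⟩ := hA
  exact Finset.measurableSet_biUnion s fun J hJ => (hs J hJ).measurableSet

lemma phi_periodic (A : Set ℝ) : Function.Periodic (phi A) 1 := by
  intro x
  unfold phi
  rw [Int.fract_add_one]

lemma phi_integrable {A : Set ℝ} (hA : MeasurableSet A) (a b : ℝ) :
    IntervalIntegrable (phi A) volume a b := by
  rw [intervalIntegrable_iff, Set.uIoc]
  refine Integrable.mono' (integrable_const (1:ℝ)) (measurable_phi_one hA).aestronglyMeasurable ?_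
  exact Filter.Eventually.of_forall fun x => by rw [Real.norm_eq_abs, abs_phi]

lemma integral_phi {A : Set ℝ} (hA : MeasurableSet A) : ∫ x in (0:ℝ)..1, phi A x = cc A := by
  rw [intervalIntegral.integral_of_le zero_le_one, ← integral_Ico_eq_integral_Ioc]
  have h1 : ∀ x ∈ Set.Ico (0:ℝ) 1, phi A x = 1 - 2 * A.indicator (fun _ => (1:ℝ)) x := by
    intro x hx
    have hf : Int.fract x = x := Int.fract_eq_self.mpr hx
    unfold phi
    rw [hf]
    by_cases hxA : x ∈ A
    · rw [if_pos hxA, Set.indicator_of_mem hxA]; norm_num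
    · rw [if_neg hxA, Set.indicator_of_notMem hxA]; norm_num
  rw [setIntegral_congr_fun measurableSet_Ico h1]
  have hi : IntegrableOn (A.indicator (fun _ => (1:ℝ))) (Set.Ico (0:ℝ) 1) := by
    refine Integrable.indicator ?_ hA
    exact integrable_const _
  rw [integral_sub (integrable_const _) (hi.const_mul 2), integral_const_mul,
    integral_indicator hA, Measure.restrict_restrict hA]
  unfold cc
  simp [Measure.real]

/-- Proof: substitute `x = α θ` (`intervalIntegral.integral_comp_mul_right` or similar); the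
function `x ↦ phi A x - cc A` is measurable, 1-periodic, bounded by 2 in absolute value and has
integral `0` over `[0,1]` (as `phi A = 1 - 2 * 1_A` on `[0,1)`). Over `[a, b]` with
`b = a + n + r`, `n : ℕ`, `0 ≤ r < 1`, the full periods contribute `0`
(`Function.Periodic.intervalIntegral_add_eq`, `...zsmul...`), and the rest is at most `2 r ≤ 2`. -/
theorem phi_int_le {A : Set ℝ} (hA : MeasurableSet A) {θ : ℝ} (hθ : 0 < θ) {s t : ℝ}
    (hst : s ≤ t) : |∫ α in s..t, (phi A (α * θ) - cc A)| ≤ 2 / θ := by
  have hg : ∀ a b : ℝ, IntervalIntegrable (fun x => phi A x - cc A) volume a b := fun a b =>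
    (phi_integrable hA a b).sub intervalIntegrable_const
  have hper : Function.Periodic (fun x => phi A x - cc A) 1 := fun x => by
    show phi A (x + 1) - cc A = phi A x - cc A
    rw [phi_periodic A x]
  have hzero : ∀ a : ℝ, ∫ x in a..(a + 1), (phi A x - cc A) = 0 := by
    intro a
    rw [hper.intervalIntegral_add_eq a 0, zero_add,
      intervalIntegral.integral_sub (phi_integrable hA 0 1) intervalIntegrable_const,
      integral_phi hA]
    simp
  have key : ∀ a b : ℝ, a ≤ b → |∫ x in a..b, (phi A x - cc A)| ≤ 2 := by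
    intro a b hab
    set n : ℤ := ⌊b - a⌋ with hn
    have hn1 : (n:ℝ) ≤ b - a := Int.floor_le _
    have hn2 : b - a < n + 1 := Int.lt_floor_add_one _
    have h1 : ∫ x in a..(a + n), (phi A x - cc A) = 0 := by
      have h2 := hper.intervalIntegral_add_zsmul_eq n a hg
      rw [hzero, smul_zero] at h2
      simpa using h2
    rw [← intervalIntegral.integral_add_adjacent_intervals (hg a (a + n)) (hg (a + n) b), h1,
      zero_add]
    have h3 := intervalIntegral.norm_integral_le_of_norm_le_const (a := a + n) (b := b)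
      (f := fun x => phi A x - cc A) (C := 2) (fun x _ => by
        rw [Real.norm_eq_abs]
        calc |phi A x - cc A| ≤ |phi A x| + |cc A| := abs_sub _ _
          _ ≤ 1 + 1 := by rw [abs_phi]; linarith [abs_cc_le_one A]
          _ = 2 := by norm_num)
    rw [Real.norm_eq_abs] at h3
    refine h3.trans ?_
    rw [abs_of_nonneg (by linarith)]
    linarith
  rw [intervalIntegral.integral_comp_mul_right (fun x => phi A x - cc A) hθ.ne', smul_eq_mul,
    abs_mul, abs_of_pos (inv_pos.mpr hθ), div_eq_inv_mul]
  exact mul_le_mul_of_nonneg_left (key _ _ (mul_le_mul_of_nonneg_right hst hθ.le))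
    (inv_pos.mpr hθ).le

end Pool.Agent.Lib.P4a7640M
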