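import Mathlib
import Pool.Agent.Lib.P4a7640M.Base

/-!
# The jumps of the periodic sign function
-/

open MeasureTheory

namespace Pool.Agent.Lib.P4a7640M

open Classical in
/-- the end points -/
noncomputable def endPts (s : Finset (Set ℝ)) : Finset ℝ :=
  insert 0 (s.image (fun J => sInf (J ∩ Set.Icc 0 1)) ∪ s.image (fun J => sSup (J ∩ Set.Icc 0 1)))

lemma mem_iff_of_no_endPt {s : Finset (Set ℝ)} (hs : ∀ J ∈ s, J.OrdConnected) {x y : ℝ}
    (hx : 0 ≤ x) (hxy : x ≤ y) (hy : y < 1) (h : ∀ c ∈ endPts s, c < x ∨ y < c) {J : Set ℝ}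
    (hJ : J ∈ s) : x ∈ J ↔ y ∈ J := by
  classical
  have hba : BddAbove (J ∩ Set.Icc (0:ℝ) 1) := ⟨1, fun z hz => hz.2.2⟩
  have hbb : BddBelow (J ∩ Set.Icc (0:ℝ) 1) := ⟨0, fun z hz => hz.2.1⟩
  have hoc := hs J hJ
  constructor
  · intro hxJ
    by_contra hyJ
    have hmem : x ∈ J ∩ Set.Icc (0:ℝ) 1 := ⟨hxJ, hx, by linarith⟩
    have h1 : x ≤ sSup (J ∩ Set.Icc 0 1) := le_csSup hba hmem
    have h2 : sSup (J ∩ Set.Icc 0 1) ≤ y := by
      refine csSup_le ⟨x, hmem⟩ fun z hz => ?_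
      by_contra hzy
      exact hyJ (hoc.out hxJ hz.1 ⟨hxy, (not_le.mp hzy).le⟩)
    rcases h _ (by
      unfold endPts
      exact Finset.mem_insert_of_mem (Finset.mem_union_right _
        (Finset.mem_image_of_mem _ hJ))) with h3 | h3
    · exact absurd h1 (not_le.mpr h3)
    · exact absurd h2 (not_le.mpr h3)
  · intro hyJ
    by_contra hxJ
    have hmem : y ∈ J ∩ Set.Icc (0:ℝ) 1 := ⟨hyJ, by linarith, hy.le⟩
    have h1 : sInf (J ∩ Set.Icc 0 1) ≤ y := csInf_le hbb hmem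
    have h2 : x ≤ sInf (J ∩ Set.Icc 0 1) := by
      refine le_csInf ⟨y, hmem⟩ fun z hz => ?_
      by_contra hzx
      exact hxJ (hoc.out hz.1 hyJ ⟨(not_le.mp hzx).le, hxy⟩)
    rcases h _ (by
      unfold endPts
      exact Finset.mem_insert_of_mem (Finset.mem_union_left _
        (Finset.mem_image_of_mem _ hJ))) with h3 | h3
    · exact absurd h2 (not_le.mpr h3)
    · exact absurd h1 (not_le.mpr h3)

/-- Proof. Let `A = ⋃ J ∈ s, J` and `E = {0} ∪ {sInf (J ∩ [0,1]), sSup (J ∩ [0,1]) : J ∈ s}`,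
`e = E.card`. If `0 ≤ x ≤ y < 1` and no element of `E` lies in `[x, y]`, then `x ∈ J ↔ y ∈ J` for all
`J ∈ s` (if `x ∈ J`, `y ∉ J` then `x ≤ sSup (J ∩ [0,1]) ≤ y` by order connectedness, and similarly
for the other case with `sInf`). Put `Z = {(m + c)/θ : c ∈ E, m ∈ ℤ} ∩ [u, u+1]`; for each `c`
there are at most `θ + 1` such `m`. If no element of `Z` lies in `[s, t] ⊆ (u, u+1)` then, as
`0 ∈ E`, `⌊s θ⌋ = ⌊t θ⌋ = m`, so `x = fract (s θ) ≤ y = fract (t θ)` and no `c ∈ E` lies in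
`[x, y]`. -/
theorem pc_phi {A : Set ℝ} (hA : FinInt A) : ∃ e : ℕ, ∀ θ : ℝ, 0 < θ → ∀ u : ℝ,
    ∃ Z : Finset ℝ, (Z.card : ℝ) ≤ e * (θ + 2) ∧ PC Z u (u + 1) (fun α => phi A (α * θ)) := by
  classical
  obtain ⟨s, hs, rfl⟩ := hA
  refine ⟨(endPts s).card, fun θ hθ u => ?_⟩
  refine ⟨(endPts s).biUnion fun c => (Finset.Icc ⌈u * θ - c⌉ ⌊(u + 1) * θ - c⌋).image
    (fun m : ℤ => ((m:ℝ) + c) / θ), ?_, ?_⟩
  · have h1 : ∀ c ∈ endPts s, ((((Finset.Icc ⌈u * θ - c⌉ ⌊(u + 1) * θ - c⌋).image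
        (fun m : ℤ => ((m:ℝ) + c) / θ)).card : ℕ) : ℝ) ≤ θ + 2 := by
      intro c _
      have h2 : (((Finset.Icc ⌈u * θ - c⌉ ⌊(u + 1) * θ - c⌋).image
        (fun m : ℤ => ((m:ℝ) + c) / θ)).card : ℝ) ≤
          ((Finset.Icc ⌈u * θ - c⌉ ⌊(u + 1) * θ - c⌋).card : ℝ) := by
        exact_mod_cast Finset.card_image_le
      refine h2.trans ?_
      rw [Int.card_Icc]
      rcases le_total (⌊(u + 1) * θ - c⌋ + 1 - ⌈u * θ - c⌉) 0 with h3 | h3
      · rw [Int.toNat_of_nonpos h3]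
        simp
        linarith
      · have h4 : (((⌊(u + 1) * θ - c⌋ + 1 - ⌈u * θ - c⌉).toNat : ℕ) : ℝ) =
            ((⌊(u + 1) * θ - c⌋ + 1 - ⌈u * θ - c⌉ : ℤ) : ℝ) := by
          have := Int.toNat_of_nonneg h3
          exact_mod_cast this
        rw [h4]
        push_cast
        have h5 := Int.floor_le ((u + 1) * θ - c)
        have h6 := Int.le_ceil (u * θ - c)
        nlinarith
    have h7 : ((((endPts s).biUnion fun c => (Finset.Icc ⌈u * θ - c⌉ ⌊(u + 1) * θ - c⌋).image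
        (fun m : ℤ => ((m:ℝ) + c) / θ)).card : ℕ) : ℝ) ≤
        ∑ c ∈ endPts s, ((((Finset.Icc ⌈u * θ - c⌉ ⌊(u + 1) * θ - c⌋).image
          (fun m : ℤ => ((m:ℝ) + c) / θ)).card : ℕ) : ℝ) := by
      exact_mod_cast Finset.card_biUnion_le
    refine h7.trans ((Finset.sum_le_sum h1).trans ?_)
    rw [Finset.sum_const, nsmul_eq_mul]
  · intro a b ha hab hb h
    have hmemZ : ∀ c ∈ endPts s, ∀ m : ℤ, a ≤ ((m:ℝ) + c) / θ → ((m:ℝ) + c) / θ ≤ b → False := by
      intro c hc m h1 h2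
      have h1' : a * θ ≤ m + c := (le_div_iff₀ hθ).mp h1
      have h2' : (m:ℝ) + c ≤ b * θ := (div_le_iff₀ hθ).mp h2
      have hm : m ∈ Finset.Icc ⌈u * θ - c⌉ ⌊(u + 1) * θ - c⌋ := by
        rw [Finset.mem_Icc]
        constructor
        · rw [Int.ceil_le]
          have : u * θ ≤ a * θ := mul_le_mul_of_nonneg_right ha.le hθ.le
          linarith
        · rw [Int.le_floor]
          have : b * θ ≤ (u + 1) * θ := mul_le_mul_of_nonneg_right hb.le hθ.le
          linarith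
      rcases h (((m:ℝ) + c) / θ) (Finset.mem_biUnion.mpr ⟨c, hc,
        Finset.mem_image_of_mem _ hm⟩) with h3 | h3
      · exact absurd h1 (not_le.mpr h3)
      · exact absurd h2 (not_le.mpr h3)
    have habθ : a * θ ≤ b * θ := mul_le_mul_of_nonneg_right hab hθ.le
    have hfl : ⌊a * θ⌋ = ⌊b * θ⌋ := by
      by_contra hne
      have hlt : ⌊a * θ⌋ < ⌊b * θ⌋ := lt_of_le_of_ne (Int.floor_le_floor habθ) hne
      refine hmemZ 0 (by unfold endPts; exact Finset.mem_insert_self _ _) ⌊b * θ⌋ ?_ ?_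
      · rw [le_div_iff₀ hθ, add_zero]
        exact (Int.floor_lt.mp hlt).le
      · rw [div_le_iff₀ hθ, add_zero]
        exact Int.floor_le _
    have hx : 0 ≤ Int.fract (a * θ) := Int.fract_nonneg _
    have hy : Int.fract (b * θ) < 1 := Int.fract_lt_one _
    have hxy : Int.fract (a * θ) ≤ Int.fract (b * θ) := by
      unfold Int.fract
      rw [hfl]
      linarith
    have hno : ∀ c ∈ endPts s, c < Int.fract (a * θ) ∨ Int.fract (b * θ) < c := by
      intro c hc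
      by_contra hcon
      push Not at hcon
      refine hmemZ c hc ⌊a * θ⌋ ?_ ?_
      · rw [le_div_iff₀ hθ]
        have := Int.floor_add_fract (a * θ)
        linarith [hcon.1]
      · rw [div_le_iff₀ hθ, hfl]
        have := Int.floor_add_fract (b * θ)
        linarith [hcon.2]
    have hiff : Int.fract (a * θ) ∈ (⋃ J ∈ s, J) ↔ Int.fract (b * θ) ∈ (⋃ J ∈ s, J) := by
      simp only [Set.mem_iUnion, exists_prop]
      exact exists_congr fun J => and_congr_right fun hJ =>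
        mem_iff_of_no_endPt hs hx hxy hy hno hJ
    show phi _ (a * θ) = phi _ (b * θ)
    unfold phi
    by_cases hm : Int.fract (a * θ) ∈ (⋃ J ∈ s, J)
    · rw [if_pos hm, if_pos (hiff.mp hm)]
    · rw [if_neg hm, if_neg (fun h' => hm (hiff.mpr h'))]

end Pool.Agent.Lib.P4a7640M
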