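import Mathlib

/-!
# Chebyshev bounds for sums of reciprocals of primes
-/

open Finset

namespace Pool.Agent.Lib.P4a7640M

lemma log4_eq : Real.log 4 = 2 * Real.log 2 := by
  rw [show (4:ℝ) = 2 ^ 2 by norm_num, Real.log_pow]; norm_num

/-- Dyadic Chebyshev bound. -/
lemma sum_inv_dyadic {y : ℝ} (hy : 1 < y) (s : Finset ℕ)
    (hs : ∀ p ∈ s, p.Prime ∧ y < p ∧ (p:ℝ) ≤ 2 * y) :
    ∑ p ∈ s, (1:ℝ) / p ≤ 2 * Real.log 4 / Real.log y := by
  have hy0 : 0 < y := by linarith
  have hly : 0 < Real.log y := Real.log_pos hy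
  have hth : ∑ p ∈ s, Real.log p ≤ Real.log 4 * (2 * y) := by
    refine le_trans ?_ (Chebyshev.theta_le_log4_mul_x (by linarith : (0:ℝ) ≤ 2 * y))
    rw [Chebyshev.theta]
    apply Finset.sum_le_sum_of_subset_of_nonneg
    · intro p hp
      obtain ⟨h1, _, h3⟩ := hs p hp
      rw [Finset.mem_filter, Finset.mem_Ioc]
      exact ⟨⟨h1.pos, Nat.le_floor h3⟩, h1⟩
    · intro p hp _
      rw [Finset.mem_filter] at hp
      exact Real.log_nonneg (by exact_mod_cast hp.2.one_le)
  calc ∑ p ∈ s, (1:ℝ) / p ≤ ∑ p ∈ s, (1 / (y * Real.log y)) * Real.log p := by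
        apply Finset.sum_le_sum
        intro p hp
        obtain ⟨_, h2, _⟩ := hs p hp
        have hp0 : (0:ℝ) < p := by linarith
        have h4 : Real.log y ≤ Real.log p := Real.log_le_log hy0 h2.le
        rw [div_mul_eq_mul_div, one_mul, div_le_div_iff₀ hp0 (by positivity), one_mul]
        rw [mul_comm (Real.log (p:ℝ)) (p:ℝ)]
        exact mul_le_mul h2.le h4 hly.le hp0.le
    _ = (1 / (y * Real.log y)) * ∑ p ∈ s, Real.log p := by rw [Finset.mul_sum]
    _ ≤ (1 / (y * Real.log y)) * (Real.log 4 * (2 * y)) :=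
        mul_le_mul_of_nonneg_left hth (by positivity)
    _ = 2 * Real.log 4 / Real.log y := by field_simp

lemma sum_inv_blocks {y : ℝ} (hy : 1 < y) (k : ℕ) : ∀ (s : Finset ℕ),
    (∀ p ∈ s, p.Prime ∧ y < p ∧ (p:ℝ) ≤ 2 ^ k * y) →
    ∑ p ∈ s, (1:ℝ) / p ≤ k * (2 * Real.log 4 / Real.log y) := by
  induction k with
  | zero =>
    intro s hs
    have : s = ∅ := by
      apply Finset.eq_empty_of_forall_notMem
      intro p hp
      obtain ⟨_, h2, h3⟩ := hs p hp
      rw [pow_zero, one_mul] at h3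
      linarith
    rw [this]; simp
  | succ k ih =>
    intro s hs
    rw [← Finset.sum_filter_add_sum_filter_not s (fun p : ℕ => (p:ℝ) ≤ 2 ^ k * y)]
    have h2k : (1:ℝ) ≤ 2 ^ k := one_le_pow₀ (by norm_num)
    have h1 := ih (s.filter (fun p : ℕ => (p:ℝ) ≤ 2 ^ k * y)) (by
      intro p hp
      rw [Finset.mem_filter] at hp
      exact ⟨(hs p hp.1).1, (hs p hp.1).2.1, hp.2⟩)
    have hy' : 1 < 2 ^ k * y := by nlinarith
    have h2 := sum_inv_dyadic hy' (s.filter (fun p : ℕ => ¬ (p:ℝ) ≤ 2 ^ k * y)) (by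
      intro p hp
      rw [Finset.mem_filter, not_le] at hp
      refine ⟨(hs p hp.1).1, hp.2, ?_⟩
      have := (hs p hp.1).2.2
      rw [pow_succ] at this
      linarith)
    have h3 : 2 * Real.log 4 / Real.log (2 ^ k * y) ≤ 2 * Real.log 4 / Real.log y := by
      apply div_le_div_of_nonneg_left
      · have := Real.log_nonneg (by norm_num : (1:ℝ) ≤ 4)
        positivity
      · exact Real.log_pos hy
      · apply Real.log_le_log (by linarith)
        nlinarith
    push_cast
    linarith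

/-- Primes in `(y, t y]`. -/
theorem sum_inv_range {y t : ℝ} (hy : 1 < y) (ht : 1 ≤ t) (s : Finset ℕ)
    (hs : ∀ p ∈ s, p.Prime ∧ y < p ∧ (p:ℝ) ≤ t * y) :
    ∑ p ∈ s, (1:ℝ) / p ≤ 4 * (1 + Real.log t) / Real.log y := by
  have hly : 0 < Real.log y := Real.log_pos hy
  have hl2 : 0 < Real.log 2 := Real.log_pos (by norm_num)
  have hlt : 0 ≤ Real.log t := Real.log_nonneg ht
  set k := ⌈Real.log t / Real.log 2⌉₊ with hk
  have h1 : Real.log t / Real.log 2 ≤ k := Nat.le_ceil _
  have h2 : (k:ℝ) ≤ Real.log t / Real.log 2 + 1 :=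
    (Nat.ceil_lt_add_one (div_nonneg hlt hl2.le)).le
  have h3 : t ≤ 2 ^ k := by
    rw [div_le_iff₀ hl2] at h1
    have : Real.log t ≤ Real.log (2 ^ k) := by rw [Real.log_pow]; exact h1
    exact (Real.log_le_log_iff (by linarith) (by positivity)).mp this
  have h4 := sum_inv_blocks hy k s (by
    intro p hp
    refine ⟨(hs p hp).1, (hs p hp).2.1, (hs p hp).2.2.trans ?_⟩
    exact mul_le_mul_of_nonneg_right h3 (by linarith))
  refine h4.trans ?_
  rw [log4_eq, mul_div_assoc']
  apply div_le_div_of_nonneg_right _ hly.le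
  have h5 : (k:ℝ) * Real.log 2 ≤ Real.log t + Real.log 2 := by
    have := mul_le_mul_of_nonneg_right h2 hl2.le
    rw [add_mul, div_mul_cancel₀ _ hl2.ne', one_mul] at this
    exact this
  have h6 : Real.log 2 ≤ 1 := by
    have := Real.log_two_lt_d9; linarith
  nlinarith

lemma tail_aux {z : ℝ} (hz : 2 ≤ z) (k : ℕ) : ∀ (s : Finset ℕ),
    (∀ p ∈ s, p.Prime ∧ z < p ∧ (p:ℝ) ≤ 2 ^ (k + 1) * z) →
    ∑ p ∈ s, 1 / ((p:ℝ) * Real.log p) ≤ 2 * Real.log 4 * (1 / Real.log z ^ 2
      + (1 / Real.log 2) * (1 / Real.log z - 1 / (k * Real.log 2 + Real.log z))) := by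
  have hl2 : 0 < Real.log 2 := Real.log_pos (by norm_num)
  have hlz : 0 < Real.log z := Real.log_pos (by linarith)
  have hl4 : 0 < Real.log 4 := Real.log_pos (by norm_num)
  -- the bound of a block
  have block : ∀ (y : ℝ), 1 < y → ∀ (s : Finset ℕ), (∀ p ∈ s, p.Prime ∧ y < p ∧ (p:ℝ) ≤ 2 * y) →
      ∑ p ∈ s, 1 / ((p:ℝ) * Real.log p) ≤ 2 * Real.log 4 * (1 / Real.log y ^ 2) := by
    intro y hy s hs
    have hly : 0 < Real.log y := Real.log_pos hy
    calc ∑ p ∈ s, 1 / ((p:ℝ) * Real.log p) ≤ ∑ p ∈ s, (1 / Real.log y) * ((1:ℝ) / p) := by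
          apply Finset.sum_le_sum
          intro p hp
          obtain ⟨_, h2, _⟩ := hs p hp
          have hp0 : (0:ℝ) < p := by linarith
          have h4 : Real.log y ≤ Real.log p := Real.log_le_log (by linarith) h2.le
          rw [div_mul_div_comm, one_mul]
          apply one_div_le_one_div_of_le (by positivity)
          rw [mul_comm (Real.log y)]
          exact mul_le_mul_of_nonneg_left h4 hp0.le
      _ = (1 / Real.log y) * ∑ p ∈ s, (1:ℝ) / p := by rw [Finset.mul_sum]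
      _ ≤ (1 / Real.log y) * (2 * Real.log 4 / Real.log y) :=
          mul_le_mul_of_nonneg_left (sum_inv_dyadic hy s hs) (by positivity)
      _ = _ := by field_simp
  induction k with
  | zero =>
    intro s hs
    have := block z (by linarith) s (by
      intro p hp
      refine ⟨(hs p hp).1, (hs p hp).2.1, ?_⟩
      have := (hs p hp).2.2
      simpa using this)
    simpa using this
  | succ k ih =>
    intro s hs
    rw [← Finset.sum_filter_add_sum_filter_not s (fun p : ℕ => (p:ℝ) ≤ 2 ^ (k + 1) * z)]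
    have h1 := ih (s.filter (fun p : ℕ => (p:ℝ) ≤ 2 ^ (k + 1) * z)) (by
      intro p hp
      rw [Finset.mem_filter] at hp
      exact ⟨(hs p hp.1).1, (hs p hp.1).2.1, hp.2⟩)
    have h2k : (1:ℝ) ≤ 2 ^ (k + 1) := one_le_pow₀ (by norm_num)
    have h2 := block (2 ^ (k + 1) * z) (by nlinarith)
      (s.filter (fun p : ℕ => ¬ (p:ℝ) ≤ 2 ^ (k + 1) * z)) (by
      intro p hp
      rw [Finset.mem_filter, not_le] at hp
      refine ⟨(hs p hp.1).1, hp.2, ?_⟩
      have := (hs p hp.1).2.2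
      rw [pow_succ] at this
      linarith)
    have elog : Real.log (2 ^ (k + 1) * z) = (k + 1 : ℕ) * Real.log 2 + Real.log z := by
      rw [Real.log_mul (by positivity) (by linarith), Real.log_pow]
    rw [elog] at h2
    set A : ℝ := (k:ℝ) * Real.log 2 + Real.log z with hA
    have hA0 : 0 < A := by positivity
    have eB : ((k + 1 : ℕ) : ℝ) * Real.log 2 + Real.log z = A + Real.log 2 := by
      rw [hA]; push_cast; ring
    rw [eB] at h2 ⊢
    have h3 : 1 / (A + Real.log 2) ^ 2 ≤ (1 / Real.log 2) * (1 / A - 1 / (A + Real.log 2)) := by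
      have e : (1 / Real.log 2) * (1 / A - 1 / (A + Real.log 2)) = 1 / (A * (A + Real.log 2)) := by
        field_simp
        ring
      rw [e]
      apply one_div_le_one_div_of_le (by positivity)
      nlinarith
    have h4 : 2 * Real.log 4 * (1 / (A + Real.log 2) ^ 2)
        ≤ 2 * Real.log 4 * ((1 / Real.log 2) * (1 / A - 1 / (A + Real.log 2))) :=
      mul_le_mul_of_nonneg_left h3 (by positivity)
    have h5 := add_le_add h1 (h2.trans h4)
    refine h5.trans (le_of_eq ?_)
    ring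

theorem sum_inv_log_tail {z : ℝ} (hz : 2 ≤ z) (s : Finset ℕ)
    (hs : ∀ p ∈ s, p.Prime ∧ z < p) :
    ∑ p ∈ s, 1 / ((p:ℝ) * Real.log p) ≤ 8 / Real.log z := by
  have hl2 : 0 < Real.log 2 := Real.log_pos (by norm_num)
  have hlz : 0 < Real.log z := Real.log_pos (by linarith)
  have hlz2 : Real.log 2 ≤ Real.log z := Real.log_le_log (by norm_num) hz
  obtain ⟨k, hk⟩ : ∃ k : ℕ, ∀ p ∈ s, (p:ℝ) ≤ 2 ^ (k + 1) * z := by
    refine ⟨s.sup id, ?_⟩
    intro p hp
    have h1 : p ≤ s.sup id := Finset.le_sup (f := id) hp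
    have h2 : (p:ℝ) < 2 ^ (s.sup id) := by
      calc (p:ℝ) ≤ ((s.sup id : ℕ) : ℝ) := by exact_mod_cast h1
        _ < _ := by exact_mod_cast Nat.lt_two_pow_self
    have h3 : (1:ℝ) ≤ 2 ^ (s.sup id) := one_le_pow₀ (by norm_num)
    rw [pow_succ]
    nlinarith
  have h1 := tail_aux hz k s (fun p hp => ⟨(hs p hp).1, (hs p hp).2, hk p hp⟩)
  refine h1.trans ?_
  have hA : 0 < (k:ℝ) * Real.log 2 + Real.log z := by positivity
  have h2 : 1 / Real.log z ^ 2 ≤ (1 / Real.log 2) * (1 / Real.log z) := by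
    rw [div_mul_div_comm, one_mul]
    apply one_div_le_one_div_of_le (by positivity)
    nlinarith
  have h3 : 0 ≤ (1 / Real.log 2) * (1 / ((k:ℝ) * Real.log 2 + Real.log z)) := by positivity
  calc 2 * Real.log 4 * (1 / Real.log z ^ 2
      + (1 / Real.log 2) * (1 / Real.log z - 1 / (k * Real.log 2 + Real.log z)))
      ≤ 2 * Real.log 4 * ((1 / Real.log 2) * (1 / Real.log z)
        + (1 / Real.log 2) * (1 / Real.log z)) := by
        apply mul_le_mul_of_nonneg_left
        · rw [mul_sub]; linarith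
        · rw [log4_eq]; positivity
    _ = 8 / Real.log z := by
        rw [log4_eq]; field_simp; ring

/-- Close pairs of primes. -/
theorem sum_close_pairs {z L : ℝ} (hL : 1 ≤ L) (hz : (2 * L) ^ 2 ≤ z) (s : Finset (ℕ × ℕ))
    (hs : ∀ x ∈ s, x.1.Prime ∧ x.2.Prime ∧ x.2 < x.1 ∧ z < x.1 ∧ (x.1:ℝ) ≤ L * x.2) :
    ∑ x ∈ s, 1 / ((x.1:ℝ) * x.2) ≤ 64 * (1 + Real.log (2 * L)) / Real.log z := by
  have hz4 : 4 ≤ z := by nlinarith
  have hlz : 0 < Real.log z := Real.log_pos (by linarith)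
  have hl2L : 0 ≤ Real.log (2 * L) := Real.log_nonneg (by linarith)
  rw [← Finset.sum_fiberwise_of_maps_to (t := s.image Prod.fst) (g := Prod.fst)
    (fun x hx => Finset.mem_image_of_mem _ hx)]
  have key : ∀ p ∈ s.image Prod.fst, ∑ x ∈ s.filter (fun x => x.1 = p), 1 / ((x.1:ℝ) * x.2)
      ≤ 8 * (1 + Real.log (2 * L)) * (1 / ((p:ℝ) * Real.log p)) := by
    intro p hp
    obtain ⟨x0, hx0, hx0p⟩ := Finset.mem_image.mp hp
    have hzp : z < p := by rw [← hx0p]; exact (hs x0 hx0).2.2.2.1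
    have hp0 : (0:ℝ) < p := by linarith
    have hlp : 0 < Real.log p := Real.log_pos (by linarith)
    set y : ℝ := p / (2 * L) with hy
    have h2L : 0 < 2 * L := by linarith
    have hyp : y * (2 * L) = p := by rw [hy]; field_simp
    have hy2L : 2 * L < y := by
      rw [hy, lt_div_iff₀ h2L]
      nlinarith
    have hy1 : 1 < y := by linarith
    have hly : Real.log p / 2 ≤ Real.log y := by
      have h1 : (p:ℝ) ≤ y ^ 2 := by
        rw [← hyp]; nlinarith
      have h2 := Real.log_le_log hp0 h1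
      rw [Real.log_pow] at h2
      push_cast at h2
      linarith
    have h3 : ∑ x ∈ s.filter (fun x => x.1 = p), 1 / ((x.1:ℝ) * x.2)
        = (1 / (p:ℝ)) * ∑ q ∈ (s.filter (fun x => x.1 = p)).image Prod.snd, (1:ℝ) / q := by
      rw [Finset.sum_image, Finset.mul_sum]
      · apply Finset.sum_congr rfl
        intro x hx
        rw [Finset.mem_filter] at hx
        rw [hx.2]
        rw [div_mul_div_comm, one_mul]
      · intro x hx x' hx' h
        rw [Finset.mem_coe, Finset.mem_filter] at hx hx'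
        exact Prod.ext (hx.2.trans hx'.2.symm) h
    rw [h3]
    have h4 := sum_inv_range hy1 (by linarith : (1:ℝ) ≤ 2 * L)
      ((s.filter (fun x => x.1 = p)).image Prod.snd) (by
      intro q hq
      obtain ⟨x, hx, hxq⟩ := Finset.mem_image.mp hq
      rw [Finset.mem_filter] at hx
      obtain ⟨_, a2, a3, _, a5⟩ := hs x hx.1
      rw [hx.2, hxq] at a5
      rw [hxq] at a2 a3
      rw [hx.2] at a3
      refine ⟨a2, ?_, ?_⟩
      · rw [hy, div_lt_iff₀ h2L]
        have hq0 : (0:ℝ) < q := by exact_mod_cast a2.pos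
        nlinarith
      · rw [mul_comm, hyp]
        exact_mod_cast a3.le)
    calc (1 / (p:ℝ)) * ∑ q ∈ (s.filter (fun x => x.1 = p)).image Prod.snd, (1:ℝ) / q
        ≤ (1 / (p:ℝ)) * (4 * (1 + Real.log (2 * L)) / Real.log y) :=
          mul_le_mul_of_nonneg_left h4 (by positivity)
      _ ≤ (1 / (p:ℝ)) * (4 * (1 + Real.log (2 * L)) / (Real.log p / 2)) := by
          apply mul_le_mul_of_nonneg_left _ (by positivity)
          apply div_le_div_of_nonneg_left (by positivity) (by positivity) hly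
      _ = 8 * (1 + Real.log (2 * L)) * (1 / ((p:ℝ) * Real.log p)) := by
          field_simp
          ring
  calc ∑ p ∈ s.image Prod.fst, ∑ x ∈ s.filter (fun x => x.1 = p), 1 / ((x.1:ℝ) * x.2)
      ≤ ∑ p ∈ s.image Prod.fst, 8 * (1 + Real.log (2 * L)) * (1 / ((p:ℝ) * Real.log p)) :=
        Finset.sum_le_sum key
    _ = 8 * (1 + Real.log (2 * L)) * ∑ p ∈ s.image Prod.fst, 1 / ((p:ℝ) * Real.log p) := by
        rw [Finset.mul_sum]
    _ ≤ 8 * (1 + Real.log (2 * L)) * (8 / Real.log z) := by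
        apply mul_le_mul_of_nonneg_left _ (by positivity)
        apply sum_inv_log_tail (by linarith)
        intro p hp
        obtain ⟨x, hx, hxp⟩ := Finset.mem_image.mp hp
        rw [← hxp]
        exact ⟨(hs x hx).1, (hs x hx).2.2.2.1⟩
    _ = 64 * (1 + Real.log (2 * L)) / Real.log z := by ring

end Pool.Agent.Lib.P4a7640M
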