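import Mathlib
import Pool.Agent.Lib.P4a7640M.Base

/-!
# Integrals of oscillating functions against piecewise constant functions
-/

open MeasureTheory

namespace Pool.Agent.Lib.P4a7640M

lemma PC.mul {Z Z' : Finset ℝ} {u v : ℝ} {F G : ℝ → ℝ} [DecidableEq ℝ] (hF : PC Z u v F)
    (hG : PC Z' u v G) : PC (Z ∪ Z') u v (fun x => F x * G x) := by
  intro s t hs hst ht h
  show F s * G s = F t * G t
  rw [hF s t hs hst ht fun ζ hζ => h ζ (Finset.mem_union_left _ hζ),
    hG s t hs hst ht fun ζ hζ => h ζ (Finset.mem_union_right _ hζ)]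

lemma pc_base {u v : ℝ} (huv : u ≤ v) {F ψ : ℝ → ℝ} (hF : PC ∅ u v F)
    (hFb : ∀ x, |F x| ≤ 1) {D : ℝ} (hD0 : 0 ≤ D)
    (hD : ∀ s t, u ≤ s → s ≤ t → t ≤ v → |∫ x in s..t, ψ x| ≤ D) :
    |∫ x in u..v, ψ x * F x| ≤ D := by
  have hc : ∀ x, u < x → x < v → F x = F ((u + v) / 2) := by
    intro x hux hxv
    rcases le_total x ((u + v) / 2) with h | h
    · exact hF x _ hux h (by linarith) (by simp)
    · exact (hF _ x (by linarith) h hxv (by simp)).symm
  have h1 : ∫ x in u..v, ψ x * F x = ∫ x in u..v, ψ x * F ((u + v) / 2) := by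
    refine intervalIntegral.integral_congr_ae ?_
    have hv : ∀ᵐ x : ℝ ∂volume, x ≠ v := by
      have := compl_mem_ae_iff.mpr (measure_singleton (μ := (volume : Measure ℝ)) v)
      filter_upwards [this] with x hx using hx
    filter_upwards [hv] with x hxv hx
    rw [Set.uIoc_of_le huv] at hx
    rw [hc x hx.1 (lt_of_le_of_ne hx.2 hxv)]
  rw [h1, intervalIntegral.integral_mul_const, abs_mul]
  calc |∫ x in u..v, ψ x| * |F ((u + v) / 2)| ≤ D * 1 :=
        mul_le_mul (hD u v le_rfl huv le_rfl) (hFb _) (abs_nonneg _) hD0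
    _ = D := mul_one D

lemma pc_integral_aux (n : ℕ) : ∀ (Z : Finset ℝ), Z.card = n → ∀ {u v : ℝ}, u ≤ v →
    ∀ {F ψ : ℝ → ℝ}, PC Z u v F → Measurable F → (∀ x, |F x| ≤ 1) → Measurable ψ →
    ∀ {B : ℝ}, (∀ x, |ψ x| ≤ B) → ∀ {D : ℝ},
    (∀ s t, u ≤ s → s ≤ t → t ≤ v → |∫ x in s..t, ψ x| ≤ D) →
    |∫ x in u..v, ψ x * F x| ≤ (Z.card + 1) * D := by
  induction n using Nat.strong_induction_on with
  | _ n ih =>
    intro Z hZ u v huv F ψ hF hFm hFb hψm B hψb D hD
    have hD0 : 0 ≤ D := (abs_nonneg _).trans (hD u u le_rfl le_rfl huv)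
    rcases Z.eq_empty_or_nonempty with rfl | ⟨ζ, hζ⟩
    · simpa using pc_base huv hF hFb hD0 hD
    by_cases hin : u < ζ ∧ ζ < v
    · set Z1 := Z.filter (· < ζ) with hZ1
      set Z2 := Z.filter (ζ < ·) with hZ2
      have hcard : Z1.card + Z2.card + 1 ≤ Z.card := by
        have hd : Disjoint Z1 Z2 := by
          rw [Finset.disjoint_left]
          intro x hx hx'
          have h1 := (Finset.mem_filter.mp hx).2
          have h2 := (Finset.mem_filter.mp hx').2
          exact absurd h1 (not_lt.mpr h2.le)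
        have hsub : Z1 ∪ Z2 ⊆ Z.erase ζ := by
          intro x hx
          rcases Finset.mem_union.mp hx with h | h
          · have := Finset.mem_filter.mp h
            exact Finset.mem_erase.mpr ⟨this.2.ne, this.1⟩
          · have := Finset.mem_filter.mp h
            exact Finset.mem_erase.mpr ⟨this.2.ne', this.1⟩
        have h3 := Finset.card_le_card hsub
        rw [Finset.card_union_of_disjoint hd, Finset.card_erase_of_mem hζ] at h3
        have h4 : 0 < Z.card := Finset.card_pos.mpr ⟨ζ, hζ⟩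
        omega
      have hP1 : PC Z1 u ζ F := by
        intro s t hs hst ht h
        refine hF s t hs hst (ht.trans hin.2) fun ξ hξ => ?_
        by_cases hlt : ξ < ζ
        · exact h ξ (Finset.mem_filter.mpr ⟨hξ, hlt⟩)
        · exact Or.inr (ht.trans_le (not_lt.mp hlt))
      have hP2 : PC Z2 ζ v F := by
        intro s t hs hst ht h
        refine hF s t (hin.1.trans hs) hst ht fun ξ hξ => ?_
        by_cases hlt : ζ < ξ
        · exact h ξ (Finset.mem_filter.mpr ⟨hξ, hlt⟩)
        · exact Or.inl ((not_lt.mp hlt).trans_lt hs)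
      have hint : ∀ a b : ℝ, IntervalIntegrable (fun x => ψ x * F x) volume a b := by
        intro a b
        rw [intervalIntegrable_iff, Set.uIoc]
        refine Integrable.mono' (integrable_const B) (hψm.mul hFm).aestronglyMeasurable ?_
        refine Filter.Eventually.of_forall fun x => ?_
        rw [Real.norm_eq_abs, abs_mul]
        calc |ψ x| * |F x| ≤ |ψ x| * 1 := mul_le_mul_of_nonneg_left (hFb x) (abs_nonneg _)
          _ ≤ B := by rw [mul_one]; exact hψb x
      have e1 := ih Z1.card (by omega) Z1 rfl hin.1.le hP1 hFm hFb hψm hψb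
        (fun s t hs hst ht => hD s t hs hst (ht.trans hin.2.le))
      have e2 := ih Z2.card (by omega) Z2 rfl hin.2.le hP2 hFm hFb hψm hψb
        (fun s t hs hst ht => hD s t (hin.1.le.trans hs) hst ht)
      rw [← intervalIntegral.integral_add_adjacent_intervals (hint u ζ) (hint ζ v)]
      refine (abs_add_le _ _).trans ((add_le_add e1 e2).trans ?_)
      rw [← add_mul]
      refine mul_le_mul_of_nonneg_right ?_ hD0
      have : ((Z1.card + Z2.card + 1 : ℕ) : ℝ) ≤ (Z.card : ℝ) := by exact_mod_cast hcard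
      push_cast at this
      linarith
    · have hP : PC (Z.erase ζ) u v F := by
        intro s t hs hst ht h
        refine hF s t hs hst ht fun ξ hξ => ?_
        by_cases hne : ξ = ζ
        · subst hne
          by_cases h1 : u < ξ
          · have h2 : v ≤ ξ := not_lt.mp fun h3 => hin ⟨h1, h3⟩
            exact Or.inr (ht.trans_le h2)
          · exact Or.inl ((not_lt.mp h1).trans_lt hs)
        · exact h ξ (Finset.mem_erase.mpr ⟨hne, hξ⟩)
      have h4 : 0 < Z.card := Finset.card_pos.mpr ⟨ζ, hζ⟩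
      have hce : (Z.erase ζ).card = Z.card - 1 := Finset.card_erase_of_mem hζ
      have e := ih (Z.erase ζ).card (by omega) (Z.erase ζ) rfl huv hP hFm hFb hψm hψb hD
      refine e.trans (mul_le_mul_of_nonneg_right ?_ hD0)
      have : ((Z.erase ζ).card : ℝ) ≤ Z.card := by
        exact_mod_cast (by omega : (Z.erase ζ).card ≤ Z.card)
      linarith

/-- Proof: induction on `Z.card` with `u`, `v` general. If `Z = ∅` then `F` is constant on `(u, v)`,
equal to `F ((u+v)/2)` there, so `∫ ψ F = F((u+v)/2) ∫ ψ` (a.e. equality on `Ioo`). Otherwise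
pick `ζ ∈ Z`: if `ζ ∉ (u, v)` then `PC (Z.erase ζ) u v F`; if `ζ ∈ (u, v)` then
`PC (Z.filter (· < ζ)) u ζ F` and `PC (Z.filter (ζ < ·)) ζ v F`; the cards add up to
`Z.card - 1`; split the integral at `ζ`. -/
theorem pc_integral {Z : Finset ℝ} {u v : ℝ} (huv : u ≤ v) {F ψ : ℝ → ℝ} (hF : PC Z u v F)
    (hFm : Measurable F) (hFb : ∀ x, |F x| ≤ 1) (hψm : Measurable ψ) {B : ℝ}
    (hψb : ∀ x, |ψ x| ≤ B) {D : ℝ}
    (hD : ∀ s t, u ≤ s → s ≤ t → t ≤ v → |∫ x in s..t, ψ x| ≤ D) :
    |∫ x in u..v, ψ x * F x| ≤ (Z.card + 1) * D :=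
  pc_integral_aux Z.card Z rfl huv hF hFm hFb hψm hψb hD

end Pool.Agent.Lib.P4a7640M
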