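import Mathlib
import Pool.Agent.Lib.P4a7640M.Osc
import Pool.Agent.Lib.P4a7640M.PCInt
import Pool.Agent.Lib.P4a7640M.PCPhi

/-!
# Peeling off the large primes
-/

open MeasureTheory

namespace Pool.Agent.Lib.P4a7640M

lemma abs_prod_phi (A : Set ℝ) (θ : ℕ → ℝ) (S : Finset ℕ) (α : ℝ) :
    |∏ p ∈ S, phi A (α * θ p)| = 1 := by
  rw [Finset.abs_prod]
  exact Finset.prod_eq_one (fun p _ => abs_phi A _)

lemma measurable_prod_phi {A : Set ℝ} (hA : MeasurableSet A) (θ : ℕ → ℝ) (S : Finset ℕ) :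
    Measurable (fun α : ℝ => ∏ p ∈ S, phi A (α * θ p)) :=
  Finset.measurable_fun_prod S (fun p _ => measurable_phi hA (θ p))

lemma prod_phi_pc {A : Set ℝ} {e : ℕ}
    (he : ∀ θ : ℝ, 0 < θ → ∀ u : ℝ,
      ∃ Z : Finset ℝ, (Z.card : ℝ) ≤ e * (θ + 2) ∧ PC Z u (u + 1) (fun α => phi A (α * θ)))
    (θ : ℕ → ℝ) (u : ℝ) (T : Finset ℕ) (hT : ∀ q ∈ T, 0 < θ q) :
    ∃ Z : Finset ℝ, (Z.card : ℝ) ≤ ∑ q ∈ T, (e : ℝ) * (θ q + 2) ∧
      PC Z u (u + 1) (fun α => ∏ q ∈ T, phi A (α * θ q)) := by
  classical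
  induction T using Finset.induction_on with
  | empty =>
    refine ⟨∅, by simp, ?_⟩
    intro s t _ _ _ _
    simp
  | insert a T ha ih =>
    obtain ⟨Z, hZ1, hZ2⟩ := ih (fun q hq => hT q (Finset.mem_insert_of_mem hq))
    obtain ⟨Z', hZ'1, hZ'2⟩ := he (θ a) (hT a (Finset.mem_insert_self a T)) u
    refine ⟨Z' ∪ Z, ?_, ?_⟩
    · rw [Finset.sum_insert ha]
      have : ((Z' ∪ Z).card : ℝ) ≤ Z'.card + Z.card := by
        exact_mod_cast Finset.card_union_le Z' Z
      linarith
    · have h := hZ'2.mul hZ2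
      have hf : (fun α => ∏ q ∈ insert a T, phi A (α * θ q))
          = fun x => phi A (x * θ a) * ∏ q ∈ T, phi A (x * θ q) := by
        funext α
        rw [Finset.prod_insert ha]
      rw [hf]
      exact h

theorem peel_aux {A : Set ℝ} (hA : FinInt A) {e : ℕ}
    (he : ∀ θ : ℝ, 0 < θ → ∀ u : ℝ,
      ∃ Z : Finset ℝ, (Z.card : ℝ) ≤ e * (θ + 2) ∧ PC Z u (u + 1) (fun α => phi A (α * θ)))
    (θ : ℕ → ℝ) (δ u : ℝ) (hδ : 0 ≤ δ) (n : ℕ) :
    ∀ (S D : Finset ℕ), D.card = n → (∀ p ∈ S, 0 < θ p) → D ⊆ S →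
      (∀ p ∈ D, ∀ q ∈ S, p < q → q ∈ D) → (∀ p ∈ D, 1 ≤ δ * θ p) →
      (∀ p ∈ D, ∀ q ∈ S, q < p → θ q ≤ δ * θ p) →
      |∫ α in u..(u + 1), ∏ p ∈ S, phi A (α * θ p)| ≤
        |cc A| ^ n + n * ((6 * e + 2) * (S.card + 1) * δ) := by
  have hAm := hA.measurableSet
  induction n with
  | zero =>
    intro S D _ _ _ _ _ _
    have h : ‖∫ α in u..(u + 1), ∏ p ∈ S, phi A (α * θ p)‖ ≤ 1 * |u + 1 - u| := by
      apply intervalIntegral.norm_integral_le_of_norm_le_const
      intro α _
      rw [Real.norm_eq_abs, abs_prod_phi]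
    rw [Real.norm_eq_abs] at h
    simpa using h
  | succ n ih =>
    intro S D hcard hpos hDS hup hone hsep
    have hDne : D.Nonempty := by
      rw [← Finset.card_pos, hcard]; omega
    set p := D.max' hDne with hp
    have hpD : p ∈ D := Finset.max'_mem D hDne
    have hpS : p ∈ S := hDS hpD
    have hmax : ∀ q ∈ S, q ≤ p := by
      intro q hq
      by_contra hlt
      push Not at hlt
      exact absurd (Finset.le_max' D q (hup p hpD q hq hlt)) (by rw [← hp]; omega)
    have hθp : 0 < θ p := hpos p hpS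
    -- induction hypothesis
    have hih := ih (S.erase p) (D.erase p)
      (by rw [Finset.card_erase_of_mem hpD, hcard]; rfl)
      (fun q hq => hpos q (Finset.mem_of_mem_erase hq))
      (Finset.erase_subset_erase p hDS)
      (by
        intro p' hp' q hq hlt
        rw [Finset.mem_erase] at hq hp' ⊢
        exact ⟨hq.1, hup p' hp'.2 q hq.2 hlt⟩)
      (fun p' hp' => hone p' (Finset.mem_of_mem_erase hp'))
      (fun p' hp' q hq hlt => hsep p' (Finset.mem_of_mem_erase hp') q
        (Finset.mem_of_mem_erase hq) hlt)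
    set F : ℝ → ℝ := fun α => ∏ q ∈ S.erase p, phi A (α * θ q) with hF
    have hFm : Measurable F := measurable_prod_phi hAm θ _
    have hFb : ∀ x, |F x| ≤ 1 := fun x => (abs_prod_phi A θ _ x).le
    have hψm : Measurable (fun α : ℝ => phi A (α * θ p) - cc A) :=
      (measurable_phi hAm (θ p)).sub measurable_const
    have hψb : ∀ x : ℝ, |phi A (x * θ p) - cc A| ≤ 2 := by
      intro x
      calc |phi A (x * θ p) - cc A| ≤ |phi A (x * θ p)| + |cc A| := abs_sub _ _
        _ ≤ 1 + 1 := add_le_add (abs_phi A _).le (abs_cc_le_one A)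
        _ = 2 := by norm_num
    obtain ⟨Z, hZ1, hZ2⟩ := prod_phi_pc he θ u (S.erase p)
      (fun q hq => hpos q (Finset.mem_of_mem_erase hq))
    have hI1 : |∫ α in u..(u + 1), (phi A (α * θ p) - cc A) * F α| ≤ (Z.card + 1) * (2 / θ p) :=
      pc_integral (by linarith) hZ2 hFm hFb hψm hψb
        (fun s t _ hst _ => phi_int_le hAm hθp hst)
    -- split
    have hint1 : IntervalIntegrable (fun α => (phi A (α * θ p) - cc A) * F α) volume u (u + 1) := by
      apply (intervalIntegrable_const (c := (2:ℝ))).mono_fun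
      · exact (hψm.mul hFm).aestronglyMeasurable
      · refine Filter.Eventually.of_forall (fun x => ?_)
        show ‖(phi A (x * θ p) - cc A) * F x‖ ≤ ‖(2:ℝ)‖
        rw [Real.norm_eq_abs, Real.norm_eq_abs, abs_mul, abs_of_pos (by norm_num : (0:ℝ) < 2)]
        calc |phi A (x * θ p) - cc A| * |F x| ≤ 2 * 1 :=
              mul_le_mul (hψb x) (hFb x) (abs_nonneg _) (by norm_num)
          _ = 2 := by norm_num
    have hint2 : IntervalIntegrable F volume u (u + 1) := by
      apply (intervalIntegrable_const (c := (1:ℝ))).mono_fun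
      · exact hFm.aestronglyMeasurable
      · refine Filter.Eventually.of_forall (fun x => ?_)
        show ‖F x‖ ≤ ‖(1:ℝ)‖
        rw [Real.norm_eq_abs, Real.norm_eq_abs, abs_one]
        exact hFb x
    have hsplit : ∫ α in u..(u + 1), ∏ q ∈ S, phi A (α * θ q)
        = (∫ α in u..(u + 1), (phi A (α * θ p) - cc A) * F α)
          + cc A * ∫ α in u..(u + 1), F α := by
      rw [← intervalIntegral.integral_const_mul, ← intervalIntegral.integral_add hint1
        (hint2.const_mul _)]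
      congr 1
      funext α
      rw [hF, ← Finset.mul_prod_erase S (fun q => phi A (α * θ q)) hpS]
      ring
    -- the size of Z
    have hcardS : ((S.erase p).card : ℝ) + 1 = S.card := by
      have := Finset.card_erase_add_one hpS
      exact_mod_cast this
    have hZ3 : (Z.card : ℝ) ≤ S.card * (e * (δ * θ p + 2)) := by
      refine hZ1.trans ?_
      calc ∑ q ∈ S.erase p, (e : ℝ) * (θ q + 2) ≤ ∑ q ∈ S.erase p, (e : ℝ) * (δ * θ p + 2) := by
            apply Finset.sum_le_sum
            intro q hq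
            rw [Finset.mem_erase] at hq
            have hlt : q < p := lt_of_le_of_ne (hmax q hq.2) hq.1
            have := hsep p hpD q hq.2 hlt
            apply mul_le_mul_of_nonneg_left _ (Nat.cast_nonneg e)
            linarith
        _ = (S.erase p).card * (e * (δ * θ p + 2)) := by
            rw [Finset.sum_const, nsmul_eq_mul]
        _ ≤ S.card * (e * (δ * θ p + 2)) := by
            apply mul_le_mul_of_nonneg_right _ (by positivity)
            linarith
    have hinv : 1 / θ p ≤ δ := by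
      rw [div_le_iff₀ hθp]
      exact hone p hpD
    have hI2 : ((Z.card : ℝ) + 1) * (2 / θ p) ≤ (6 * e + 2) * (S.card + 1) * δ := by
      have h1 : ((Z.card : ℝ) + 1) * (2 / θ p)
          ≤ (S.card * (e * (δ * θ p + 2)) + 1) * (2 / θ p) := by
        apply mul_le_mul_of_nonneg_right _ (by positivity)
        linarith
      have h2 : (S.card * (e * (δ * θ p + 2)) + 1) * (2 / θ p)
          = 2 * S.card * e * δ + (4 * S.card * e + 2) * (1 / θ p) := by
        field_simp
        ring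
      have h3 : (4 * (S.card:ℝ) * e + 2) * (1 / θ p) ≤ (4 * S.card * e + 2) * δ :=
        mul_le_mul_of_nonneg_left hinv (by positivity)
      have h4 : (0:ℝ) ≤ (6 * e + 2 * S.card) * δ := by positivity
      rw [h2] at h1
      nlinarith
    have hcc : |cc A * ∫ α in u..(u + 1), F α|
        ≤ |cc A| ^ (n + 1) + n * ((6 * e + 2) * (S.card + 1) * δ) := by
      rw [abs_mul]
      have h1 := mul_le_mul_of_nonneg_left hih (abs_nonneg (cc A))
      refine h1.trans ?_
      rw [mul_add, ← pow_succ']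
      have h2 : |cc A| * (n * ((6 * e + 2) * (((S.erase p).card:ℝ) + 1) * δ))
          ≤ 1 * (n * ((6 * e + 2) * ((S.card:ℝ) + 1) * δ)) := by
        apply mul_le_mul (abs_cc_le_one A) _ (by positivity) (by norm_num)
        apply mul_le_mul_of_nonneg_left _ (Nat.cast_nonneg n)
        apply mul_le_mul_of_nonneg_right _ hδ
        apply mul_le_mul_of_nonneg_left _ (by positivity)
        linarith
      linarith
    rw [hsplit]
    refine (abs_add_le _ _).trans ?_
    push_cast
    have h5 := hI1.trans hI2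
    linarith

theorem peel {A : Set ℝ} (hA : FinInt A) : ∃ C : ℝ, 0 < C ∧
    ∀ (θ : ℕ → ℝ) (S D : Finset ℕ) (δ u : ℝ), (∀ p ∈ S, 0 < θ p) → D ⊆ S →
      (∀ p ∈ D, ∀ q ∈ S, p < q → q ∈ D) → 0 ≤ δ → (∀ p ∈ D, 1 ≤ δ * θ p) →
      (∀ p ∈ D, ∀ q ∈ S, q < p → θ q ≤ δ * θ p) →
      |∫ α in u..(u + 1), ∏ p ∈ S, phi A (α * θ p)| ≤
        |cc A| ^ D.card + D.card * (C * (S.card + 1) * δ) := by
  obtain ⟨e, he⟩ := pc_phi hA
  refine ⟨6 * e + 2, by positivity, ?_⟩
  intro θ S D δ u hpos hDS hup hδ hone hsep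
  exact peel_aux hA he θ δ u hδ D.card S D rfl hpos hDS hup hone hsep

end Pool.Agent.Lib.P4a7640M
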