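import Mathlib
import Pool.Agent.Lib.P4a7640M.Base
import Pool.Agent.Lib.P4a7640M.Peel

/-!
# The correlation of two good integers over the parameter
-/

open MeasureTheory Finset

namespace Pool.Agent.Lib.P4a7640M

open Pool.Agent.Lib.P4a7640

lemma xs_eq (A : Set ℝ) (P : Set ℕ) (θ : ℕ → ℝ) (α : ℝ) (p : ℕ) (hp : p ∈ P) :
    sg (xs A P θ α p) = phi A (α * θ p) := by
  unfold xs phi
  by_cases h : Int.fract (α * θ p) ∈ A
  · rw [if_pos ⟨hp, h⟩, if_pos h, sg_neg_one]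
  · rw [if_neg (fun h' => h h'.2), if_neg h, sg_one]

lemma xs_eq_one (A : Set ℝ) (P : Set ℕ) (θ : ℕ → ℝ) (α : ℝ) (p : ℕ) (hp : p ∉ P) :
    sg (xs A P θ α p) = 1 := by
  unfold xs
  rw [if_neg (fun h' => hp h'.1), sg_one]

/-- number of prime factors: `2 ^ card ≤ MM H n ≤ (n + hm) ^ H.card` -/
lemma card_oddT_le {H : Finset ℕ} {hm n N : ℕ} (hH : ∀ h ∈ H, h ≤ hm) (hn : 1 ≤ n) (hnN : n ≤ N) :
    ((oddT (MM H n)).card : ℝ) ≤ H.card * Real.log (N + hm) / Real.log 2 := by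
  have hM0 : MM H n ≠ 0 := by
    unfold MM
    rw [Finset.prod_ne_zero_iff]
    intro h _
    omega
  have h1 : 2 ^ (MM H n).primeFactors.card ≤ ∏ p ∈ (MM H n).primeFactors, p := by
    apply Finset.pow_card_le_prod
    intro p hp
    exact (Nat.prime_of_mem_primeFactors hp).two_le
  have h2 : ∏ p ∈ (MM H n).primeFactors, p ≤ MM H n :=
    Nat.le_of_dvd (Nat.pos_of_ne_zero hM0) (Nat.prod_primeFactors_dvd _)
  have h3 : MM H n ≤ (N + hm) ^ H.card := by
    unfold MM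
    apply Finset.prod_le_pow_card
    intro h hh
    have := hH h hh
    omega
  have h4 : (oddT (MM H n)).card ≤ (MM H n).primeFactors.card :=
    Finset.card_le_card (Finset.filter_subset _ _)
  have h5 : 2 ^ (oddT (MM H n)).card ≤ (N + hm) ^ H.card :=
    (Nat.pow_le_pow_right (by norm_num) h4).trans (h1.trans (h2.trans h3))
  have h6 : (2:ℝ) ^ (oddT (MM H n)).card ≤ ((N:ℝ) + hm) ^ H.card := by exact_mod_cast h5
  have h7 := Real.log_le_log (by positivity) h6
  rw [Real.log_pow, Real.log_pow] at h7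
  rw [le_div_iff₀ (Real.log_pos one_lt_two)]
  exact h7

lemma mem_oddT_MM {H : Finset ℕ} {h₀ hm n p : ℕ} (hh₀ : h₀ ∈ H) (hH : ∀ h ∈ H, h ≤ hm)
    (hn : 1 ≤ n) (hpm : hm < p) (h1 : p ∈ oddT (n + h₀)) : p ∈ oddT (MM H n) := by
  have hne : ∀ h ∈ H, n + h ≠ 0 := fun h _ => by omega
  unfold oddT at h1
  rw [Finset.mem_filter] at h1
  have hp : p.Prime := Nat.prime_of_mem_primeFactors h1.1
  have hdvd : p ∣ n + h₀ := Nat.dvd_of_mem_primeFactors h1.1
  have hfac : (MM H n).factorization p = (n + h₀).factorization p := by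
    unfold MM
    rw [Nat.factorization_prod hne, Finsupp.finsetSum_apply, Finset.sum_eq_single h₀]
    · intro h hh hne'
      apply Nat.factorization_eq_zero_of_not_dvd
      intro h3
      have h4 := hH h hh
      have h5 := hH h₀ hh₀
      rcases Nat.lt_or_ge h h₀ with hlt | hge
      · have h6 : p ∣ (n + h₀) - (n + h) := Nat.dvd_sub hdvd h3
        have h7 := Nat.le_of_dvd (by omega) h6
        omega
      · have hlt : h₀ < h := lt_of_le_of_ne hge (Ne.symm hne')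
        have h6 : p ∣ (n + h) - (n + h₀) := Nat.dvd_sub h3 hdvd
        have h7 := Nat.le_of_dvd (by omega) h6
        omega
    · intro h
      exact absurd hh₀ h
  unfold oddT
  rw [Finset.mem_filter, hfac]
  refine ⟨?_, h1.2⟩
  rw [← Nat.support_factorization, Finsupp.mem_support_iff, hfac]
  intro h0
  rw [h0] at h1
  exact (Nat.not_odd_zero h1.2)

lemma prime_of_mem_oddT {M p : ℕ} (h : p ∈ oddT M) : p.Prime := by
  unfold oddT at h
  exact Nat.prime_of_mem_primeFactors (Finset.mem_filter.1 h).1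

lemma exists_dvd_of_mem_oddT {H : Finset ℕ} {n p : ℕ} (h : p ∈ oddT (MM H n)) :
    ∃ h ∈ H, p ∣ n + h := by
  have hp := prime_of_mem_oddT h
  unfold oddT at h
  have hd : p ∣ MM H n := Nat.dvd_of_mem_primeFactors (Finset.mem_filter.1 h).1
  exact (Nat.Prime.prime hp).exists_mem_finset_dvd hd

lemma chiT_mul (S S' : Finset ℕ) (x : SS) :
    chiT S x * chiT S' x = chiT (symmDiff S S') x := by
  unfold chiT
  have h1 : ∏ p ∈ S, sg (x p) = (∏ p ∈ S \ S', sg (x p)) * ∏ p ∈ S ∩ S', sg (x p) := by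
    rw [mul_comm, Finset.prod_inter_mul_prod_sdiff]
  have h2 : ∏ p ∈ S', sg (x p) = (∏ p ∈ S' \ S, sg (x p)) * ∏ p ∈ S ∩ S', sg (x p) := by
    rw [Finset.inter_comm, mul_comm, Finset.prod_inter_mul_prod_sdiff]
  have h3 : ∏ p ∈ symmDiff S S', sg (x p) = (∏ p ∈ S \ S', sg (x p)) * ∏ p ∈ S' \ S, sg (x p) := by
    rw [← Finset.prod_union]
    · rfl
    · exact disjoint_sdiff_sdiff
  have h4 : (∏ p ∈ S ∩ S', sg (x p)) * ∏ p ∈ S ∩ S', sg (x p) = 1 := by
    rw [← Finset.prod_mul_distrib]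
    apply Finset.prod_eq_one
    intro p _
    have := abs_sg (x p)
    rw [← abs_mul_abs_self, this, one_mul]
  rw [h1, h2, h3]
  calc _ = (∏ p ∈ S \ S', sg (x p)) * (∏ p ∈ S' \ S, sg (x p)) *
      ((∏ p ∈ S ∩ S', sg (x p)) * ∏ p ∈ S ∩ S', sg (x p)) := by ring
    _ = _ := by rw [h4, mul_one]

open Classical in
lemma chiT_xs (A : Set ℝ) (P : Set ℕ) (θ : ℕ → ℝ) (α : ℝ) (T : Finset ℕ) :
    chiT T (xs A P θ α) = ∏ p ∈ T.filter (fun p => p ∈ P), phi A (α * θ p) := by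
  unfold chiT
  rw [Finset.prod_filter]
  apply Finset.prod_congr rfl
  intro p _
  split_ifs with h
  · exact xs_eq A P θ α p h
  · exact xs_eq_one A P θ α p h

lemma abs_cc_le (A : Set ℝ) : |cc A| ≤ 1 := by
  have h1 : (volume (A ∩ Set.Ico (0:ℝ) 1)).toReal ≤ 1 := by
    have : volume (A ∩ Set.Ico (0:ℝ) 1) ≤ volume (Set.Ico (0:ℝ) 1) :=
      measure_mono Set.inter_subset_right
    rw [Real.volume_Ico] at this
    have h2 := ENNReal.toReal_mono ENNReal.ofReal_ne_top this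
    simpa using h2
  have h0 : 0 ≤ (volume (A ∩ Set.Ico (0:ℝ) 1)).toReal := ENNReal.toReal_nonneg
  unfold cc
  rw [abs_le]
  constructor <;> linarith

/-- One good pair. -/
theorem good_pair {A : Set ℝ} (hA : FinInt A) : ∃ C : ℝ, 0 < C ∧
    ∀ (P : Set ℕ) (θ : ℕ → ℝ) (z L δ : ℝ), (∀ p : ℕ, p.Prime → p ∈ P → 0 < θ p) → 0 ≤ δ →
      (∀ p : ℕ, p.Prime → p ∈ P → z < p → 1 ≤ δ * θ p) →
      (∀ q p : ℕ, q.Prime → p.Prime → q ∈ P → p ∈ P → z < p → L * q < p → θ q ≤ δ * θ p) →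
      ∀ (H : Finset ℕ) (hm h₀ k N n n' : ℕ), (∀ h ∈ H, h ≤ hm) → (hm:ℝ) ≤ z → h₀ ∈ H →
        1 ≤ n → n ≤ N → 1 ≤ n' → n' ≤ N → Good P z L H h₀ k n n' → ∀ u : ℝ,
        |∫ α in u..(u + 1), chiT (oddT (MM H n)) (xs A P θ α) * chiT (oddT (MM H n')) (xs A P θ α)|
          ≤ |cc A| ^ k +
            C * (2 * (H.card * Real.log (N + hm) / Real.log 2) + 1) ^ 2 * δ := by
  classical
  obtain ⟨C, hC, hpeel⟩ := peel hA
  refine ⟨C, hC, ?_⟩
  intro P θ z L δ hθ hδ hδ1 hδ2 H hm h₀ k N n n' hH hmz hh₀ hn hnN hn' hnN' hG u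
  set S := oddT (MM H n) with hS
  set S' := oddT (MM H n') with hS'
  set T := (symmDiff S S').filter (fun p => p ∈ P) with hT
  set D := T.filter (fun p : ℕ => z < (p:ℝ)) with hD
  have hint : ∀ α : ℝ, chiT S (xs A P θ α) * chiT S' (xs A P θ α) =
      ∏ p ∈ T, phi A (α * θ p) := by
    intro α
    rw [chiT_mul, chiT_xs]
  have hTP : ∀ p ∈ T, p.Prime ∧ p ∈ P ∧ ((∃ h ∈ H, p ∣ n + h) ∨ (∃ h ∈ H, p ∣ n' + h)) := by
    intro p hp
    rw [hT, Finset.mem_filter, Finset.mem_symmDiff] at hp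
    rcases hp.1 with h | h
    · exact ⟨prime_of_mem_oddT h.1, hp.2, Or.inl (exists_dvd_of_mem_oddT h.1)⟩
    · exact ⟨prime_of_mem_oddT h.1, hp.2, Or.inr (exists_dvd_of_mem_oddT h.1)⟩
  have hDT : D ⊆ T := Finset.filter_subset _ _
  have hmain := hpeel θ T D δ u (fun p hp => hθ p (hTP p hp).1 (hTP p hp).2.1) hDT
    (by
      intro p hp q hq hpq
      rw [hD, Finset.mem_filter] at hp ⊢
      refine ⟨hq, lt_trans hp.2 ?_⟩
      exact_mod_cast hpq) hδ
    (by
      intro p hp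
      rw [hD, Finset.mem_filter] at hp
      exact hδ1 p (hTP p hp.1).1 (hTP p hp.1).2.1 hp.2)
    (by
      intro p hp q hq hqp
      rw [hD, Finset.mem_filter] at hp
      obtain ⟨hpp, hpP, hpd⟩ := hTP p hp.1
      obtain ⟨hqq, hqP, hqd⟩ := hTP q hq
      apply hδ2 q p hqq hpp hqP hpP hp.2
      by_contra hcon
      push Not at hcon
      rcases hpd with ⟨h, hh, hph⟩ | ⟨h, hh, hph⟩
      · rcases hqd with ⟨h', hh', hqh⟩ | ⟨h', hh', hqh⟩
        · exact hG.sep1 h hh h' hh' ⟨p, q, hpp, hqq, hqp, hp.2, hcon, hph, hqh⟩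
        · exact hG.sep3 h hh h' hh' ⟨p, q, hpp, hqq, hqp, hp.2, hcon, hph, hqh⟩
      · rcases hqd with ⟨h', hh', hqh⟩ | ⟨h', hh', hqh⟩
        · exact hG.sep4 h hh h' hh' ⟨p, q, hpp, hqq, hqp, hp.2, hcon, hph, hqh⟩
        · exact hG.sep2 h hh h' hh' ⟨p, q, hpp, hqq, hqp, hp.2, hcon, hph, hqh⟩)
  have hkD : k ≤ D.card := by
    obtain ⟨s, hs1, hs2⟩ := hG.many
    refine hs1.trans (Finset.card_le_card ?_)
    intro p hp
    obtain ⟨h1, h2, h3⟩ := hs2 p hp
    have hpm : hm < p := by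
      have : (hm:ℝ) < p := lt_of_le_of_lt hmz h3
      exact_mod_cast this
    have hpS : p ∈ S := mem_oddT_MM hh₀ hH hn hpm h1
    have hpp := prime_of_mem_oddT h1
    have hd : p ∣ n + h₀ := by
      unfold oddT at h1
      exact Nat.dvd_of_mem_primeFactors (Finset.mem_filter.1 h1).1
    have hpS' : p ∉ S' := by
      intro hmem
      obtain ⟨h', hh', hd'⟩ := exists_dvd_of_mem_oddT hmem
      exact hG.common h₀ hh₀ h' hh' p hpp h3 hd hd'
    rw [hD, Finset.mem_filter, hT, Finset.mem_filter, Finset.mem_symmDiff]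
    exact ⟨⟨Or.inl ⟨hpS, hpS'⟩, h2⟩, h3⟩
  set M : ℝ := 2 * (H.card * Real.log (N + hm) / Real.log 2) with hM
  have hTc : (T.card : ℝ) ≤ M := by
    have h1 : T.card ≤ S.card + S'.card := by
      refine (Finset.card_le_card (Finset.filter_subset _ _)).trans ?_
      have : symmDiff S S' ⊆ S ∪ S' := by
        intro p hp
        rw [Finset.mem_symmDiff] at hp
        rw [Finset.mem_union]
        rcases hp with h | h
        · exact Or.inl h.1
        · exact Or.inr h.1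
      exact (Finset.card_le_card this).trans (Finset.card_union_le _ _)
    have h2 : (T.card : ℝ) ≤ S.card + S'.card := by exact_mod_cast h1
    have h3 := card_oddT_le hH hn hnN
    have h4 := card_oddT_le hH hn' hnN'
    rw [← hS] at h3
    rw [← hS'] at h4
    rw [hM]
    linarith
  have hDc : (D.card : ℝ) ≤ M := by
    have : (D.card : ℝ) ≤ T.card := by exact_mod_cast Finset.card_le_card hDT
    linarith
  have h0D : (0:ℝ) ≤ D.card := Nat.cast_nonneg _
  have h0T : (0:ℝ) ≤ T.card := Nat.cast_nonneg _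
  have e1 : |cc A| ^ D.card ≤ |cc A| ^ k :=
    pow_le_pow_of_le_one (abs_nonneg _) (abs_cc_le A) hkD
  have e2 : (D.card : ℝ) * (C * (T.card + 1) * δ) ≤ C * (M + 1) ^ 2 * δ := by
    have : (D.card : ℝ) * (C * (T.card + 1) * δ) = (C * δ) * (D.card * (T.card + 1)) := by ring
    rw [this]
    have h5 : (D.card : ℝ) * (T.card + 1) ≤ (M + 1) * (M + 1) :=
      mul_le_mul (by linarith) (by linarith) (by linarith) (by linarith)
    have h6 : 0 ≤ C * δ := mul_nonneg hC.le hδ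
    calc (C * δ) * (D.card * (T.card + 1)) ≤ (C * δ) * ((M + 1) * (M + 1)) :=
          mul_le_mul_of_nonneg_left h5 h6
      _ = C * (M + 1) ^ 2 * δ := by ring
  have e3 : (∫ α in u..(u + 1), chiT S (xs A P θ α) * chiT S' (xs A P θ α)) =
      ∫ α in u..(u + 1), ∏ p ∈ T, phi A (α * θ p) := by
    apply intervalIntegral.integral_congr
    intro α _
    exact hint α
  rw [e3]
  exact hmain.trans (add_le_add e1 e2)

end Pool.Agent.Lib.P4a7640M
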