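import Mathlib
import Pool.Agent.Lib.P4a7640M.Base
import Pool.Agent.Lib.Sieve4.Main

/-!
# Sieve bound for pairs of almost primes with given cofactors
-/

open Finset

namespace Pool.Agent.Lib.P4a7640M

/-- One residue class. -/
lemma ps_class {l M c : ℕ} (hl : l.Prime) (hM : ¬ l ∣ M) :
    ∃ t₀ < l, ∀ t < l, (l ∣ c + M * t ↔ t = t₀) := by
  have : Fact l.Prime := ⟨hl⟩
  have : NeZero l := ⟨hl.ne_zero⟩
  have hM0 : (M : ZMod l) ≠ 0 := by
    intro h
    exact hM ((ZMod.natCast_eq_zero_iff M l).1 h)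
  refine ⟨((-(c : ZMod l)) * (M : ZMod l)⁻¹).val, ZMod.val_lt _, fun t ht => ?_⟩
  rw [← ZMod.natCast_eq_zero_iff]
  constructor
  · intro h
    push_cast at h
    have h1 : (t : ZMod l) = (-(c : ZMod l)) * (M : ZMod l)⁻¹ := by
      field_simp
      linear_combination h
    rw [← h1, ZMod.val_natCast, Nat.mod_eq_of_lt ht]
  · intro h
    push_cast
    have h1 : (t : ZMod l) = (-(c : ZMod l)) * (M : ZMod l)⁻¹ := by
      rw [h, ZMod.natCast_val, ZMod.cast_id]
    rw [h1]
    field_simp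
    ring

/-- The forbidden residue classes modulo `l`. -/
lemma ps_card {l M n₁ h h' hm : ℕ} (hl : l.Prime) (hM : ¬ l ∣ M) (hne : h ≠ h') (hh : h ≤ hm)
    (hh' : h' ≤ hm) (hml : hm < l) :
    ((range l).filter (fun t => l ∣ n₁ + M * t + h ∨ l ∣ n₁ + M * t + h')).card = 2 := by
  obtain ⟨t₀, ht₀, h0⟩ := ps_class (c := n₁ + h) hl hM
  obtain ⟨t₁, ht₁, h1⟩ := ps_class (c := n₁ + h') hl hM
  have hne2 : t₀ ≠ t₁ := by
    intro heq
    have e0 := (h0 t₀ ht₀).2 rfl
    have e1 := (h1 t₀ ht₀).2 heq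
    have e0' : (l:ℤ) ∣ ((n₁ + h + M * t₀ : ℕ) : ℤ) := by exact_mod_cast e0
    have e1' : (l:ℤ) ∣ ((n₁ + h' + M * t₀ : ℕ) : ℤ) := by exact_mod_cast e1
    have e2 : (l:ℤ) ∣ (h:ℤ) - h' := by
      have := dvd_sub e0' e1'
      push_cast at this
      have h3 : ((n₁:ℤ) + h + M * t₀ - (n₁ + h' + M * t₀)) = (h:ℤ) - h' := by ring
      rwa [h3] at this
    have e3 : (h:ℤ) - h' ≠ 0 := by
      intro h4
      apply hne
      omega
    have e4 := Int.le_of_dvd (abs_pos.2 e3) ((dvd_abs _ _).2 e2)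
    have e5 : |(h:ℤ) - h'| ≤ hm := by
      rw [abs_le]
      constructor <;> omega
    omega
  have hset : (range l).filter (fun t => l ∣ n₁ + M * t + h ∨ l ∣ n₁ + M * t + h') = {t₀, t₁} := by
    ext t
    simp only [mem_filter, mem_range, mem_insert, mem_singleton]
    have r0 : n₁ + M * t + h = n₁ + h + M * t := by ring
    have r1 : n₁ + M * t + h' = n₁ + h' + M * t := by ring
    rw [r0, r1]
    constructor
    · rintro ⟨ht, h2 | h2⟩
      · exact Or.inl ((h0 t ht).1 h2)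
      · exact Or.inr ((h1 t ht).1 h2)
    · rintro (h2 | h2)
      · subst h2
        exact ⟨ht₀, Or.inl ((h0 t ht₀).2 rfl)⟩
      · subst h2
        exact ⟨ht₁, Or.inr ((h1 t ht₁).2 rfl)⟩
  rw [hset]
  exact Finset.card_pair hne2

open Classical in
/-- Proof. If the set is empty this is clear (`1 - 2/l ≥ 0` for `l > w ≥ 2`). Otherwise let `n₁` be its
smallest element. `b ∣ n + h` and `a ∣ n + h'` for all `n` in the set; so `gcd a b` divides the
difference of `h` and `h'`, hence `gcd a b ≤ hm`, and every `n` in the set is `n₁ + M t` with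
`M = lcm a b ≥ a b / hm` and `t < T = X / M + 1 ≤ X hm/(a b) + 1`. For a prime `l ∈ (w, z]`,
`l ∤ a b`, we have `l ∤ n + h = p b` and `l ∤ n + h' = q a` since `p, q > z ≥ l` are primes, so `t`
avoids the two (distinct since `0 < |h - h'| ≤ hm < w < l`) residue classes
`Ω l = (range l).filter (fun t => l ∣ n₁ + M t + h ∨ l ∣ n₁ + M t + h')`, which has exactly two
elements (`M` is invertible modulo `l`). Apply `Sieve4.upper_sieve` with `r = 2`, `N = T`:
`(6 r + 1) (2 r + 4) = 104`. -/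
theorem pair_sieve {hm h h' : ℕ} (hne : h ≠ h') (hh : h ≤ hm) (hh' : h' ≤ hm) (a b X w z : ℕ)
    (ha : 0 < a) (hb : 0 < b) (hw : hm < w) (hw2 : 2 ≤ w) (hz : 2 ≤ z) :
    (((Finset.Ioc X (2 * X)).filter (fun n => ∃ p q : ℕ, p.Prime ∧ q.Prime ∧ z < p ∧ z < q ∧
      n + h = p * b ∧ n + h' = q * a)).card : ℝ) ≤
      2 * ((X:ℝ) * hm / (a * b) + 1) * ∏ l ∈ PP w z (a * b), (1 - 2 / (l:ℝ)) + (z:ℝ) ^ 104 := by
  have hPP : ∀ l ∈ PP w z (a * b), w < l ∧ l ≤ z ∧ l.Prime ∧ ¬ l ∣ a * b := by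
    intro l hl
    rw [PP, mem_filter, Finset.mem_Ioc] at hl
    exact ⟨hl.1.1, hl.1.2, hl.2.1, hl.2.2⟩
  have hprod : 0 ≤ ∏ l ∈ PP w z (a * b), (1 - 2 / (l:ℝ)) := by
    apply Finset.prod_nonneg
    intro l hl
    have h1 := (hPP l hl).1
    have h2 : (2:ℝ) ≤ l := by exact_mod_cast (by omega : 2 ≤ l)
    rw [sub_nonneg, div_le_one (by linarith)]
    exact h2
  set S := (Finset.Ioc X (2 * X)).filter (fun n => ∃ p q : ℕ, p.Prime ∧ q.Prime ∧ z < p ∧ z < q ∧
      n + h = p * b ∧ n + h' = q * a) with hS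
  rcases S.eq_empty_or_nonempty with hSe | hSn
  · rw [hSe, card_empty, Nat.cast_zero]
    positivity
  set n₁ := S.min' hSn with hn₁
  have hn₁S : n₁ ∈ S := S.min'_mem hSn
  have hmin : ∀ n ∈ S, n₁ ≤ n := fun n hn => S.min'_le n hn
  have hSp : ∀ n ∈ S, X < n ∧ n ≤ 2 * X ∧ ∃ p q : ℕ, p.Prime ∧ q.Prime ∧ z < p ∧ z < q ∧
      n + h = p * b ∧ n + h' = q * a := by
    intro n hn
    rw [hS, mem_filter, Finset.mem_Ioc] at hn
    exact ⟨hn.1.1, hn.1.2, hn.2⟩
  have hdb : ∀ n ∈ S, b ∣ n + h := by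
    intro n hn
    obtain ⟨_, _, p, q, _, _, _, _, e1, _⟩ := hSp n hn
    exact ⟨p, by rw [e1]; ring⟩
  have hda : ∀ n ∈ S, a ∣ n + h' := by
    intro n hn
    obtain ⟨_, _, p, q, _, _, _, _, _, e2⟩ := hSp n hn
    exact ⟨q, by rw [e2]; ring⟩
  have hdiff : ∀ n ∈ S, Nat.lcm a b ∣ n - n₁ := by
    intro n hn
    apply Nat.lcm_dvd
    · have := Nat.dvd_sub (hda n hn) (hda n₁ hn₁S)
      rwa [Nat.add_sub_add_right] at this
    · have := Nat.dvd_sub (hdb n hn) (hdb n₁ hn₁S)
      rwa [Nat.add_sub_add_right] at this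
  set M := Nat.lcm a b with hM
  have hMpos : 0 < M := Nat.lcm_pos ha hb
  have hmpos : 0 < hm := by
    rcases Nat.eq_zero_or_pos hm with h0 | h0
    · exfalso; apply hne; omega
    · exact h0
  -- gcd bound
  have hgcd : Nat.gcd a b ≤ hm := by
    have g1 : Nat.gcd a b ∣ n₁ + h := (Nat.gcd_dvd_right a b).trans (hdb n₁ hn₁S)
    have g2 : Nat.gcd a b ∣ n₁ + h' := (Nat.gcd_dvd_left a b).trans (hda n₁ hn₁S)
    rcases lt_or_gt_of_ne hne with hlt | hgt
    · have := Nat.dvd_sub g2 g1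
      rw [Nat.add_sub_add_left] at this
      exact (Nat.le_of_dvd (by omega) this).trans (by omega)
    · have := Nat.dvd_sub g1 g2
      rw [Nat.add_sub_add_left] at this
      exact (Nat.le_of_dvd (by omega) this).trans (by omega)
  have hMlow : (a * b : ℕ) ≤ hm * M := by
    rw [hM, ← Nat.gcd_mul_lcm a b]
    exact Nat.mul_le_mul_right _ hgcd
  set T := X / M + 1 with hT
  have hTle : (T:ℝ) ≤ (X:ℝ) * hm / (a * b) + 1 := by
    rw [hT]
    push_cast
    have h1 : ((X / M : ℕ) : ℝ) ≤ (X:ℝ) / M := Nat.cast_div_le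
    have h2 : (X:ℝ) / M ≤ (X:ℝ) * hm / (a * b) := by
      have hMp : (0:ℝ) < M := by exact_mod_cast hMpos
      have hap : (0:ℝ) < a := by exact_mod_cast ha
      have hbp : (0:ℝ) < b := by exact_mod_cast hb
      rw [div_le_div_iff₀ hMp (by positivity)]
      have h3 : (a:ℝ) * b ≤ hm * M := by exact_mod_cast hMlow
      have h4 : (0:ℝ) ≤ X := Nat.cast_nonneg _
      nlinarith
    linarith
  set Ω : ℕ → Finset ℕ := fun l =>
    (range l).filter (fun t => l ∣ n₁ + M * t + h ∨ l ∣ n₁ + M * t + h') with hΩ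
  have hlM : ∀ l ∈ PP w z (a * b), ¬ l ∣ M := by
    intro l hl hd
    exact (hPP l hl).2.2.2 (hd.trans (Nat.lcm_dvd (dvd_mul_right a b) (dvd_mul_left b a)))
  have hcard : ∀ l ∈ PP w z (a * b), (Ω l).card = 2 := by
    intro l hl
    exact ps_card (hPP l hl).2.2.1 (hlM l hl) hne hh hh' (hw.trans (hPP l hl).1)
  have hsieve := Sieve4.upper_sieve (PP w z (a * b)) z hz (fun p hp => (hPP p hp).2.2.1)
    (fun p hp => (hPP p hp).2.1) Ω (fun p hp => Finset.filter_subset _ _)
    (fun p hp => by rw [hcard p hp]; have := (hPP p hp).1; omega) 2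
    (fun p hp => by rw [hcard p hp]) T
  have hprodeq : ∏ p ∈ PP w z (a * b), (1 - ((Ω p).card : ℝ) / p) =
      ∏ l ∈ PP w z (a * b), (1 - 2 / (l:ℝ)) := by
    apply Finset.prod_congr rfl
    intro p hp
    rw [hcard p hp]
    norm_num
  rw [hprodeq] at hsieve
  have hinj : S.card ≤ ((range T).filter (fun n => ∀ p ∈ PP w z (a * b), n % p ∉ Ω p)).card := by
    apply Finset.card_le_card_of_injOn (fun n => (n - n₁) / M)
    · intro n hn
      have hn' : n ∈ S := hn
      obtain ⟨hX, h2X, p, q, hp, hq, hzp, hzq, e1, e2⟩ := hSp n hn'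
      have hX1 := (hSp n₁ hn₁S).1
      have hle := hmin n hn'
      obtain ⟨t, ht⟩ := hdiff n hn'
      have hnt : n = n₁ + M * t := by omega
      have htdiv : (n - n₁) / M = t := by
        rw [ht]; exact Nat.mul_div_cancel_left t hMpos
      simp only [coe_filter, Set.mem_ofPred_eq, mem_range]
      rw [htdiv]
      constructor
      · rw [hT, ← htdiv]
        have : n - n₁ ≤ X := by omega
        exact Nat.lt_succ_of_le (Nat.div_le_div_right this)
      · intro l hl hmem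
        rw [hΩ] at hmem
        simp only [mem_filter, mem_range] at hmem
        obtain ⟨hwl, hlz, hlp, hlab⟩ := hPP l hl
        have key : ∀ c : ℕ, l ∣ n₁ + M * (t % l) + c → l ∣ n + c := by
          intro c hc
          have e3 : n + c = n₁ + M * (t % l) + c + l * (M * (t / l)) := by
            rw [hnt]
            conv_lhs => rw [← Nat.mod_add_div t l]
            ring
          rw [e3]
          exact dvd_add hc (dvd_mul_right _ _)
        rcases hmem.2 with h3 | h3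
        · have h4 := key h h3
          rw [e1, hlp.dvd_mul] at h4
          rcases h4 with h5 | h5
          · rw [Nat.prime_dvd_prime_iff_eq hlp hp] at h5
            omega
          · exact hlab (h5.trans (dvd_mul_left b a))
        · have h4 := key h' h3
          rw [e2, hlp.dvd_mul] at h4
          rcases h4 with h5 | h5
          · rw [Nat.prime_dvd_prime_iff_eq hlp hq] at h5
            omega
          · exact hlab (h5.trans (dvd_mul_right a b))
    · intro n hn n' hn' heq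
      have h1 := hmin n hn
      have h2 := hmin n' hn'
      have h3 := Nat.div_mul_cancel (hdiff n hn)
      have h4 := Nat.div_mul_cancel (hdiff n' hn')
      simp only at heq
      rw [heq, h4] at h3
      omega
  have hfin : (S.card : ℝ) ≤ 2 * T * (∏ l ∈ PP w z (a * b), (1 - 2 / (l:ℝ))) +
      (z:ℝ) ^ ((6 * 2 + 1) * (2 * 2 + 4)) := by
    refine le_trans ?_ hsieve
    exact_mod_cast hinj
  norm_num at hfin
  refine hfin.trans ?_
  have h5 : 2 * (T:ℝ) * (∏ l ∈ PP w z (a * b), (1 - 2 / (l:ℝ))) ≤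
      2 * ((X:ℝ) * hm / (a * b) + 1) * ∏ l ∈ PP w z (a * b), (1 - 2 / (l:ℝ)) := by
    apply mul_le_mul_of_nonneg_right _ hprod
    linarith
  linarith

end Pool.Agent.Lib.P4a7640M
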