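import Mathlib
import Pool.Agent.Lib.P4a7640M.Base
import Pool.Agent.Lib.P4a7640.Mertens
import Pool.Agent.Lib.Sieve4.Mertens

/-!
# The sieve product
-/

open Finset

namespace Pool.Agent.Lib.P4a7640M

lemma sp_exp {x : ℝ} (hx0 : 0 ≤ x) (hx : x ≤ 1 / 2) : Real.exp (-(x + x ^ 2)) ≤ 1 - x := by
  have h1 := Real.quadratic_le_exp_of_nonneg (show 0 ≤ x + x ^ 2 by positivity)
  have h2 : 1 ≤ Real.exp (x + x ^ 2) * (1 - x) := by
    have h3 : (1 + (x + x ^ 2) + (x + x ^ 2) ^ 2 / 2) * (1 - x) ≤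
        Real.exp (x + x ^ 2) * (1 - x) := by
      apply mul_le_mul_of_nonneg_right h1
      linarith
    have h4 : (1 + (x + x ^ 2) + (x + x ^ 2) ^ 2 / 2) * (1 - x) =
        1 + x ^ 2 * (1 - x - x ^ 2 - x ^ 3) / 2 := by ring
    have h5 : x ^ 2 ≤ 1 / 4 := by nlinarith
    have h6 : x ^ 3 ≤ 1 / 8 := by nlinarith [mul_nonneg hx0 hx0]
    have h7 : 0 ≤ x ^ 2 * (1 - x - x ^ 2 - x ^ 3) / 2 := by
      apply div_nonneg _ (by norm_num)
      apply mul_nonneg (by positivity)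
      linarith
    linarith
  rw [Real.exp_neg]
  have h8 := Real.exp_pos (x + x ^ 2)
  rw [inv_le_iff_one_le_mul₀ h8]
  linarith

lemma sp_sq (n : ℕ) (hn : 1 ≤ n) : ∑ k ∈ Finset.Icc 2 n, 1 / (k:ℝ) ^ 2 ≤ 1 - 1 / (n:ℝ) := by
  induction n, hn using Nat.le_induction with
  | base => norm_num
  | succ n hn ih =>
    rw [Finset.sum_Icc_succ_top (by omega)]
    have hn0 : (0:ℝ) < n := by exact_mod_cast hn
    have h1 : 1 / ((n + 1 : ℕ) : ℝ) ^ 2 ≤ 1 / n - 1 / ((n + 1 : ℕ) : ℝ) := by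
      push_cast
      rw [div_sub_div _ _ (by positivity) (by positivity), div_le_div_iff₀ (by positivity)
        (by positivity)]
      nlinarith
    linarith

lemma sp_small (w : ℕ) (hw : 3 ≤ w) :
    Real.exp (-7) / Real.log w ≤ ∏ p ∈ Nat.primesLE w, (1 - 1 / (p:ℝ)) := by
  have hw' : (3:ℝ) ≤ w := by exact_mod_cast hw
  have hl : 0 < Real.log w := Real.log_pos (by linarith)
  have hp2 : ∀ p ∈ Nat.primesLE w, (2:ℝ) ≤ p := fun p hp => by
    exact_mod_cast Nat.two_le_of_mem_primesLE hp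
  have h1 : ∏ p ∈ Nat.primesLE w, Real.exp (-(1 / (p:ℝ) + (1 / (p:ℝ)) ^ 2)) ≤
      ∏ p ∈ Nat.primesLE w, (1 - 1 / (p:ℝ)) := by
    apply Finset.prod_le_prod
    · intro p hp; exact (Real.exp_pos _).le
    · intro p hp
      have := hp2 p hp
      apply sp_exp (by positivity)
      rw [div_le_div_iff₀ (by linarith) (by norm_num)]
      linarith
  refine le_trans ?_ h1
  rw [← Real.exp_sum]
  have h2 : ∑ p ∈ Nat.primesLE w, -(1 / (p:ℝ) + (1 / (p:ℝ)) ^ 2) =
      -(∑ p ∈ Nat.primesLE w, 1 / (p:ℝ) + ∑ p ∈ Nat.primesLE w, 1 / (p:ℝ) ^ 2) := by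
    rw [← Finset.sum_add_distrib, ← Finset.sum_neg_distrib]
    apply Finset.sum_congr rfl
    intro p _
    rw [div_pow, one_pow]
  rw [h2]
  have h3 := P4a7640.sum_inv_primes_le w hw
  have h4 : ∑ p ∈ Nat.primesLE w, 1 / (p:ℝ) ^ 2 ≤ 1 := by
    calc ∑ p ∈ Nat.primesLE w, 1 / (p:ℝ) ^ 2 ≤ ∑ k ∈ Finset.Icc 2 w, 1 / (k:ℝ) ^ 2 := by
          apply Finset.sum_le_sum_of_subset_of_nonneg
          · intro p hp
            rw [Finset.mem_Icc]
            exact ⟨Nat.two_le_of_mem_primesLE hp, (Nat.mem_primesLE.1 hp).1⟩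
          · intro p _ _
            positivity
      _ ≤ 1 - 1 / (w:ℝ) := sp_sq w (by omega)
      _ ≤ 1 := by
          have : (0:ℝ) ≤ 1 / (w:ℝ) := by positivity
          linarith
  have h5 : Real.exp (-7) / Real.log w = Real.exp (-(Real.log (Real.log w) + 7)) := by
    rw [neg_add, Real.exp_add, Real.exp_neg (Real.log (Real.log w)), Real.exp_log hl]
    field_simp
  rw [h5]
  apply Real.exp_le_exp.2
  linarith

lemma sp_div (w m : ℕ) (hw : 3 ≤ w) (hm : 0 < m) (hlog : Real.log m ≤ w) (D : Finset ℕ)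
    (hD : ∀ l ∈ D, l.Prime ∧ w < l ∧ l ∣ m) :
    Real.exp (-2) ≤ ∏ l ∈ D, (1 - 1 / (l:ℝ)) := by
  have hw' : (3:ℝ) ≤ w := by exact_mod_cast hw
  have hl1 : 1 ≤ Real.log w := by
    rw [Real.le_log_iff_exp_le (by linarith)]
    have := Real.exp_one_lt_d9
    linarith
  -- cardinality of D
  have hcard : (D.card : ℝ) ≤ w := by
    have h1 : ∏ l ∈ D, l ∣ m := by
      apply Finset.prod_primes_dvd
      · intro l hl; exact (hD l hl).1.prime
      · intro l hl; exact (hD l hl).2.2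
    have h2 : w ^ D.card ≤ m := by
      calc w ^ D.card ≤ ∏ l ∈ D, l := by
            apply Finset.pow_card_le_prod
            intro l hl
            exact (hD l hl).2.1.le
        _ ≤ m := Nat.le_of_dvd hm h1
    have h3 : Real.log ((w:ℝ) ^ D.card) ≤ Real.log m := by
      apply Real.log_le_log (by positivity)
      exact_mod_cast h2
    rw [Real.log_pow] at h3
    have h4 : (D.card : ℝ) * 1 ≤ D.card * Real.log w := by
      apply mul_le_mul_of_nonneg_left hl1 (Nat.cast_nonneg _)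
    linarith
  have h1 : ∏ l ∈ D, Real.exp (-(2 / (w:ℝ))) ≤ ∏ l ∈ D, (1 - 1 / (l:ℝ)) := by
    apply Finset.prod_le_prod
    · intro p hp; exact (Real.exp_pos _).le
    · intro l hl
      have hlw : (w:ℝ) < l := by exact_mod_cast (hD l hl).2.1
      have h5 : 1 / (l:ℝ) ≤ 1 / w := one_div_le_one_div_of_le (by linarith) hlw.le
      have h6 : 1 / (w:ℝ) ≤ 1 / 2 := one_div_le_one_div_of_le (by norm_num) (by linarith)
      have h7 : (0:ℝ) ≤ 1 / w := by positivity
      have h8 := sp_exp h7 h6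
      have h9 : Real.exp (-(2 / (w:ℝ))) ≤ Real.exp (-(1 / (w:ℝ) + (1 / (w:ℝ)) ^ 2)) := by
        apply Real.exp_le_exp.2
        have e1 : (2:ℝ) / w = 2 * (1 / w) := by ring
        rw [e1]
        nlinarith
      linarith
  refine le_trans ?_ h1
  rw [Finset.prod_const, ← Real.exp_nat_mul]
  apply Real.exp_le_exp.2
  have h10 : (D.card : ℝ) * (2 / w) ≤ 2 := by
    rw [mul_div_assoc', div_le_iff₀ (by linarith)]
    linarith
  linarith

/-- Proof. `1 - 2/l ≤ (1 - 1/l)^2`. The product of `1 - 1/l` over `l ∈ (w, z]`, `l ∤ m` equals the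
product over primes `l ≤ z` (at most `1/log (z+1)` by `Sieve4.prod_one_sub_inv_le`) times the
product of `(1 - 1/l)⁻¹` over primes `l ≤ w` (at most `exp (∑ (1/l + 1/l^2)) ≤ exp 8 * log w` by
`P4a7640.sum_inv_primes_le`) times the product of `(1 - 1/l)⁻¹ ≤ exp (2/l) ≤ exp (2/w)` over
`l ∈ (w, z]`, `l ∣ m`; there are at most `log m / log 2 ≤ w / log 2` such `l`. -/
theorem sieve_prod (w z m : ℕ) (hw : 3 ≤ w) (hwz : w ≤ z) (hm : 0 < m)
    (hlog : Real.log m ≤ w) :
    ∏ l ∈ PP w z m, (1 - 2 / (l:ℝ)) ≤ Real.exp 30 * (Real.log w / Real.log z) ^ 2 := by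
  have hw' : (3:ℝ) ≤ w := by exact_mod_cast hw
  have hz' : (3:ℝ) ≤ z := by exact_mod_cast hw.trans hwz
  have hlw : 0 < Real.log w := Real.log_pos (by linarith)
  have hlz : 0 < Real.log z := Real.log_pos (by linarith)
  set A := ∏ l ∈ PP w z m, (1 - 1 / (l:ℝ)) with hA
  set D := (Finset.Ioc w z).filter (fun l => l.Prime ∧ l ∣ m) with hD
  have hPP : ∀ l ∈ PP w z m, w < l ∧ l ≤ z ∧ l.Prime ∧ ¬ l ∣ m := by
    intro l hl
    rw [PP, mem_filter, Finset.mem_Ioc] at hl
    exact ⟨hl.1.1, hl.1.2, hl.2.1, hl.2.2⟩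
  have hA0 : 0 ≤ A := by
    apply Finset.prod_nonneg
    intro l hl
    have h1 : (w:ℝ) < l := by exact_mod_cast (hPP l hl).1
    rw [sub_nonneg, div_le_one (by linarith)]
    linarith
  have h1 : ∏ l ∈ PP w z m, (1 - 2 / (l:ℝ)) ≤ A ^ 2 := by
    rw [hA, ← Finset.prod_pow]
    apply Finset.prod_le_prod
    · intro l hl
      have h1 : (w:ℝ) < l := by exact_mod_cast (hPP l hl).1
      rw [sub_nonneg, div_le_one (by linarith)]
      linarith
    · intro l hl
      have h2 : (0:ℝ) ≤ (1 / l) ^ 2 := by positivity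
      have h3 : (1 - 1 / (l:ℝ)) ^ 2 = 1 - 2 / l + (1 / l) ^ 2 := by ring
      linarith
  have hsplit : ∏ p ∈ Nat.primesLE z, (1 - 1 / (p:ℝ)) =
      (∏ p ∈ Nat.primesLE w, (1 - 1 / (p:ℝ))) * (A * ∏ l ∈ D, (1 - 1 / (l:ℝ))) := by
    have hd1 : Disjoint (PP w z m) D := by
      rw [Finset.disjoint_left]
      intro l hl hl'
      rw [hD, mem_filter] at hl'
      exact (hPP l hl).2.2.2 hl'.2.2
    have hd2 : Disjoint (Nat.primesLE w) (PP w z m ∪ D) := by
      rw [Finset.disjoint_left]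
      intro l hl hl'
      have h2 := (Nat.mem_primesLE.1 hl).1
      rw [mem_union] at hl'
      rcases hl' with h3 | h3
      · have := (hPP l h3).1; omega
      · rw [hD, mem_filter, Finset.mem_Ioc] at h3; omega
    rw [hA, ← Finset.prod_union hd1, ← Finset.prod_union hd2]
    apply Finset.prod_congr _ (fun _ _ => rfl)
    ext l
    rw [mem_union, mem_union, Nat.mem_primesLE, Nat.mem_primesLE, PP, hD, mem_filter, mem_filter,
      Finset.mem_Ioc]
    constructor
    · rintro ⟨h2, h3⟩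
      by_cases h4 : l ≤ w
      · exact Or.inl ⟨h4, h3⟩
      · by_cases h5 : l ∣ m
        · exact Or.inr (Or.inr ⟨⟨by omega, h2⟩, h3, h5⟩)
        · exact Or.inr (Or.inl ⟨⟨by omega, h2⟩, h3, h5⟩)
    · rintro (⟨h2, h3⟩ | ⟨h2, h3, _⟩ | ⟨h2, h3, _⟩)
      · exact ⟨by omega, h3⟩
      · exact ⟨h2.2, h3⟩
      · exact ⟨h2.2, h3⟩
  have hz1 := Sieve4.prod_one_sub_inv_le z (by omega)
  have hz2 : 1 / Real.log ((z:ℝ) + 1) ≤ 1 / Real.log z := by
    apply one_div_le_one_div_of_le hlz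
    apply Real.log_le_log (by linarith) (by linarith)
  have hsm := sp_small w hw
  have hdv := sp_div w m hw hm hlog D (by
    intro l hl
    rw [hD, mem_filter, Finset.mem_Ioc] at hl
    exact ⟨hl.2.1, hl.1.1, hl.2.2⟩)
  have hlow : Real.exp (-7) / Real.log w * (A * Real.exp (-2)) ≤ 1 / Real.log z := by
    calc Real.exp (-7) / Real.log w * (A * Real.exp (-2))
        ≤ (∏ p ∈ Nat.primesLE w, (1 - 1 / (p:ℝ))) * (A * ∏ l ∈ D, (1 - 1 / (l:ℝ))) := by
          apply mul_le_mul hsm (mul_le_mul_of_nonneg_left hdv hA0) (by positivity)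
          exact le_trans (by positivity) hsm
      _ = ∏ p ∈ Nat.primesLE z, (1 - 1 / (p:ℝ)) := hsplit.symm
      _ ≤ _ := hz1.trans hz2
  have hAle : A ≤ Real.exp 9 * (Real.log w / Real.log z) := by
    have e1 : Real.exp (-7) / Real.log w * (A * Real.exp (-2)) =
        A * (Real.exp (-9) / Real.log w) := by
      have : Real.exp (-9) = Real.exp (-7) * Real.exp (-2) := by
        rw [← Real.exp_add]; norm_num
      rw [this]
      ring
    rw [e1] at hlow
    have e2 : A = A * (Real.exp (-9) / Real.log w) * (Real.exp 9 * Real.log w) := by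
      have : Real.exp (-9) * Real.exp 9 = 1 := by
        rw [← Real.exp_add]; norm_num
      calc A = A * (Real.exp (-9) * Real.exp 9) := by rw [this, mul_one]
        _ = _ := by field_simp
    rw [e2]
    calc A * (Real.exp (-9) / Real.log w) * (Real.exp 9 * Real.log w)
        ≤ 1 / Real.log z * (Real.exp 9 * Real.log w) := by
          apply mul_le_mul_of_nonneg_right hlow (by positivity)
      _ = _ := by ring
  calc ∏ l ∈ PP w z m, (1 - 2 / (l:ℝ)) ≤ A ^ 2 := h1
    _ ≤ (Real.exp 9 * (Real.log w / Real.log z)) ^ 2 := by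
        apply pow_le_pow_left₀ hA0 hAle
    _ = Real.exp 18 * (Real.log w / Real.log z) ^ 2 := by
        rw [mul_pow, ← Real.exp_nat_mul]; norm_num
    _ ≤ Real.exp 30 * (Real.log w / Real.log z) ^ 2 := by
        apply mul_le_mul_of_nonneg_right _ (by positivity)
        apply Real.exp_le_exp.2
        norm_num

end Pool.Agent.Lib.P4a7640M
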