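import Mathlib
import Pool.Agent.Lib.P4a7640M.Base
import Pool.Agent.Lib.P4a7640M.PairSieve
import Pool.Agent.Lib.P4a7640M.SieveProd

/-!
# The dyadic count for large primes
-/

open Finset

namespace Pool.Agent.Lib.P4a7640M

lemma dl_harm_Icc (n : ℕ) : ∑ i ∈ Finset.Icc 1 n, ((i:ℝ))⁻¹ ≤ 1 + Real.log n := by
  have h := harmonic_le_one_add_log n
  rw [harmonic_eq_sum_Icc] at h
  push_cast at h
  exact h

lemma dl_harm_Ioc {m n : ℕ} (hmn : m ≤ n) :
    ∑ i ∈ Finset.Ioc m n, ((i:ℝ))⁻¹ ≤ 1 + Real.log n - Real.log (m + 1) := by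
  have h1 := dl_harm_Icc n
  have h2 := log_add_one_le_harmonic m
  rw [harmonic_eq_sum_Icc] at h2
  push_cast at h2
  have h3 : ∑ i ∈ Finset.Icc 1 n, ((i:ℝ))⁻¹ = ∑ i ∈ Finset.Icc 1 m, ((i:ℝ))⁻¹ +
      ∑ i ∈ Finset.Ioc m n, ((i:ℝ))⁻¹ := by
    rw [← Finset.sum_union]
    · congr 1
      ext i
      simp only [Finset.mem_Icc, Finset.mem_union, Finset.mem_Ioc]
      omega
    · rw [Finset.disjoint_left]
      intro i hi hj
      rw [Finset.mem_Icc] at hi
      rw [Finset.mem_Ioc] at hj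
      omega
  linarith

lemma dl_inner {L : ℝ} (hL : 1 ≤ L) {b : ℕ} (hb : 1 ≤ b) :
    ∑ a ∈ Finset.Ioc (b / 2) ⌊2 * L * b⌋₊, ((a:ℝ))⁻¹ ≤ 3 + Real.log (4 * L) := by
  have hb' : (1:ℝ) ≤ b := by exact_mod_cast hb
  have hpos : (0:ℝ) ≤ 2 * L * b := by positivity
  have hmn : b / 2 ≤ ⌊2 * L * b⌋₊ := by
    refine Nat.le_floor ?_
    have h1 : ((b / 2 : ℕ) : ℝ) ≤ b := by exact_mod_cast Nat.div_le_self b 2
    nlinarith
  have h1 := dl_harm_Ioc hmn
  have h2 : (1:ℝ) ≤ (⌊2 * L * b⌋₊ : ℝ) := by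
    have : 1 ≤ ⌊2 * L * b⌋₊ := Nat.le_floor (by push_cast; nlinarith)
    exact_mod_cast this
  have h3 : Real.log (⌊2 * L * b⌋₊ : ℝ) ≤ Real.log (2 * L * b) :=
    Real.log_le_log (by linarith) (Nat.floor_le hpos)
  have h4 : Real.log ((b:ℝ) / 2) ≤ Real.log (((b / 2 : ℕ) : ℝ) + 1) := by
    refine Real.log_le_log (by linarith) ?_
    have : b ≤ 2 * (b / 2) + 1 := by omega
    have : (b:ℝ) ≤ 2 * ((b / 2 : ℕ) : ℝ) + 1 := by exact_mod_cast this
    linarith
  have h5 : Real.log (2 * L * b) - Real.log ((b:ℝ) / 2) = Real.log (4 * L) := by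
    rw [← Real.log_div (by positivity) (by positivity)]
    congr 1
    field_simp
    ring
  linarith

open Classical in
/-- Proof. If `n` is in the set, put `b = (n + h)/p`, `a = (n + h')/q`. As `X < n ≤ 2X` and
`hm ≤ X`, `p b = n + h ≤ 3 X` gives `b < 3 √X / Y`; as `q < p ≤ L q` and
`(n + h)/2 ≤ n + h' ≤ 2 (n + h)`, `b/2 < a ≤ 2 L b`. Also `p > √X Y ≥ z` and
`q ≥ p/L > √X Y/L ≥ √X ≥ z`. So the count is at most the sum over such `(a, b)` of the count in
`pair_sieve`. Since `a b ≤ 2 L b^2 ≤ 18 L X/Y^2 ≤ X/Y`, `T := X hm/(a b) ≥ Y ≥ 1` (note `hm ≥ 1`), so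
`2 (T + 1) ≤ 4 T`, `z^104 ≤ √Y ≤ T/√Y`, and `log (a b) ≤ log X ≤ w` allows `sieve_prod`. Finally
`∑_b ∑_a 1/(a b) ≤ (1 + log X) (3 + log (4 L))`. -/
theorem dy_large {hm h h' : ℕ} (hne : h ≠ h') (hh : h ≤ hm) (hh' : h' ≤ hm) (X w z : ℕ)
    {L Y : ℝ} (hX : hm ≤ X) (hw : hm < w) (hw3 : 3 ≤ w) (hwz : w ≤ z) (hL : 1 ≤ L)
    (hY : 18 * L ≤ Y) (hYz : (z:ℝ) ^ 104 ≤ Real.sqrt Y) (hzX : (z:ℝ) ≤ Real.sqrt X)
    (hlog : Real.log X ≤ w) :
    (((Finset.Ioc X (2 * X)).filter (fun n => ∃ p q : ℕ, p.Prime ∧ q.Prime ∧ q < p ∧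
      (p:ℝ) ≤ L * q ∧ Real.sqrt X * Y < p ∧ p ∣ n + h ∧ q ∣ n + h')).card : ℝ) ≤
      X * hm * (4 * Real.exp 30 * (Real.log w / Real.log z) ^ 2 + 1 / Real.sqrt Y) *
        ((1 + Real.log X) * (3 + Real.log (4 * L))) := by
  have hm1 : 1 ≤ hm := by omega
  have hX1 : 1 ≤ X := by omega
  have hX1' : (1:ℝ) ≤ X := by exact_mod_cast hX1
  have hm1' : (1:ℝ) ≤ hm := by exact_mod_cast hm1
  have hsX : 1 ≤ Real.sqrt X := by
    rw [show (1:ℝ) = Real.sqrt 1 by simp]; exact Real.sqrt_le_sqrt hX1'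
  have hsX2 : Real.sqrt X * Real.sqrt X = X := Real.mul_self_sqrt (by linarith)
  have hY18 : 18 ≤ Y := by linarith
  have hYpos : 0 < Y := by linarith
  have hsY : 0 < Real.sqrt Y := Real.sqrt_pos.2 hYpos
  have hsY2 : Real.sqrt Y * Real.sqrt Y = Y := Real.mul_self_sqrt hYpos.le
  set K : ℝ := 4 * Real.exp 30 * (Real.log w / Real.log z) ^ 2 + 1 / Real.sqrt Y with hK
  have hK0 : 0 ≤ K := by positivity
  set S : ℕ → ℕ → Finset ℕ := fun b a => (Finset.Ioc X (2 * X)).filter (fun n => ∃ p q : ℕ,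
    p.Prime ∧ q.Prime ∧ z < p ∧ z < q ∧ n + h = p * b ∧ n + h' = q * a) with hS
  set D : Finset ℕ := (Finset.Icc 1 X).filter (fun b => (b:ℝ) * Y < 3 * Real.sqrt X) with hD
  have hsub : (Finset.Ioc X (2 * X)).filter (fun n => ∃ p q : ℕ, p.Prime ∧ q.Prime ∧ q < p ∧
      (p:ℝ) ≤ L * q ∧ Real.sqrt X * Y < p ∧ p ∣ n + h ∧ q ∣ n + h') ⊆
      D.biUnion (fun b => (Finset.Ioc (b / 2) ⌊2 * L * b⌋₊).biUnion (fun a => S b a)) := by
    intro n hn
    rw [Finset.mem_filter, Finset.mem_Ioc] at hn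
    obtain ⟨⟨hn1, hn2⟩, p, q, hp, hq, hqp, hpL, hpX, ⟨b, hb⟩, ⟨a, ha⟩⟩ := hn
    have hp0 : (0:ℝ) < p := by exact_mod_cast hp.pos
    have hq0 : (0:ℝ) < q := by exact_mod_cast hq.pos
    have hbR : (n:ℝ) + h = p * b := by exact_mod_cast hb
    have haR : (n:ℝ) + h' = q * a := by exact_mod_cast ha
    have hn1R : (X:ℝ) < n := by exact_mod_cast hn1
    have hn2R : (n:ℝ) ≤ 2 * X := by exact_mod_cast hn2
    have hhR : (h:ℝ) ≤ X := by exact_mod_cast hh.trans hX
    have hhR' : (h':ℝ) ≤ X := by exact_mod_cast hh'.trans hX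
    have hh0 : (0:ℝ) ≤ h := Nat.cast_nonneg _
    have hh0' : (0:ℝ) ≤ h' := Nat.cast_nonneg _
    have hb1 : 1 ≤ b := by
      rcases Nat.eq_zero_or_pos b with rfl | h1
      · omega
      · exact h1
    have ha1 : 1 ≤ a := by
      rcases Nat.eq_zero_or_pos a with rfl | h1
      · omega
      · exact h1
    have hb1R : (1:ℝ) ≤ b := by exact_mod_cast hb1
    have ha1R : (1:ℝ) ≤ a := by exact_mod_cast ha1
    -- bound for b
    have hbY : (b:ℝ) * Y < 3 * Real.sqrt X := by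
      have h1 : (p:ℝ) * b ≤ 3 * X := by linarith
      have h2 : Real.sqrt X * Y * b < p * b := mul_lt_mul_of_pos_right hpX (by linarith)
      have h3 : Real.sqrt X * (Y * b) < Real.sqrt X * (3 * Real.sqrt X) := by
        calc Real.sqrt X * (Y * b) = Real.sqrt X * Y * b := by ring
          _ < p * b := h2
          _ ≤ 3 * X := h1
          _ = Real.sqrt X * (3 * Real.sqrt X) := by
              rw [show Real.sqrt X * (3 * Real.sqrt X) = 3 * (Real.sqrt X * Real.sqrt X) by ring, hsX2]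
      have h4 := lt_of_mul_lt_mul_left h3 (by linarith)
      linarith
    have hbX : b ≤ X := by
      have h0 : (b:ℝ) * 18 ≤ b * Y := mul_le_mul_of_nonneg_left hY18 (by linarith)
      have h2 : Real.sqrt X * 1 ≤ Real.sqrt X * Real.sqrt X :=
        mul_le_mul_of_nonneg_left hsX (by linarith)
      have h1 : (b:ℝ) ≤ X := by linarith
      exact_mod_cast h1
    have hqpR : (q:ℝ) < p := by exact_mod_cast hqp
    have hab1 : b / 2 < a := by
      have h1 : (p:ℝ) * b ≤ 2 * (q * a) := by linarith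
      have h2 : 2 * ((q:ℝ) * a) < 2 * (p * a) := by
        have := mul_lt_mul_of_pos_right hqpR (show (0:ℝ) < a by linarith)
        linarith
      have h3 : (p:ℝ) * b < p * (2 * a) := by linarith
      have h4 : (b:ℝ) < 2 * a := lt_of_mul_lt_mul_left h3 hp0.le
      have h5 : b < 2 * a := by exact_mod_cast h4
      omega
    have hab2 : (a:ℝ) ≤ 2 * L * b := by
      have h1 : (q:ℝ) * a ≤ 2 * (p * b) := by linarith
      have h2 : 2 * ((p:ℝ) * b) ≤ 2 * (L * q * b) := by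
        have := mul_le_mul_of_nonneg_right hpL (show (0:ℝ) ≤ b by linarith)
        linarith
      have h3 : (q:ℝ) * a ≤ q * (2 * L * b) := by linarith
      exact le_of_mul_le_mul_left h3 hq0
    have hzp : z < p := by
      have h0 : Real.sqrt X * 1 ≤ Real.sqrt X * Y :=
        mul_le_mul_of_nonneg_left (by linarith) (by linarith)
      have h1 : (z:ℝ) < p := by linarith
      exact_mod_cast h1
    have hzq : z < q := by
      have h1 : Real.sqrt X * Y < L * q := lt_of_lt_of_le hpX hpL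
      have h2 : Real.sqrt X * (18 * L) ≤ Real.sqrt X * Y := mul_le_mul_of_nonneg_left hY (by linarith)
      have h3 : L * (18 * Real.sqrt X) < L * q := by linarith
      have h4 := lt_of_mul_lt_mul_left h3 (by linarith)
      have h5 : (z:ℝ) < q := by linarith
      exact_mod_cast h5
    rw [Finset.mem_biUnion]
    refine ⟨b, ?_, ?_⟩
    · rw [hD, Finset.mem_filter, Finset.mem_Icc]
      exact ⟨⟨hb1, hbX⟩, hbY⟩
    · rw [Finset.mem_biUnion]
      refine ⟨a, ?_, ?_⟩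
      · rw [Finset.mem_Ioc]
        exact ⟨hab1, Nat.le_floor hab2⟩
      · rw [hS, Finset.mem_filter, Finset.mem_Ioc]
        exact ⟨⟨hn1, hn2⟩, p, q, hp, hq, hzp, hzq, hb, ha⟩
  -- bound for each pair
  have hterm : ∀ b ∈ D, ∀ a ∈ Finset.Ioc (b / 2) ⌊2 * L * b⌋₊,
      ((S b a).card : ℝ) ≤ X * hm * K * ((b:ℝ)⁻¹ * (a:ℝ)⁻¹) := by
    intro b hb a ha
    rw [hD, Finset.mem_filter, Finset.mem_Icc] at hb
    obtain ⟨⟨hb1, hbX⟩, hbY⟩ := hb
    rw [Finset.mem_Ioc] at ha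
    obtain ⟨ha1, ha2⟩ := ha
    have ha0 : 0 < a := by omega
    have hb0 : 0 < b := by omega
    have ha0R : (0:ℝ) < a := by exact_mod_cast ha0
    have hb0R : (0:ℝ) < b := by exact_mod_cast hb0
    have ha2R : (a:ℝ) ≤ 2 * L * b := (Nat.le_floor_iff (by positivity)).1 ha2
    have h1 := pair_sieve hne hh hh' a b X w z ha0 hb0 hw (by omega) (by omega)
    have hab : (a:ℝ) * b * Y ≤ X := by
      have h2 : (a:ℝ) * b ≤ 2 * L * b * b := mul_le_mul_of_nonneg_right ha2R hb0R.le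
      have h3 : (b * Y) * (b * Y) ≤ (3 * Real.sqrt X) * (3 * Real.sqrt X) :=
        mul_self_le_mul_self (by positivity) hbY.le
      have h4 : (3 * Real.sqrt X) * (3 * Real.sqrt X) = 9 * X := by
        rw [show (3 * Real.sqrt X) * (3 * Real.sqrt X) = 9 * (Real.sqrt X * Real.sqrt X) by ring, hsX2]
      have h5 : (a:ℝ) * b * Y * 9 * Y ≤ X * 9 * Y := by
        calc (a:ℝ) * b * Y * 9 * Y = (a * b) * (9 * Y * Y) := by ring
          _ ≤ (2 * L * b * b) * (9 * Y * Y) := mul_le_mul_of_nonneg_right h2 (by positivity)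
          _ = (18 * L) * ((b * Y) * (b * Y)) := by ring
          _ ≤ Y * (9 * X) := by
              rw [← h4]
              exact mul_le_mul hY h3 (by positivity) hYpos.le
          _ = X * 9 * Y := by ring
      have h6 : (a:ℝ) * b * Y * 9 ≤ X * 9 := le_of_mul_le_mul_right h5 hYpos
      linarith
    have hab0 : (0:ℝ) < a * b := by positivity
    set T : ℝ := (X:ℝ) * hm / (a * b) with hT
    have hTY : Y ≤ T := by
      rw [hT, le_div_iff₀ hab0]
      have : (X:ℝ) * 1 ≤ X * hm := mul_le_mul_of_nonneg_left hm1' (by linarith)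
      linarith
    have hlogab : Real.log ((a * b : ℕ) : ℝ) ≤ w := by
      refine le_trans (Real.log_le_log (by exact_mod_cast Nat.mul_pos ha0 hb0) ?_) hlog
      push_cast
      have h5 : (a:ℝ) * b * 1 ≤ a * b * Y := mul_le_mul_of_nonneg_left (by linarith) hab0.le
      linarith
    have h2 := sieve_prod w z (a * b) hw3 hwz (Nat.mul_pos ha0 hb0) hlogab
    have h3 : 2 * (T + 1) ≤ 4 * T := by linarith
    have hT0 : 0 ≤ T := by linarith
    have hprod0 : 0 ≤ ∏ l ∈ PP w z (a * b), (1 - 2 / (l:ℝ)) := by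
      refine Finset.prod_nonneg (fun l hl => ?_)
      unfold PP at hl
      rw [Finset.mem_filter, Finset.mem_Ioc] at hl
      have : (2:ℝ) ≤ l := by exact_mod_cast (show 2 ≤ l by omega)
      rw [sub_nonneg, div_le_one (by linarith)]
      exact this
    have h4 : (z:ℝ) ^ 104 ≤ T * (1 / Real.sqrt Y) := by
      rw [mul_one_div, le_div_iff₀ hsY]
      calc (z:ℝ) ^ 104 * Real.sqrt Y ≤ Real.sqrt Y * Real.sqrt Y :=
            mul_le_mul_of_nonneg_right hYz hsY.le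
        _ = Y := hsY2
        _ ≤ T := hTY
    calc ((S b a).card : ℝ) ≤ 2 * (T + 1) * ∏ l ∈ PP w z (a * b), (1 - 2 / (l:ℝ)) + (z:ℝ) ^ 104 := h1
      _ ≤ 4 * T * (Real.exp 30 * (Real.log w / Real.log z) ^ 2) + T * (1 / Real.sqrt Y) := by
          refine add_le_add ?_ h4
          exact mul_le_mul h3 h2 hprod0 (by positivity)
      _ = T * K := by rw [hK]; ring
      _ = X * hm * K * ((b:ℝ)⁻¹ * (a:ℝ)⁻¹) := by
          rw [hT]; field_simp
  have hlogX : 0 ≤ Real.log X := Real.log_nonneg hX1'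
  calc (((Finset.Ioc X (2 * X)).filter (fun n => ∃ p q : ℕ, p.Prime ∧ q.Prime ∧ q < p ∧
      (p:ℝ) ≤ L * q ∧ Real.sqrt X * Y < p ∧ p ∣ n + h ∧ q ∣ n + h')).card : ℝ)
      ≤ ((D.biUnion (fun b => (Finset.Ioc (b / 2) ⌊2 * L * b⌋₊).biUnion (fun a => S b a))).card : ℝ) := by
        exact_mod_cast Finset.card_le_card hsub
    _ ≤ ∑ b ∈ D, (((Finset.Ioc (b / 2) ⌊2 * L * b⌋₊).biUnion (fun a => S b a)).card : ℝ) := by
        exact_mod_cast Finset.card_biUnion_le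
    _ ≤ ∑ b ∈ D, ∑ a ∈ Finset.Ioc (b / 2) ⌊2 * L * b⌋₊, ((S b a).card : ℝ) := by
        refine Finset.sum_le_sum (fun b _ => ?_)
        exact_mod_cast Finset.card_biUnion_le
    _ ≤ ∑ b ∈ D, ∑ a ∈ Finset.Ioc (b / 2) ⌊2 * L * b⌋₊, X * hm * K * ((b:ℝ)⁻¹ * (a:ℝ)⁻¹) :=
        Finset.sum_le_sum (fun b hb => Finset.sum_le_sum (fun a ha => hterm b hb a ha))
    _ = X * hm * K * ∑ b ∈ D, (b:ℝ)⁻¹ * ∑ a ∈ Finset.Ioc (b / 2) ⌊2 * L * b⌋₊, (a:ℝ)⁻¹ := by
        simp_rw [Finset.mul_sum]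
    _ ≤ X * hm * K * ∑ b ∈ D, (b:ℝ)⁻¹ * (3 + Real.log (4 * L)) := by
        refine mul_le_mul_of_nonneg_left ?_ (by positivity)
        refine Finset.sum_le_sum (fun b hb => ?_)
        rw [hD, Finset.mem_filter, Finset.mem_Icc] at hb
        exact mul_le_mul_of_nonneg_left (dl_inner hL hb.1.1) (by positivity)
    _ ≤ X * hm * K * ((1 + Real.log X) * (3 + Real.log (4 * L))) := by
        refine mul_le_mul_of_nonneg_left ?_ (by positivity)
        rw [← Finset.sum_mul]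
        have h3 : 0 ≤ 3 + Real.log (4 * L) := by
          have := Real.log_nonneg (show (1:ℝ) ≤ 4 * L by linarith)
          linarith
        refine mul_le_mul_of_nonneg_right ?_ h3
        refine le_trans ?_ (dl_harm_Icc X)
        exact Finset.sum_le_sum_of_subset_of_nonneg (Finset.filter_subset _ _)
          (fun i _ _ => by positivity)

end Pool.Agent.Lib.P4a7640M
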