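import Mathlib
import Pool.Agent.Lib.P4a7640M.Base
import Pool.Agent.Lib.P4a7640M.Cheb

/-!
# Simple dyadic counts
-/

open Finset

namespace Pool.Agent.Lib.P4a7640M

/-- a property that holds in at most one residue class modulo `m` -/
theorem Dyadic.card_class (X m : ℕ) (hm : 0 < m) (P : ℕ → Prop) [DecidablePred P]
    (hP : ∀ n n', P n → P n' → n ≡ n' [MOD m]) :
    (((Finset.Ioc X (2 * X)).filter P).card : ℝ) ≤ X / m + 1 := by
  rcases ((Finset.Ioc X (2 * X)).filter P).eq_empty_or_nonempty with h | ⟨v, hv⟩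
  · rw [h]
    simp only [Finset.card_empty, Nat.cast_zero]
    positivity
  · have hv' := (Finset.mem_filter.1 hv).2
    have h1 : ((Finset.Ioc X (2 * X)).filter P).card ≤
        ((Finset.Ioc X (2 * X)).filter (fun x => x ≡ v [MOD m])).card := by
      apply Finset.card_le_card
      intro n hn
      rw [Finset.mem_filter] at hn ⊢
      exact ⟨hn.1, hP n v hn.2 hv'⟩
    have h2 := Nat.Ioc_filter_modEq_card X (2 * X) hm v
    have hmq : (0:ℚ) < m := by exact_mod_cast hm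
    have h3 : (((Finset.Ioc X (2 * X)).filter (fun x => x ≡ v [MOD m])).card : ℤ) ≤
        ⌊((X:ℚ) / m + 1)⌋ := by
      rw [h2, max_le_iff]
      constructor
      · rw [Int.le_floor]
        push_cast
        have h4 := Int.floor_le (((2 * X : ℕ) - v : ℚ) / m)
        have h5 := Int.sub_one_lt_floor (((X : ℕ) - v : ℚ) / m)
        push_cast at h4 h5
        have h6 : ((2 * X : ℚ) - v) / m = (X - v) / m + X / m := by
          field_simp
          ring
        rw [h6] at h4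
        rw [h6]
        linarith
      · rw [Int.le_floor]
        push_cast
        positivity
    have h7 : (((Finset.Ioc X (2 * X)).filter (fun x => x ≡ v [MOD m])).card : ℚ) ≤
        (X:ℚ) / m + 1 := by
      have := Int.le_floor.1 h3
      exact_mod_cast this
    have h8 : (((Finset.Ioc X (2 * X)).filter (fun x => x ≡ v [MOD m])).card : ℝ) ≤
        (X:ℝ) / m + 1 := by
      have := (Rat.cast_le (K := ℝ)).2 h7
      push_cast at this
      exact this
    calc (((Finset.Ioc X (2 * X)).filter P).card : ℝ) ≤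
        (((Finset.Ioc X (2 * X)).filter (fun x => x ≡ v [MOD m])).card : ℝ) := by
          exact_mod_cast h1
      _ ≤ _ := h8

theorem Dyadic.modEq_of_dvd {p n n' h : ℕ} (h1 : p ∣ n + h) (h2 : p ∣ n' + h) :
    n ≡ n' [MOD p] := by
  have h3 : n + h ≡ n' + h [MOD p] := by
    rw [Nat.ModEq, Nat.mod_eq_zero_of_dvd h1, Nat.mod_eq_zero_of_dvd h2]
  exact Nat.ModEq.add_right_cancel' h h3

open Classical in
/-- Proof: for each pair `(p, q)` the `n ∈ (X, 2X]` with `p ∣ n + h`, `q ∣ n + h'` lie in one residue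
class modulo `p q ≤ X`, so there are at most `X/(pq) + 1 ≤ 2X/(pq)` of them; sum over the pairs
with `sum_close_pairs` (all pairs lie in a finite box since `p q ≤ X`). -/
theorem dy_small {z L : ℝ} (hL : 1 ≤ L) (hz : (2 * L) ^ 2 ≤ z) (h h' X : ℕ) :
    (((Finset.Ioc X (2 * X)).filter (fun n => ∃ p q : ℕ, p.Prime ∧ q.Prime ∧ q < p ∧ z < p ∧
      (p:ℝ) ≤ L * q ∧ p * q ≤ X ∧ p ∣ n + h ∧ q ∣ n + h')).card : ℝ) ≤
      128 * X * (1 + Real.log (2 * L)) / Real.log z := by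
  set S : Finset (ℕ × ℕ) := ((Finset.range (X + 1)) ×ˢ (Finset.range (X + 1))).filter
    (fun x => x.1.Prime ∧ x.2.Prime ∧ x.2 < x.1 ∧ z < x.1 ∧ (x.1:ℝ) ≤ L * x.2 ∧ x.1 * x.2 ≤ X)
    with hS
  have h1 : ((Finset.Ioc X (2 * X)).filter (fun n => ∃ p q : ℕ, p.Prime ∧ q.Prime ∧ q < p ∧
      z < p ∧ (p:ℝ) ≤ L * q ∧ p * q ≤ X ∧ p ∣ n + h ∧ q ∣ n + h')) ⊆
      S.biUnion (fun x => (Finset.Ioc X (2 * X)).filter
        (fun n => x.1 ∣ n + h ∧ x.2 ∣ n + h')) := by
    intro n hn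
    rw [Finset.mem_filter] at hn
    obtain ⟨hn1, p, q, hp, hq, hqp, hzp, hpq, hX, hd1, hd2⟩ := hn
    rw [Finset.mem_biUnion]
    refine ⟨(p, q), ?_, ?_⟩
    · rw [hS, Finset.mem_filter, Finset.mem_product, Finset.mem_range, Finset.mem_range]
      have h3 : p ≤ p * q := Nat.le_mul_of_pos_right p hq.pos
      have h4 : q ≤ p * q := Nat.le_mul_of_pos_left q hp.pos
      refine ⟨⟨?_, ?_⟩, hp, hq, hqp, hzp, hpq, hX⟩ <;> simp only <;> omega
    · rw [Finset.mem_filter]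
      exact ⟨hn1, hd1, hd2⟩
  have h2 : ∀ x ∈ S, (((Finset.Ioc X (2 * X)).filter
        (fun n => x.1 ∣ n + h ∧ x.2 ∣ n + h')).card : ℝ) ≤ 2 * X * (1 / ((x.1:ℝ) * x.2)) := by
    intro x hx
    rw [hS, Finset.mem_filter] at hx
    obtain ⟨_, hp, hq, hqp, hzp, hpq, hX⟩ := hx
    have hpp : (0:ℝ) < x.1 := by exact_mod_cast hp.pos
    have hqq : (0:ℝ) < x.2 := by exact_mod_cast hq.pos
    have hcop : Nat.Coprime x.1 x.2 := (Nat.coprime_primes hp hq).2 hqp.ne'
    have h3 := Dyadic.card_class X (x.1 * x.2) (Nat.mul_pos hp.pos hq.pos)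
      (fun n => x.1 ∣ n + h ∧ x.2 ∣ n + h') (by
        rintro n n' ⟨a1, a2⟩ ⟨b1, b2⟩
        exact (Nat.modEq_and_modEq_iff_modEq_mul hcop).1
          ⟨Dyadic.modEq_of_dvd a1 b1, Dyadic.modEq_of_dvd a2 b2⟩)
    have h4 : (1:ℝ) ≤ X / ((x.1:ℝ) * x.2) := by
      rw [le_div_iff₀ (by positivity)]
      have : ((x.1 * x.2 : ℕ) : ℝ) ≤ (X:ℝ) := by exact_mod_cast hX
      push_cast at this
      linarith
    have h5 : 2 * (X:ℝ) * (1 / ((x.1:ℝ) * x.2)) = X / ((x.1:ℝ) * x.2) + X / ((x.1:ℝ) * x.2) := by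
      ring
    rw [h5]
    push_cast at h3
    linarith
  have h6 : ∑ x ∈ S, 1 / ((x.1:ℝ) * x.2) ≤ 64 * (1 + Real.log (2 * L)) / Real.log z := by
    apply sum_close_pairs hL hz
    intro x hx
    rw [hS, Finset.mem_filter] at hx
    exact ⟨hx.2.1, hx.2.2.1, hx.2.2.2.1, hx.2.2.2.2.1, hx.2.2.2.2.2.1⟩
  calc _ ≤ ((S.biUnion (fun x => (Finset.Ioc X (2 * X)).filter
        (fun n => x.1 ∣ n + h ∧ x.2 ∣ n + h'))).card : ℝ) := by
        exact_mod_cast Finset.card_le_card h1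
    _ ≤ ∑ x ∈ S, (((Finset.Ioc X (2 * X)).filter
        (fun n => x.1 ∣ n + h ∧ x.2 ∣ n + h')).card : ℝ) := by
        exact_mod_cast Finset.card_biUnion_le
    _ ≤ ∑ x ∈ S, 2 * X * (1 / ((x.1:ℝ) * x.2)) := Finset.sum_le_sum h2
    _ = 2 * X * ∑ x ∈ S, 1 / ((x.1:ℝ) * x.2) := by rw [Finset.mul_sum]
    _ ≤ 2 * X * (64 * (1 + Real.log (2 * L)) / Real.log z) := by
        apply mul_le_mul_of_nonneg_left h6
        positivity
    _ = _ := by ring

open Classical in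
/-- Proof: for each `p ≤ X` at most `X/p + 1 ≤ 2X/p` of the `n ∈ (X, 2X]` satisfy `p ∣ n + h`;
sum over `p` with `sum_inv_range`. -/
theorem dy_mid {y t : ℝ} (hy : 1 < y) (ht : 1 ≤ t) (X h : ℕ) (htX : t * y ≤ X) :
    (((Finset.Ioc X (2 * X)).filter (fun n => ∃ p : ℕ, p.Prime ∧ y < p ∧ (p:ℝ) ≤ t * y ∧
      p ∣ n + h)).card : ℝ) ≤ 8 * X * (1 + Real.log t) / Real.log y := by
  set S : Finset ℕ := (Finset.range (X + 1)).filter
    (fun p => p.Prime ∧ y < p ∧ (p:ℝ) ≤ t * y) with hS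
  have h1 : ((Finset.Ioc X (2 * X)).filter (fun n => ∃ p : ℕ, p.Prime ∧ y < p ∧
      (p:ℝ) ≤ t * y ∧ p ∣ n + h)) ⊆
      S.biUnion (fun p => (Finset.Ioc X (2 * X)).filter (fun n => p ∣ n + h)) := by
    intro n hn
    rw [Finset.mem_filter] at hn
    obtain ⟨hn1, p, hp, hyp, hpt, hd⟩ := hn
    rw [Finset.mem_biUnion]
    refine ⟨p, ?_, ?_⟩
    · rw [hS, Finset.mem_filter, Finset.mem_range]
      have h3 : (p:ℝ) ≤ X := hpt.trans htX
      have h4 : p ≤ X := by exact_mod_cast h3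
      exact ⟨by omega, hp, hyp, hpt⟩
    · rw [Finset.mem_filter]
      exact ⟨hn1, hd⟩
  have h2 : ∀ p ∈ S, (((Finset.Ioc X (2 * X)).filter (fun n => p ∣ n + h)).card : ℝ) ≤
      2 * X * (1 / (p:ℝ)) := by
    intro p hx
    rw [hS, Finset.mem_filter] at hx
    obtain ⟨_, hp, hyp, hpt⟩ := hx
    have hpp : (0:ℝ) < p := by exact_mod_cast hp.pos
    have h3 := Dyadic.card_class X p hp.pos (fun n => p ∣ n + h)
      (fun n n' a b => Dyadic.modEq_of_dvd a b)
    have h4 : (1:ℝ) ≤ X / (p:ℝ) := by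
      rw [le_div_iff₀ hpp]
      linarith
    have h5 : 2 * (X:ℝ) * (1 / (p:ℝ)) = X / p + X / p := by
      ring
    rw [h5]
    linarith
  have h6 : ∑ p ∈ S, 1 / (p:ℝ) ≤ 4 * (1 + Real.log t) / Real.log y := by
    apply sum_inv_range hy ht
    intro p hx
    rw [hS, Finset.mem_filter] at hx
    exact hx.2
  calc _ ≤ ((S.biUnion (fun p => (Finset.Ioc X (2 * X)).filter (fun n => p ∣ n + h))).card : ℝ) := by
        exact_mod_cast Finset.card_le_card h1
    _ ≤ ∑ p ∈ S, (((Finset.Ioc X (2 * X)).filter (fun n => p ∣ n + h)).card : ℝ) := by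
        exact_mod_cast Finset.card_biUnion_le
    _ ≤ ∑ p ∈ S, 2 * X * (1 / (p:ℝ)) := Finset.sum_le_sum h2
    _ = 2 * X * ∑ p ∈ S, 1 / (p:ℝ) := by rw [Finset.mul_sum]
    _ ≤ 2 * X * (4 * (1 + Real.log t) / Real.log y) := by
        apply mul_le_mul_of_nonneg_left h6
        positivity
    _ = _ := by ring

end Pool.Agent.Lib.P4a7640M
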