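import Mathlib
import Pool.Agent.Lib.P4a7640M.Base
import Pool.Agent.Lib.P4a7640M.Dyadic
import Pool.Agent.Lib.P4a7640M.DyLarge

/-!
# Close pairs of prime factors of two shifts: dyadic version
-/

open Finset Filter

namespace Pool.Agent.Lib.P4a7640M

/-- the sixth root of `log N` -/
noncomputable def uu (N : ℕ) : ℝ := Real.log N ^ ((1:ℝ) / 6)

lemma tendsto_uu : Tendsto uu atTop atTop :=
  (tendsto_rpow_atTop (by norm_num : (0:ℝ) < 1 / 6)).comp
    (Real.tendsto_log_atTop.comp tendsto_natCast_atTop_atTop)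

lemma ev_log (n : ℕ) (K : ℝ) : ∀ᶠ u : ℝ in atTop, K * (6 * Real.log u) ^ n ≤ u := by
  have h := (Real.isLittleO_pow_log_id_atTop (n := n)).def
    (show (0:ℝ) < 1 / (|K| * 6 ^ n + 1) by positivity)
  filter_upwards [h, eventually_ge_atTop 1] with u hu hu1
  have hl : 0 ≤ Real.log u := Real.log_nonneg hu1
  rw [id, Real.norm_of_nonneg (pow_nonneg hl n), Real.norm_of_nonneg (by linarith),
    one_div, inv_mul_eq_div, le_div_iff₀ (by positivity)] at hu
  calc K * (6 * Real.log u) ^ n ≤ |K| * (6 * Real.log u) ^ n :=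
        mul_le_mul_of_nonneg_right (le_abs_self K) (by positivity)
    _ = Real.log u ^ n * (|K| * 6 ^ n) := by rw [mul_pow]; ring
    _ ≤ Real.log u ^ n * (|K| * 6 ^ n + 1) :=
        mul_le_mul_of_nonneg_left (by linarith) (by positivity)
    _ ≤ u := hu

lemma ev_exp (n : ℕ) (K c : ℝ) (hc : 0 < c) : ∀ᶠ u : ℝ in atTop, K * u ^ n ≤ Real.exp (c * u) := by
  have h := (isLittleO_pow_exp_pos_mul_atTop n hc).def (show (0:ℝ) < 1 / (|K| + 1) by positivity)
  filter_upwards [h, eventually_ge_atTop 1] with u hu hu1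
  have hu0 : (0:ℝ) ≤ u := by linarith
  rw [Real.norm_of_nonneg (pow_nonneg hu0 n), Real.norm_of_nonneg (Real.exp_pos _).le,
    one_div, inv_mul_eq_div, le_div_iff₀ (by positivity)] at hu
  calc K * u ^ n ≤ |K| * u ^ n := mul_le_mul_of_nonneg_right (le_abs_self K) (by positivity)
    _ ≤ u ^ n * (|K| + 1) := by nlinarith [pow_nonneg hu0 n, abs_nonneg K]
    _ ≤ _ := hu

/-- numerical consequences for large `u` -/
lemma ev_params (hm a : ℕ) : ∀ᶠ u : ℝ in atTop,
    2 ≤ u ∧ 2 ≤ 6 * Real.log u ∧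
    32 * (6 * Real.log u) ^ 4 ≤ u ∧
    (hm * (4 * Real.exp 30 * 360000 + 1) * 2 * (a + 5)) * (6 * Real.log u) ^ 7 ≤ u ∧
    2 * u ^ 6 + 2 ≤ Real.exp (u ^ 4 / 208) ∧
    18 * u ^ (6 * a) ≤ Real.exp (u ^ 4) ∧
    u ^ 8 ≤ Real.exp (u ^ 4 / 2) ∧
    (hm : ℝ) < u ∧
    u ^ 4 / 300 ≤ u ^ 4 / 208 - Real.log 2 := by
  have e0 : Tendsto (fun u : ℝ => 6 * Real.log u) atTop atTop :=
    Real.tendsto_log_atTop.const_mul_atTop (by norm_num)
  have e1 := ev_exp 6 4 (1 / 208) (by norm_num)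
  have e2 := ev_exp (6 * a) 18 1 (by norm_num)
  have e3 := ev_exp 8 1 (1 / 2) (by norm_num)
  filter_upwards [eventually_ge_atTop 2, e0.eventually_ge_atTop 2, ev_log 4 32,
    ev_log 7 (hm * (4 * Real.exp 30 * 360000 + 1) * 2 * (a + 5)), e1, e2, e3,
    eventually_gt_atTop (hm:ℝ), eventually_ge_atTop (1000:ℝ)] with u h1 h2 h3 h4 h5 h6 h7 h8 h9
  have hu4 : u ≤ u ^ 4 := by
    calc u = u ^ 1 := (pow_one u).symm
      _ ≤ u ^ 4 := pow_le_pow_right₀ (by linarith) (by norm_num)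
  refine ⟨h1, h2, h3, h4, ?_, ?_, ?_, h8, ?_⟩
  · have hp : (1:ℝ) ≤ u ^ 6 := one_le_pow₀ (by linarith)
    calc 2 * u ^ 6 + 2 ≤ 4 * u ^ 6 := by linarith
      _ ≤ Real.exp (1 / 208 * u) := h5
      _ ≤ Real.exp (u ^ 4 / 208) := Real.exp_le_exp.mpr (by linarith)
  · exact h6.trans (Real.exp_le_exp.mpr (by linarith))
  · calc u ^ 8 = 1 * u ^ 8 := (one_mul _).symm
      _ ≤ _ := h7
      _ ≤ _ := Real.exp_le_exp.mpr (by linarith)
  · have h10 : Real.log 2 ≤ 1 := by
      have := Real.log_two_lt_d9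
      linarith
    linarith

/-- the numerical core: the three bounds -/
lemma core_bounds {hm a : ℕ} {u l X : ℝ} (hl : l = u ^ 6) (h1 : 2 ≤ u) (h2 : 2 ≤ 6 * Real.log u)
    (h3 : 32 * (6 * Real.log u) ^ 4 ≤ u)
    (h4 : (hm * (4 * Real.exp 30 * 360000 + 1) * 2 * (a + 5)) * (6 * Real.log u) ^ 7 ≤ u)
    (h7 : u ^ 8 ≤ Real.exp (u ^ 4 / 2))
    (h10 : u ^ 4 / 300 ≤ u ^ 4 / 208 - Real.log 2)
    (hX1 : Real.exp (u ^ 5) ≤ X) (hX2 : Real.log X ≤ l) {w z : ℝ} (hw1 : 1 ≤ w) (hw : w ≤ 3 * u ^ 6)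
    (hz : Real.exp (u ^ 4 / 208) / 2 ≤ z) :
    128 * X * (1 + Real.log (2 * l ^ a)) / Real.log (Real.exp (Real.log l ^ 5)) ≤
      128 * (a + 2) * X / Real.log l ^ 4 ∧
    8 * X * (1 + Real.log (Real.exp (u ^ 4))) / Real.log (Real.sqrt X) ≤ X / Real.log l ^ 4 ∧
    X * hm * (4 * Real.exp 30 * (Real.log w / Real.log z) ^ 2 + 1 / Real.sqrt (Real.exp (u ^ 4))) *
        ((1 + Real.log X) * (3 + Real.log (4 * l ^ a))) ≤ X / Real.log l ^ 4 := by
  have hu0 : (0:ℝ) < u := by linarith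
  have hX0 : 0 < X := (Real.exp_pos _).trans_le hX1
  set m := 6 * Real.log u with hmdef
  have hlog : Real.log l = m := by rw [hl, Real.log_pow]; push_cast; ring
  have hm0 : 0 < m := by linarith
  have hl0 : 0 < l := by rw [hl]; positivity
  have hlogX1 : u ^ 5 ≤ Real.log X := by
    rw [← Real.log_exp (u ^ 5)]
    exact Real.log_le_log (Real.exp_pos _) hX1
  have hlog2 : Real.log 2 ≤ 1 := by
    have := Real.log_two_lt_d9
    linarith
  have hlog2' : 0 < Real.log 2 := Real.log_pos (by norm_num)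
  have ha0 : (0:ℝ) ≤ a := Nat.cast_nonneg a
  have hhm0 : (0:ℝ) ≤ hm := Nat.cast_nonneg hm
  rw [hlog]
  refine ⟨?_, ?_, ?_⟩
  · rw [Real.log_mul (by norm_num) (by positivity), Real.log_pow, hlog, Real.log_exp]
    rw [div_le_div_iff₀ (by positivity) (by positivity)]
    have h5 : 1 + (Real.log 2 + a * m) ≤ (a + 2) * m := by nlinarith
    calc 128 * X * (1 + (Real.log 2 + a * m)) * m ^ 4 ≤ 128 * X * ((a + 2) * m) * m ^ 4 := by gcongr
      _ = 128 * (a + 2) * X * m ^ 5 := by ring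
  · rw [Real.log_exp, Real.log_sqrt hX0.le]
    have h5 : 0 < Real.log X := lt_of_lt_of_le (by positivity) hlogX1
    rw [div_le_div_iff₀ (by positivity) (by positivity)]
    have h6 : (1:ℝ) ≤ u ^ 4 := one_le_pow₀ (by linarith)
    calc 8 * X * (1 + u ^ 4) * m ^ 4 ≤ 8 * X * (2 * u ^ 4) * m ^ 4 := by
          gcongr
          linarith
      _ = X * (u ^ 4 * (32 * m ^ 4)) / 2 := by ring
      _ ≤ X * (u ^ 4 * u) / 2 := by gcongr
      _ = X * (u ^ 5 / 2) := by ring
      _ ≤ X * (Real.log X / 2) := by gcongr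
  · have hlw : Real.log w ≤ 2 * m := by
      have h5 : Real.log w ≤ Real.log (3 * u ^ 6) := Real.log_le_log (by linarith) hw
      rw [Real.log_mul (by norm_num) (by positivity), Real.log_pow] at h5
      have h6 : Real.log 3 ≤ 2 := by
        have := Real.log_le_sub_one_of_pos (show (0:ℝ) < 3 by norm_num)
        linarith
      push_cast at h5
      linarith
    have hlw0 : 0 ≤ Real.log w := Real.log_nonneg hw1
    have hlz : u ^ 4 / 300 ≤ Real.log z := by
      refine h10.trans ?_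
      have h5 : Real.log (Real.exp (u ^ 4 / 208) / 2) ≤ Real.log z :=
        Real.log_le_log (by positivity) hz
      rwa [Real.log_div (Real.exp_pos _).ne' (by norm_num), Real.log_exp] at h5
    have hratio : Real.log w / Real.log z ≤ 600 * m / u ^ 4 := by
      calc Real.log w / Real.log z ≤ (2 * m) / (u ^ 4 / 300) := by gcongr
        _ = 600 * m / u ^ 4 := by field_simp; norm_num
    have hratio0 : 0 ≤ Real.log w / Real.log z := div_nonneg hlw0 ((by positivity : (0:ℝ) ≤ u ^ 4 / 300).trans hlz)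
    have hsq : (Real.log w / Real.log z) ^ 2 ≤ 360000 * m ^ 2 / u ^ 8 := by
      calc (Real.log w / Real.log z) ^ 2 ≤ (600 * m / u ^ 4) ^ 2 := by gcongr
        _ = 360000 * m ^ 2 / u ^ 8 := by rw [div_pow, mul_pow, ← pow_mul]; norm_num
    have hY : 1 / Real.sqrt (Real.exp (u ^ 4)) ≤ m ^ 2 / u ^ 8 := by
      rw [← Real.exp_half (u ^ 4)]
      calc 1 / Real.exp (u ^ 4 / 2) ≤ 1 / u ^ 8 := one_div_le_one_div_of_le (by positivity) h7
        _ ≤ m ^ 2 / u ^ 8 := by
            gcongr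
            nlinarith
    have hlX : 1 + Real.log X ≤ 2 * u ^ 6 := by
      have h6 : (1:ℝ) ≤ u ^ 6 := one_le_pow₀ (by linarith)
      rw [hl] at hX2
      linarith
    have hlL : 3 + Real.log (4 * l ^ a) ≤ (a + 5) * m := by
      rw [Real.log_mul (by norm_num) (by positivity), Real.log_pow, hlog]
      have h6 : Real.log 4 ≤ 2 := by
        rw [show (4:ℝ) = 2 ^ 2 by norm_num, Real.log_pow]
        push_cast
        linarith
      nlinarith
    have hlX0 : 0 ≤ 1 + Real.log X := by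
      have : (0:ℝ) ≤ u ^ 5 := by positivity
      linarith
    have hlL0 : 0 ≤ 3 + Real.log (4 * l ^ a) := by
      rw [Real.log_mul (by norm_num) (by positivity), Real.log_pow, hlog]
      have : 0 ≤ Real.log 4 := Real.log_nonneg (by norm_num)
      positivity
    calc X * hm * (4 * Real.exp 30 * (Real.log w / Real.log z) ^ 2 +
          1 / Real.sqrt (Real.exp (u ^ 4))) * ((1 + Real.log X) * (3 + Real.log (4 * l ^ a)))
        ≤ X * hm * (4 * Real.exp 30 * (360000 * m ^ 2 / u ^ 8) + m ^ 2 / u ^ 8) *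
          ((2 * u ^ 6) * ((a + 5) * m)) := by gcongr
      _ = X * ((hm * (4 * Real.exp 30 * 360000 + 1) * 2 * (a + 5)) * m ^ 7) / (u ^ 2 * m ^ 4) := by
          field_simp
      _ ≤ X * u / (u ^ 2 * m ^ 4) := by gcongr
      _ ≤ X * (u ^ 2) / (u ^ 2 * m ^ 4) := by
          gcongr
          nlinarith
      _ = X / m ^ 4 := by field_simp

open Classical in
/-- Proof. Let `l = log N`, `u = l^(1/6)` (so `log u = lam N / 6`), `L = LL a N`,
`Y = exp (u^4)`, `z = ⌊exp (u^4/208)⌋₊`, `w = ⌈2 l⌉₊` and let `N` be large. The set is contained in the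
union of the sets of `dy_small` (with `z := zz N`; `log (zz N) = lam N ^ 5`), `dy_mid` (with
`y = √X`, `t = Y`; if `p q > X` and `q < p` then `p > √X`) and `dy_large`. As `log X ≥ u^5`,
`1 + log X ≤ 2 u^6`, `log w ≤ 2 lam N`, `log z ≥ u^4/300`,
the three bounds are at most `C X / (lam N)^4`, `X / (lam N)^4`, `X / (lam N)^4` for large `N`. -/
theorem close_dyadic (hm a : ℕ) : ∃ C : ℝ, 0 < C ∧ ∀ᶠ N : ℕ in atTop, ∀ h ≤ hm, ∀ h' ≤ hm,
    h ≠ h' → ∀ X : ℕ, Real.exp (Real.log N ^ ((5:ℝ) / 6)) ≤ X → X ≤ N →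
      (((Finset.Ioc X (2 * X)).filter
        (fun n => Close (zz N) (LL a N) (n + h) (n + h'))).card : ℝ) ≤ C * X / lam N ^ 4 := by
  refine ⟨128 * (a + 2) + 2, by positivity, ?_⟩
  have hzz : ∀ᶠ m : ℝ in atTop, Real.log 4 + 2 * a * m ≤ m ^ 5 := by
    filter_upwards [eventually_ge_atTop (2:ℝ), eventually_ge_atTop (2 * a + 2 : ℝ)] with m h1 h2
    have h3 : Real.log 4 ≤ 2 * m := by
      have := Real.log_le_sub_one_of_pos (show (0:ℝ) < 4 by norm_num)
      linarith
    have h4 : m ^ 2 ≤ m ^ 5 := pow_le_pow_right₀ (by linarith) (by norm_num)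
    nlinarith
  have hlam : Tendsto lam atTop atTop := Real.tendsto_log_atTop.comp
    (Real.tendsto_log_atTop.comp tendsto_natCast_atTop_atTop)
  filter_upwards [tendsto_uu.eventually (ev_params hm a), hlam.eventually hzz,
    eventually_ge_atTop 2] with N hN hz2 hN2 h hh h' hh' hne X hX1 hX2
  obtain ⟨h1, h2, h3, h4, h5, h6, h7, h8, h9⟩ := hN
  set u := uu N with hu
  set l := Real.log N with hl
  have hlpos : 0 < l := Real.log_pos (by exact_mod_cast hN2)
  have hu0 : 0 < u := by linarith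
  have hlu : l = u ^ 6 := by
    rw [hu, uu, ← hl, ← Real.rpow_natCast, ← Real.rpow_mul hlpos.le]
    norm_num
  have hl5 : l ^ ((5:ℝ) / 6) = u ^ 5 := by
    rw [hu, uu, ← hl, ← Real.rpow_natCast, ← Real.rpow_mul hlpos.le]
    norm_num
  rw [hl5] at hX1
  have hXpos : (0:ℝ) < X := (Real.exp_pos _).trans_le hX1
  have hX0 : 0 < X := by exact_mod_cast hXpos
  have hlogX : Real.log X ≤ l := Real.log_le_log hXpos (by exact_mod_cast hX2)
  have hu5 : u ^ 4 ≤ u ^ 5 / 2 := by
    have : 0 < u ^ 4 := by positivity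
    have h10 : u ^ 5 = u ^ 4 * u := by ring
    rw [h10]
    nlinarith
  have hsqrtX : Real.exp (u ^ 5 / 2) ≤ Real.sqrt X := by
    rw [Real.exp_half]
    exact Real.sqrt_le_sqrt hX1
  have hYX : Real.exp (u ^ 4) ≤ Real.sqrt X := (Real.exp_le_exp.mpr hu5).trans hsqrtX
  set w := ⌈2 * l⌉₊ with hw
  set z := ⌊Real.exp (u ^ 4 / 208)⌋₊ with hz
  have hw1 : 2 * l ≤ w := Nat.le_ceil _
  have hw2 : (w:ℝ) ≤ 2 * l + 1 := (Nat.ceil_lt_add_one (by positivity)).le
  have hz1 : (z:ℝ) ≤ Real.exp (u ^ 4 / 208) := Nat.floor_le (Real.exp_pos _).le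
  have hz3 : Real.exp (u ^ 4 / 208) - 1 ≤ z := (Nat.sub_one_lt_floor _).le
  have hu6 : u ≤ u ^ 6 := by
    calc u = u ^ 1 := (pow_one u).symm
      _ ≤ u ^ 6 := pow_le_pow_right₀ (by linarith) (by norm_num)
  have hu6' : (64:ℝ) ≤ u ^ 6 := by
    calc (64:ℝ) = 2 ^ 6 := by norm_num
      _ ≤ u ^ 6 := by gcongr
  have hcore := core_bounds (hm := hm) (a := a) (X := X) (w := w) (z := z) hlu h1 h2 h3 h4 h7 h9
    hX1 hlogX (by linarith) (by linarith) (by linarith)
  obtain ⟨hc1, hc2, hc3⟩ := hcore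
  -- the three sets
  have hLL : LL a N = l ^ a := rfl
  have hL1 : (1:ℝ) ≤ LL a N := by
    rw [hLL]
    exact one_le_pow₀ (by linarith)
  have hlamN : lam N = Real.log l := rfl
  have hlog6 : Real.log l = 6 * Real.log u := by
    rw [hlu, Real.log_pow]
    push_cast
    ring
  have hs1 := dy_small (z := zz N) (L := LL a N) hL1 (by
    rw [hLL, zz]
    have h10 : Real.exp (Real.log 4 + 2 * a * lam N) ≤ Real.exp (lam N ^ 5) := Real.exp_le_exp.mpr hz2
    refine le_trans (le_of_eq ?_) h10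
    rw [Real.exp_add, Real.exp_log (by norm_num), hlamN]
    have h11 : Real.exp (2 * a * Real.log l) = (l ^ a) ^ 2 := by
      rw [← pow_mul, show (2:ℝ) * a * Real.log l = ((a * 2 : ℕ) : ℝ) * Real.log l by push_cast; ring,
        ← Real.log_pow, Real.exp_log (by positivity)]
    rw [h11]
    ring) h h' X
  have hs2 := dy_mid (y := Real.sqrt X) (t := Real.exp (u ^ 4))
    (lt_of_lt_of_le (Real.one_lt_exp_iff.mpr (by positivity)) hsqrtX)
    (Real.one_le_exp (by positivity)) X h (by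
      calc Real.exp (u ^ 4) * Real.sqrt X ≤ Real.sqrt X * Real.sqrt X := by gcongr
        _ = X := Real.mul_self_sqrt hXpos.le)
  have hs3 := dy_large (L := LL a N) (Y := Real.exp (u ^ 4)) hne hh hh' X w z (by
      have h10 : (hm:ℝ) ≤ X := by
        have h11 : u ≤ Real.exp (u ^ 5) := by
          have h12 := Real.add_one_le_exp (u ^ 5)
          have h13 : u ≤ u ^ 5 := by
            calc u = u ^ 1 := (pow_one u).symm
              _ ≤ u ^ 5 := pow_le_pow_right₀ (by linarith) (by norm_num)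
          linarith
        linarith
      exact_mod_cast h10)
    (by
      have h10 : (hm:ℝ) < w := by linarith
      exact_mod_cast h10)
    (by
      have h10 : (3:ℝ) ≤ w := by linarith
      exact_mod_cast h10)
    (by
      have h10 : (w:ℝ) ≤ z := by linarith
      exact_mod_cast h10) hL1 (by
      rw [hLL, hlu, ← pow_mul]
      exact h6) (by
      rw [← Real.exp_half]
      calc (z:ℝ) ^ 104 ≤ Real.exp (u ^ 4 / 208) ^ 104 := by gcongr
        _ = Real.exp (u ^ 4 / 2) := by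
            rw [← Real.exp_nat_mul]
            congr 1
            push_cast
            ring) (by
      refine hz1.trans (le_trans (Real.exp_le_exp.mpr ?_) hsqrtX)
      have : 0 ≤ u ^ 4 := by positivity
      linarith) (by linarith)
  set S1 := (Finset.Ioc X (2 * X)).filter (fun n => ∃ p q : ℕ, p.Prime ∧ q.Prime ∧ q < p ∧
    zz N < p ∧ (p:ℝ) ≤ LL a N * q ∧ p * q ≤ X ∧ p ∣ n + h ∧ q ∣ n + h') with hS1
  set S2 := (Finset.Ioc X (2 * X)).filter (fun n => ∃ p : ℕ, p.Prime ∧ Real.sqrt X < p ∧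
    (p:ℝ) ≤ Real.exp (u ^ 4) * Real.sqrt X ∧ p ∣ n + h) with hS2
  set S3 := (Finset.Ioc X (2 * X)).filter (fun n => ∃ p q : ℕ, p.Prime ∧ q.Prime ∧ q < p ∧
      (p:ℝ) ≤ LL a N * q ∧ Real.sqrt X * Real.exp (u ^ 4) < p ∧ p ∣ n + h ∧ q ∣ n + h') with hS3
  have hsub : (Finset.Ioc X (2 * X)).filter (fun n => Close (zz N) (LL a N) (n + h) (n + h')) ⊆
      S1 ∪ (S2 ∪ S3) := by
    intro n hn
    rw [Finset.mem_filter] at hn
    obtain ⟨hnX, p, q, hp, hq, hqp, hzp, hpL, hpn, hqn⟩ := hn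
    rw [Finset.mem_union, Finset.mem_union]
    by_cases hpq : p * q ≤ X
    · left
      rw [hS1, Finset.mem_filter]
      exact ⟨hnX, p, q, hp, hq, hqp, hzp, hpL, hpq, hpn, hqn⟩
    · right
      push Not at hpq
      have hpX : Real.sqrt X < p := by
        rw [Real.sqrt_lt' (by exact_mod_cast hp.pos)]
        have h10 : X < p ^ 2 := by nlinarith
        exact_mod_cast h10
      by_cases hpY : (p:ℝ) ≤ Real.exp (u ^ 4) * Real.sqrt X
      · left
        rw [hS2, Finset.mem_filter]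
        exact ⟨hnX, p, hp, hpX, hpY, hpn⟩
      · right
        push Not at hpY
        rw [hS3, Finset.mem_filter]
        exact ⟨hnX, p, q, hp, hq, hqp, hpL, by rw [mul_comm]; exact hpY, hpn, hqn⟩
  have hcard : (((Finset.Ioc X (2 * X)).filter
      (fun n => Close (zz N) (LL a N) (n + h) (n + h'))).card : ℝ) ≤
      (S1.card : ℝ) + ((S2.card : ℝ) + (S3.card : ℝ)) := by
    have h10 := (Finset.card_le_card hsub).trans (Finset.card_union_le _ _)
    have h11 := Finset.card_union_le S2 S3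
    have h12 : ((Finset.Ioc X (2 * X)).filter
      (fun n => Close (zz N) (LL a N) (n + h) (n + h'))).card ≤ S1.card + (S2.card + S3.card) := by
      omega
    exact_mod_cast h12
  refine hcard.trans ?_
  have ht1 : (S1.card : ℝ) ≤ 128 * (a + 2) * X / lam N ^ 4 := by
    refine hs1.trans ?_
    rw [hlamN]
    exact hc1
  have ht2 : (S2.card : ℝ) ≤ X / lam N ^ 4 := by
    rw [hlamN]
    exact hs2.trans hc2
  have ht3 : (S3.card : ℝ) ≤ X / lam N ^ 4 := by
    rw [hlamN]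
    exact hs3.trans hc3
  calc (S1.card : ℝ) + ((S2.card : ℝ) + (S3.card : ℝ))
      ≤ 128 * (a + 2) * X / lam N ^ 4 + (X / lam N ^ 4 + X / lam N ^ 4) := by gcongr
    _ = (128 * (a + 2) + 2) * X / lam N ^ 4 := by ring

end Pool.Agent.Lib.P4a7640M
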