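import Mathlib
import Pool.Agent.Lib.P4a7640M.Base
import Pool.Agent.Lib.P4a7640M.Cheb

/-!
# Close pairs of prime factors: one shift
-/

open Finset Filter

namespace Pool.Agent.Lib.P4a7640M

open Pool.Agent.Lib.P4a7640

private lemma sum_biUnion_le_aux {ι : Type*} [DecidableEq ι] (S : Finset ι) (t : ι → Finset ℕ)
    (f : ℕ → ℝ) (hf : ∀ n, 0 ≤ f n) :
    ∑ n ∈ S.biUnion t, f n ≤ ∑ x ∈ S, ∑ n ∈ t x, f n := by
  induction S using Finset.induction_on with
  | empty => simp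
  | insert x S hx ih =>
    rw [Finset.biUnion_insert, Finset.sum_insert hx]
    have h1 := Finset.sum_union_inter (s₁ := t x) (s₂ := S.biUnion t) (f := f)
    have h2 : 0 ≤ ∑ n ∈ t x ∩ S.biUnion t, f n := Finset.sum_nonneg fun n _ => hf n
    linarith

open Classical in
/-- Same shift. Proof: if `p, q ∣ n + h` then `p q ∣ n + h`; `P4a7640.UU_le` and
`sum_close_pairs` give the bound `64 (1 + log (2 L))/log (zz N) * (log N + CH hm)`. -/
theorem close_same (hm a : ℕ) : ∃ C : ℝ, 0 < C ∧ ∀ᶠ N : ℕ in atTop, ∀ h ≤ hm,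
    ∑ n ∈ (Finset.Icc 1 N).filter (fun n => Close (zz N) (LL a N) (n + h) (n + h)),
      (1:ℝ) / n ≤ C * Real.log N / lam N ^ 4 := by
  refine ⟨128 * (2 + a), by positivity, ?_⟩
  have hlogN : Tendsto (fun N : ℕ => Real.log (N:ℝ)) atTop atTop :=
    Real.tendsto_log_atTop.comp tendsto_natCast_atTop_atTop
  have hlam : Tendsto (fun N : ℕ => lam N) atTop atTop :=
    Real.tendsto_log_atTop.comp hlogN
  filter_upwards [eventually_ge_atTop 1, hlogN.eventually_ge_atTop (CH hm),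
    hlogN.eventually_ge_atTop 1, hlam.eventually_ge_atTop 1,
    hlam.eventually_ge_atTop (2 + 2 * a), hlam.eventually_ge_atTop (2 * hm)]
    with N hN h1 h2 h3 h4 h5 h hh
  set l := lam N with hl
  have hlogpos : 0 < Real.log (N:ℝ) := by linarith
  have hexpl : Real.exp l = Real.log (N:ℝ) := by
    rw [hl, lam, Real.exp_log hlogpos]
  have hLL : LL a N = Real.exp (a * l) := by
    rw [LL, ← hexpl, ← Real.exp_nat_mul]
  have hl0 : 0 < l := by linarith
  have hl4 : 1 ≤ l ^ 4 := one_le_pow₀ h3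
  have hl44 : l ≤ l ^ 4 := by
    calc l = l ^ 1 := (pow_one l).symm
      _ ≤ l ^ 4 := pow_le_pow_right₀ h3 (by norm_num)
  have hl5 : l ≤ l ^ 5 := by
    calc l = l ^ 1 := (pow_one l).symm
      _ ≤ l ^ 5 := pow_le_pow_right₀ h3 (by norm_num)
  have hz : zz N = Real.exp (l ^ 5) := rfl
  have hlogz : Real.log (zz N) = l ^ 5 := by rw [hz, Real.log_exp]
  have hL1 : 1 ≤ LL a N := by
    rw [hLL]
    exact Real.one_le_exp (by positivity)
  have hlog2 : Real.log 2 ≤ 1 := by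
    have := Real.log_le_sub_one_of_pos (show (0:ℝ) < 2 by norm_num)
    linarith
  have hlog2L : Real.log (2 * LL a N) = Real.log 2 + a * l := by
    rw [Real.log_mul (by norm_num) (by positivity), hLL, Real.log_exp]
  have h2L : (2 * LL a N) ^ 2 ≤ zz N := by
    have hpos : 0 < 2 * LL a N := by positivity
    rw [← Real.exp_log (show 0 < (2 * LL a N) ^ 2 by positivity), hz, Real.exp_le_exp,
      Real.log_pow, hlog2L]
    push_cast
    have e1 : (2 + 2 * (a:ℝ)) * l ≤ l ^ 4 * l := by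
      have : 2 + 2 * (a:ℝ) ≤ l ^ 4 := by linarith
      exact mul_le_mul_of_nonneg_right this hl0.le
    have e2 : l ^ 5 = l ^ 4 * l := by ring
    rw [e2]
    nlinarith
  have hzhm : 2 * (hm:ℝ) ≤ zz N := by
    have := Real.add_one_le_exp (l ^ 5)
    rw [hz]
    linarith
  -- pairs
  set S : Finset (ℕ × ℕ) := ((Finset.range (N + h + 1)) ×ˢ (Finset.range (N + h + 1))).filter
    (fun x => x.1.Prime ∧ x.2.Prime ∧ x.2 < x.1 ∧ zz N < x.1 ∧ (x.1:ℝ) ≤ LL a N * x.2) with hS
  have hSp : ∀ x ∈ S, x.1.Prime ∧ x.2.Prime ∧ x.2 < x.1 ∧ zz N < x.1 ∧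
      (x.1:ℝ) ≤ LL a N * x.2 := fun x hx => (Finset.mem_filter.mp hx).2
  have hsum := sum_close_pairs hL1 h2L S hSp
  have hsub : (Finset.Icc 1 N).filter (fun n => Close (zz N) (LL a N) (n + h) (n + h)) ⊆
      S.biUnion (fun x => (Finset.Icc 1 N).filter (fun n => x.1 * x.2 ∣ n + h)) := by
    intro n hn
    rw [Finset.mem_filter] at hn
    obtain ⟨hn1, p, q, hp, hq, hqp, hzp, hpq, hpn, hqn⟩ := hn
    have hn2 := Finset.mem_Icc.mp hn1
    rw [Finset.mem_biUnion]
    refine ⟨(p, q), ?_, ?_⟩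
    · rw [hS, Finset.mem_filter, Finset.mem_product, Finset.mem_range, Finset.mem_range]
      have hp1 : p ≤ n + h := Nat.le_of_dvd (by omega) hpn
      have hq1 : q ≤ n + h := Nat.le_of_dvd (by omega) hqn
      refine ⟨⟨?_, ?_⟩, hp, hq, hqp, hzp, hpq⟩
      · show p < N + h + 1
        omega
      · show q < N + h + 1
        omega
    · rw [Finset.mem_filter]
      refine ⟨hn1, ?_⟩
      exact Nat.Coprime.mul_dvd_of_dvd_of_dvd ((Nat.coprime_primes hp hq).mpr (by omega)) hpn hqn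
  have hstep : ∀ x ∈ S, UU N h (x.1 * x.2) ≤
      1 / ((x.1:ℝ) * x.2) * (Real.log N + CH hm) := by
    intro x hx
    obtain ⟨hp, hq, hqp, hzp, hpq⟩ := hSp x hx
    have hp2 : 2 * h ≤ x.1 * x.2 := by
      have e1 : (2 * hm : ℝ) < x.1 := lt_of_le_of_lt hzhm hzp
      have e2 : 2 * hm < x.1 := by exact_mod_cast e1
      have e3 : x.1 * 1 ≤ x.1 * x.2 := Nat.mul_le_mul_left _ hq.one_lt.le
      omega
    have e4 := UU_le (N := N) (h := h) hN (show 1 ≤ x.1 * x.2 from Nat.mul_pos hp.pos hq.pos) hp2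
    push_cast at e4
    refine e4.trans ?_
    have e5 : CH h ≤ CH hm := CH_mono hh
    have e6 : (0:ℝ) ≤ 1 / ((x.1:ℝ) * x.2) := by positivity
    exact mul_le_mul_of_nonneg_left (by linarith) e6
  have hR : 0 ≤ Real.log (N:ℝ) + CH hm := by
    have := CH_pos hm
    linarith
  calc ∑ n ∈ (Finset.Icc 1 N).filter (fun n => Close (zz N) (LL a N) (n + h) (n + h)), (1:ℝ) / n
      ≤ ∑ n ∈ S.biUnion (fun x => (Finset.Icc 1 N).filter (fun n => x.1 * x.2 ∣ n + h)),
        (1:ℝ) / n := Finset.sum_le_sum_of_subset_of_nonneg hsub (fun _ _ _ => by positivity)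
    _ ≤ ∑ x ∈ S, ∑ n ∈ (Finset.Icc 1 N).filter (fun n => x.1 * x.2 ∣ n + h), (1:ℝ) / n := by
        exact sum_biUnion_le_aux S _ (fun n : ℕ => (1:ℝ) / n) (fun _ => by positivity)
    _ ≤ ∑ x ∈ S, 1 / ((x.1:ℝ) * x.2) * (Real.log N + CH hm) := Finset.sum_le_sum hstep
    _ = (∑ x ∈ S, 1 / ((x.1:ℝ) * x.2)) * (Real.log N + CH hm) := by rw [Finset.sum_mul]
    _ ≤ (64 * (1 + Real.log (2 * LL a N)) / Real.log (zz N)) * (Real.log N + CH hm) :=
        mul_le_mul_of_nonneg_right hsum hR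
    _ ≤ (64 * ((2 + a) * l) / l ^ 5) * (2 * Real.log N) := by
        have hb : (64 * (1 + Real.log (2 * LL a N)) / Real.log (zz N)) ≤
            64 * ((2 + a) * l) / l ^ 5 := by
          rw [hlogz]
          apply div_le_div_of_nonneg_right _ (by positivity)
          rw [hlog2L]
          nlinarith
        have hb2 : Real.log N + CH hm ≤ 2 * Real.log N := by linarith
        exact mul_le_mul hb hb2 hR (by positivity)
    _ = 128 * (2 + a) * Real.log N / l ^ 4 := by
        field_simp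
        ring

end Pool.Agent.Lib.P4a7640M
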