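import Mathlib
import Pool.Agent.Lib.P4a7640M.Base
import Pool.Agent.Lib.P4a7640M.CloseDy
import Pool.Agent.Lib.P4a7640M.CloseSame

/-!
# Close pairs of prime factors: logarithmic density
-/

open Finset Filter

namespace Pool.Agent.Lib.P4a7640M

open Pool.Agent.Lib.P4a7640

lemma co_tendsto_log : Tendsto (fun N : ℕ => Real.log N) atTop atTop :=
  Real.tendsto_log_atTop.comp tendsto_natCast_atTop_atTop

lemma co_asymp : ∀ᶠ x : ℝ in atTop, (2 + x ^ ((5:ℝ)/6)) * Real.log x ^ 4 ≤ x := by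
  have h1 := (isLittleO_log_rpow_rpow_atTop (4:ℝ) (show (0:ℝ) < 1/12 by norm_num)).bound
    (show (0:ℝ) < 1 by norm_num)
  have h2 : ∀ᶠ x : ℝ in atTop, (3:ℝ) ≤ x ^ ((1:ℝ)/12) :=
    (tendsto_rpow_atTop (show (0:ℝ) < 1/12 by norm_num)).eventually_ge_atTop 3
  filter_upwards [h1, h2, eventually_ge_atTop (1:ℝ)] with x hx1 hx2 hx3
  have hx0 : 0 < x := by linarith
  have hl : 0 ≤ Real.log x := Real.log_nonneg hx3
  have e1 : Real.log x ^ (4:ℝ) = Real.log x ^ 4 := by
    rw [← Real.rpow_natCast]; norm_num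
  rw [e1, Real.norm_of_nonneg (by positivity), Real.norm_of_nonneg (by positivity), one_mul] at hx1
  have h56 : (1:ℝ) ≤ x ^ ((5:ℝ)/6) := Real.one_le_rpow hx3 (by norm_num)
  have hA : 0 < x ^ ((5:ℝ)/6) := by linarith
  have hB : 0 < x ^ ((1:ℝ)/12) := by linarith
  calc (2 + x ^ ((5:ℝ)/6)) * Real.log x ^ 4 ≤ (3 * x ^ ((5:ℝ)/6)) * x ^ ((1:ℝ)/12) := by
        apply mul_le_mul _ hx1 (by positivity) (by positivity)
        linarith
    _ ≤ (x ^ ((1:ℝ)/12) * x ^ ((5:ℝ)/6)) * x ^ ((1:ℝ)/12) := by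
        apply mul_le_mul_of_nonneg_right _ hB.le
        exact mul_le_mul_of_nonneg_right hx2 hA.le
    _ = x := by
        rw [← Real.rpow_add hx0, ← Real.rpow_add hx0]
        norm_num

lemma co_harm (X : ℕ) : ∑ n ∈ Finset.Icc 1 X, (1:ℝ)/n ≤ 1 + Real.log X := by
  have h := harmonic_le_one_add_log X
  rw [harmonic_eq_sum_Icc] at h
  push_cast at h
  simpa only [one_div] using h

open Classical in
/-- the sum over one block -/
lemma co_block (p : ℕ → Prop) {X : ℕ} (hX : 1 ≤ X) {K : ℝ}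
    (h : (((Finset.Ioc X (2 * X)).filter p).card : ℝ) ≤ K * X) (N : ℕ) :
    ∑ n ∈ Finset.Icc 1 N, (if n ∈ (Finset.Ioc X (2 * X)).filter p then (1:ℝ)/n else 0) ≤ K := by
  have hX0 : (0:ℝ) < X := by exact_mod_cast hX
  rw [← Finset.sum_filter]
  have hsub : (Finset.Icc 1 N).filter (fun n => n ∈ (Finset.Ioc X (2 * X)).filter p) ⊆
      (Finset.Ioc X (2 * X)).filter p := by
    intro n hn
    exact (Finset.mem_filter.1 hn).2
  calc ∑ n ∈ (Finset.Icc 1 N).filter (fun n => n ∈ (Finset.Ioc X (2 * X)).filter p), (1:ℝ)/n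
      ≤ ∑ n ∈ (Finset.Ioc X (2 * X)).filter p, (1:ℝ)/n := by
        apply Finset.sum_le_sum_of_subset_of_nonneg hsub
        intro n _ _
        positivity
    _ ≤ ∑ n ∈ (Finset.Ioc X (2 * X)).filter p, (1:ℝ)/X := by
        apply Finset.sum_le_sum
        intro n hn
        rw [Finset.mem_filter, Finset.mem_Ioc] at hn
        apply one_div_le_one_div_of_le hX0
        exact_mod_cast hn.1.1.le
    _ = (((Finset.Ioc X (2 * X)).filter p).card : ℝ) / X := by
        rw [Finset.sum_const, nsmul_eq_mul]; ring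
    _ ≤ K * X / X := div_le_div_of_nonneg_right h hX0.le
    _ = K := by field_simp

open Classical in
/-- splitting into blocks -/
lemma co_split (p : ℕ → Prop) {X₀ N : ℕ} (hX : 1 ≤ X₀) {K : ℝ} (hK : 0 ≤ K)
    (h : ∀ X : ℕ, X₀ ≤ X → X ≤ N → (((Finset.Ioc X (2 * X)).filter p).card : ℝ) ≤ K * X) :
    ∑ n ∈ (Finset.Icc 1 N).filter p, (1:ℝ)/n ≤ 1 + Real.log X₀ + (Nat.log 2 N + 1 : ℕ) * K := by
  set J : Finset ℕ := (Finset.range (Nat.log 2 N + 1)).filter (fun j => 2^j * X₀ ≤ N) with hJ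
  have key : ∀ n ∈ Finset.Icc 1 N, (if p n then (1:ℝ)/n else 0) ≤
      (if n ≤ X₀ then (1:ℝ)/n else 0) + ∑ j ∈ J,
        (if n ∈ (Finset.Ioc (2^j * X₀) (2 * (2^j * X₀))).filter p then (1:ℝ)/n else 0) := by
    intro n hn
    rw [Finset.mem_Icc] at hn
    have hnn : (0:ℝ) ≤ 1/n := by positivity
    have hs0 : 0 ≤ ∑ j ∈ J,
        (if n ∈ (Finset.Ioc (2^j * X₀) (2 * (2^j * X₀))).filter p then (1:ℝ)/n else 0) := by
      apply Finset.sum_nonneg
      intro j _
      split_ifs <;> linarith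
    by_cases hp : p n
    · rw [if_pos hp]
      by_cases hx : n ≤ X₀
      · rw [if_pos hx]; linarith
      · rw [if_neg hx, zero_add]
        push Not at hx
        set j := Nat.log 2 ((n-1)/X₀) with hj
        have hq : (n-1)/X₀ ≠ 0 := by
          have : 1 ≤ (n-1)/X₀ := by
            rw [Nat.le_div_iff_mul_le (by omega)]
            omega
          omega
        have h1 : 2^j ≤ (n-1)/X₀ := Nat.pow_log_le_self 2 hq
        have h2 : (n-1)/X₀ < 2^(j+1) := Nat.lt_pow_succ_log_self (by norm_num) _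
        have h3 : 2^j * X₀ ≤ n - 1 := (Nat.le_div_iff_mul_le (by omega)).1 h1
        have h4 : n - 1 < 2^(j+1) * X₀ := (Nat.div_lt_iff_lt_mul (by omega)).1 h2
        have h5 : 2^(j+1) * X₀ = 2 * (2^j * X₀) := by ring
        have hjJ : j ∈ J := by
          rw [hJ, Finset.mem_filter, Finset.mem_range]
          have hle : 2^j ≤ N := by
            calc 2^j ≤ 2^j * X₀ := Nat.le_mul_of_pos_right _ (by omega)
              _ ≤ N := by omega
          refine ⟨?_, by omega⟩
          have := Nat.le_log_of_pow_le (by norm_num : 1 < 2) hle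
          omega
        have hmem : n ∈ (Finset.Ioc (2^j * X₀) (2 * (2^j * X₀))).filter p := by
          rw [Finset.mem_filter, Finset.mem_Ioc]
          exact ⟨by omega, hp⟩
        calc (1:ℝ)/n = (if n ∈ (Finset.Ioc (2^j * X₀) (2 * (2^j * X₀))).filter p
              then (1:ℝ)/n else 0) := by rw [if_pos hmem]
          _ ≤ _ := by
            apply Finset.single_le_sum (f := fun j => (if n ∈ (Finset.Ioc (2^j * X₀)
              (2 * (2^j * X₀))).filter p then (1:ℝ)/n else 0)) _ hjJ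
            intro i _
            split_ifs <;> simp
    · rw [if_neg hp]
      have : (0:ℝ) ≤ (if n ≤ X₀ then (1:ℝ)/n else 0) := by split_ifs <;> simp
      linarith
  rw [Finset.sum_filter]
  refine (Finset.sum_le_sum key).trans ?_
  rw [Finset.sum_add_distrib]
  apply add_le_add
  · rw [← Finset.sum_filter]
    refine le_trans (Finset.sum_le_sum_of_subset_of_nonneg (t := Finset.Icc 1 X₀) ?_ ?_)
      (co_harm X₀)
    · intro n hn
      rw [Finset.mem_filter, Finset.mem_Icc] at hn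
      rw [Finset.mem_Icc]
      exact ⟨hn.1.1, hn.2⟩
    · intro n _ _
      positivity
  · rw [Finset.sum_comm]
    calc _ ≤ ∑ j ∈ J, K := by
          apply Finset.sum_le_sum
          intro j hj
          rw [hJ, Finset.mem_filter] at hj
          have h1 : 1 ≤ 2^j := Nat.one_le_two_pow
          have h2 : X₀ ≤ 2^j * X₀ := Nat.le_mul_of_pos_left _ (by omega)
          exact co_block p (by omega) (h _ h2 hj.2) N
      _ = (J.card : ℝ) * K := by rw [Finset.sum_const, nsmul_eq_mul]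
      _ ≤ _ := by
          apply mul_le_mul_of_nonneg_right _ hK
          have h1 : J.card ≤ Nat.log 2 N + 1 := by
            calc J.card ≤ (Finset.range (Nat.log 2 N + 1)).card := Finset.card_filter_le _ _
              _ = _ := Finset.card_range _
          exact_mod_cast h1

open Classical in
/-- Proof. `h = h'` is `close_same`. For `h ≠ h'` let `X₀ = ⌈exp (l^(5/6))⌉₊`, `l = log N`. The `n ≤ X₀`
contribute at most `1 + log X₀ ≤ l/(lam N)^4` for large `N`; the others lie in the blocks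
`(2^j X₀, 2^(j+1) X₀]` with `2^j X₀ ≤ N`; there are at most `log N/log 2 + 1` such `j`, and each
contributes at most `C/(lam N)^4` by `close_dyadic`. -/
theorem close_one (hm a : ℕ) : ∃ C : ℝ, 0 < C ∧ ∀ᶠ N : ℕ in atTop, ∀ h ≤ hm, ∀ h' ≤ hm,
    ∑ n ∈ (Finset.Icc 1 N).filter (fun n => Close (zz N) (LL a N) (n + h) (n + h')),
      (1:ℝ) / n ≤ C * Real.log N / lam N ^ 4 := by
  obtain ⟨C1, hC1, h1⟩ := close_same hm a
  obtain ⟨C2, hC2, h2⟩ := close_dyadic hm a
  refine ⟨C1 + 1 + 3 * C2, by positivity, ?_⟩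
  have hlam : ∀ᶠ N : ℕ in atTop, 1 ≤ lam N :=
    (Real.tendsto_log_atTop.comp co_tendsto_log).eventually_ge_atTop 1
  filter_upwards [h1, h2, co_tendsto_log.eventually co_asymp,
    co_tendsto_log.eventually_ge_atTop 2, hlam, eventually_ge_atTop 1] with N hN1 hN2 hN3 hN4 hN5 hN6
  intro h hh h' hh'
  set l := Real.log N with hl
  have hlam4 : 0 < lam N ^ 4 := by positivity
  have hl0 : 0 < l := by linarith
  have hq : 0 < l / lam N ^ 4 := by positivity
  by_cases heq : h = h'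
  · subst heq
    refine (hN1 h hh).trans ?_
    have : C1 * l / lam N ^ 4 = C1 * (l / lam N ^ 4) := by ring
    rw [this, show (C1 + 1 + 3 * C2) * l / lam N ^ 4 = (C1 + 1 + 3 * C2) * (l / lam N ^ 4) by ring]
    apply mul_le_mul_of_nonneg_right _ hq.le
    linarith
  · set X₀ : ℕ := ⌈Real.exp (l ^ ((5:ℝ)/6))⌉₊ with hX₀
    have hXge : Real.exp (l ^ ((5:ℝ)/6)) ≤ X₀ := Nat.le_ceil _
    have hXlt : (X₀:ℝ) < Real.exp (l ^ ((5:ℝ)/6)) + 1 := Nat.ceil_lt_add_one (Real.exp_pos _).le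
    have hX1 : (1:ℝ) ≤ Real.exp (l ^ ((5:ℝ)/6)) := Real.one_le_exp (by positivity)
    have hX1' : 1 ≤ X₀ := by
      have : (1:ℝ) ≤ X₀ := hX1.trans hXge
      exact_mod_cast this
    have hX0 : (0:ℝ) < X₀ := by exact_mod_cast hX1'
    have hlogX : Real.log X₀ ≤ l ^ ((5:ℝ)/6) + 1 := by
      have e1 : (X₀:ℝ) ≤ 2 * Real.exp (l ^ ((5:ℝ)/6)) := by linarith
      have e2 := Real.log_le_log hX0 e1
      rw [Real.log_mul (by norm_num) (Real.exp_pos _).ne', Real.log_exp] at e2
      have := Real.log_two_lt_d9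
      linarith
    have hK : 0 ≤ C2 / lam N ^ 4 := by positivity
    have hsplit := co_split (fun n => Close (zz N) (LL a N) (n + h) (n + h')) hX1' (N := N)
      (K := C2 / lam N ^ 4) hK (by
        intro X hX hXN
        have := hN2 h hh h' hh' heq X (hXge.trans (by exact_mod_cast hX)) hXN
        calc _ ≤ C2 * X / lam N ^ 4 := this
          _ = _ := by ring)
    refine hsplit.trans ?_
    have hJ : ((Nat.log 2 N + 1 : ℕ) : ℝ) ≤ 3 * l := by
      have e1 : (2:ℝ) ^ (Nat.log 2 N) ≤ N := by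
        exact_mod_cast Nat.pow_log_le_self 2 (by omega)
      have e2 := Real.log_le_log (by positivity) e1
      rw [Real.log_pow] at e2
      have e3 := Real.log_two_gt_d9
      have e4 : (0:ℝ) ≤ (Nat.log 2 N : ℝ) := Nat.cast_nonneg _
      push_cast
      nlinarith
    have hA : 1 + Real.log X₀ ≤ l / lam N ^ 4 := by
      rw [le_div_iff₀ hlam4]
      calc (1 + Real.log X₀) * lam N ^ 4 ≤ (2 + l ^ ((5:ℝ)/6)) * lam N ^ 4 := by
            apply mul_le_mul_of_nonneg_right _ hlam4.le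
            linarith
        _ ≤ l := hN3
    have hB : ((Nat.log 2 N + 1 : ℕ) : ℝ) * (C2 / lam N ^ 4) ≤ 3 * C2 * (l / lam N ^ 4) := by
      calc ((Nat.log 2 N + 1 : ℕ) : ℝ) * (C2 / lam N ^ 4) ≤ (3 * l) * (C2 / lam N ^ 4) :=
            mul_le_mul_of_nonneg_right hJ hK
        _ = _ := by ring
    have e : (C1 + 1 + 3 * C2) * l / lam N ^ 4 = C1 * (l / lam N ^ 4) + l / lam N ^ 4
        + 3 * C2 * (l / lam N ^ 4) := by ring
    rw [e]
    have : 0 ≤ C1 * (l / lam N ^ 4) := by positivity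
    linarith

end Pool.Agent.Lib.P4a7640M
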