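import Mathlib
import Pool.Agent.Lib.P4a7640M.Base
import Pool.Agent.Lib.P4a7640M.Cheb

/-!
# Close or common prime factors of two independent integers
-/

open Finset Filter

namespace Pool.Agent.Lib.P4a7640M

open Pool.Agent.Lib.P4a7640

lemma tendsto_log_nat_ct : Tendsto (fun N : ℕ => Real.log N) atTop atTop :=
  Real.tendsto_log_atTop.comp tendsto_natCast_atTop_atTop

lemma tendsto_lam_ct : Tendsto lam atTop atTop :=
  Real.tendsto_log_atTop.comp tendsto_log_nat_ct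

/-- the parameters are eventually in their natural ranges -/
lemma eventually_params_ct (hm a : ℕ) : ∀ᶠ N : ℕ in atTop, 1 ≤ N ∧ 1 ≤ lam N ∧
    1 ≤ LL a N ∧ (2 * LL a N) ^ 2 ≤ zz N ∧ 2 * (hm:ℝ) * LL a N ≤ zz N ∧ 2 ≤ zz N ∧
    2 * (hm:ℝ) ≤ zz N ∧ (∀ h ≤ hm, CH h ≤ Real.log N) ∧ LL a N = Real.exp (a * lam N) := by
  have h1 : ∀ᶠ N : ℕ in atTop, CH hm ≤ Real.log N := tendsto_log_nat_ct.eventually_ge_atTop _
  have h2 : ∀ᶠ N : ℕ in atTop, 2 * (a:ℝ) + 2 + Real.log (1 + 2 * hm) ≤ lam N :=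
    tendsto_lam_ct.eventually_ge_atTop _
  have h3 : ∀ᶠ N : ℕ in atTop, 1 ≤ Real.log N := tendsto_log_nat_ct.eventually_ge_atTop _
  filter_upwards [h1, h2, h3, eventually_ge_atTop 1] with N h1 h2 h3 h4
  have hhm : (0:ℝ) ≤ hm := Nat.cast_nonneg hm
  have ha : (0:ℝ) ≤ a := Nat.cast_nonneg a
  have hlhm : 0 ≤ Real.log (1 + 2 * hm) := Real.log_nonneg (by linarith)
  have hlam : 1 ≤ lam N := by linarith
  have hLL : LL a N = Real.exp (a * lam N) := by
    unfold LL lam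
    rw [mul_comm, Real.exp_mul, Real.exp_log (by linarith), Real.rpow_natCast]
  have hL1 : 1 ≤ LL a N := by
    rw [hLL]
    exact Real.one_le_exp (by positivity)
  have hpow : lam N ^ 2 ≤ lam N ^ 5 := pow_le_pow_right₀ hlam (by norm_num)
  have hl2 : (2 * (a:ℝ) + 2 + Real.log (1 + 2 * hm)) * lam N ≤ lam N ^ 2 := by
    rw [sq]
    exact mul_le_mul_of_nonneg_right h2 (by linarith)
  have e2 : Real.exp 2 ≥ 4 := by
    have := Real.add_one_le_exp (1:ℝ)
    have h : Real.exp 2 = Real.exp 1 * Real.exp 1 := by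
      rw [← Real.exp_add]; norm_num
    rw [h]
    nlinarith
  have hz1 : (2 * LL a N) ^ 2 ≤ zz N := by
    calc (2 * LL a N) ^ 2 = 4 * Real.exp (2 * a * lam N) := by
          rw [hLL, mul_pow, ← Real.exp_nat_mul]
          norm_num
          ring_nf
      _ ≤ Real.exp 2 * Real.exp (2 * a * lam N) :=
          mul_le_mul_of_nonneg_right e2 (Real.exp_pos _).le
      _ = Real.exp (2 + 2 * a * lam N) := by rw [← Real.exp_add]
      _ ≤ zz N := by
          unfold zz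
          apply Real.exp_le_exp.2
          nlinarith [mul_nonneg hlhm (show 0 ≤ lam N by linarith)]
  have hz2 : 2 * (hm:ℝ) * LL a N ≤ zz N := by
    calc 2 * (hm:ℝ) * LL a N ≤ (1 + 2 * hm) * LL a N :=
          mul_le_mul_of_nonneg_right (by linarith) (by linarith)
      _ = Real.exp (Real.log (1 + 2 * hm) + a * lam N) := by
          rw [Real.exp_add, Real.exp_log (by linarith), hLL]
      _ ≤ zz N := by
          unfold zz
          apply Real.exp_le_exp.2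
          have h5 : Real.log (1 + 2 * hm) ≤ Real.log (1 + 2 * hm) * lam N :=
            le_mul_of_one_le_right hlhm hlam
          nlinarith [mul_nonneg ha (show 0 ≤ lam N by linarith)]
  have hz3 : 2 ≤ zz N := by
    have : (4:ℝ) ≤ (2 * LL a N) ^ 2 := by nlinarith
    linarith
  have hz4 : 2 * (hm:ℝ) ≤ zz N := by
    have : 2 * (hm:ℝ) * 1 ≤ 2 * (hm:ℝ) * LL a N :=
      mul_le_mul_of_nonneg_left hL1 (by positivity)
    linarith
  refine ⟨h4, hlam, hL1, hz1, hz2, hz3, hz4, ?_, hLL⟩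
  intro h hh
  refine le_trans ?_ h1
  unfold CH
  have hh' : (h:ℝ) ≤ hm := by exact_mod_cast hh
  have : (0:ℝ) ≤ h := Nat.cast_nonneg h
  have := Real.log_le_log (show (0:ℝ) < 1 + h by linarith) (show (1:ℝ) + h ≤ 1 + hm by linarith)
  linarith

lemma UU_le_two_ct {N h d : ℕ} (hN : 1 ≤ N) (hd : 1 ≤ d) (hh : 2 * h ≤ d)
    (hc : CH h ≤ Real.log N) : UU N h d ≤ 2 * Real.log N * (1 / d) := by
  have h1 := UU_le hN hd hh
  have h2 : (1:ℝ) / d * (Real.log N + CH h) ≤ 1 / d * (2 * Real.log N) :=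
    mul_le_mul_of_nonneg_left (by linarith) (by positivity)
  linarith

lemma UU_nonneg_ct (N h d : ℕ) : 0 ≤ UU N h d := by
  unfold UU
  exact Finset.sum_nonneg fun _ _ => by positivity

open Classical in
/-- union bound over pairs -/
lemma sum_pairs_le_ct (N h h' : ℕ) (R : ℕ → ℕ → Prop) (s : Finset (ℕ × ℕ))
    (hs : ∀ n n', 1 ≤ n → n ≤ N → 1 ≤ n' → n' ≤ N → R n n' →
      ∃ x ∈ s, x.1 ∣ n + h ∧ x.2 ∣ n' + h') :
    ∑ n ∈ Finset.Icc 1 N, ∑ n' ∈ (Finset.Icc 1 N).filter (fun n' => R n n'),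
      (1:ℝ) / n * (1 / n') ≤ ∑ x ∈ s, UU N h x.1 * UU N h' x.2 := by
  have h1 : ∑ x ∈ s, UU N h x.1 * UU N h' x.2 =
      ∑ n ∈ Finset.Icc 1 N, ∑ n' ∈ Finset.Icc 1 N, ∑ x ∈ s,
        (if x.1 ∣ n + h then (1:ℝ) / n else 0) * (if x.2 ∣ n' + h' then (1:ℝ) / n' else 0) := by
    have h2 : ∀ x ∈ s, UU N h x.1 * UU N h' x.2 = ∑ n ∈ Finset.Icc 1 N, ∑ n' ∈ Finset.Icc 1 N,
        (if x.1 ∣ n + h then (1:ℝ) / n else 0) * (if x.2 ∣ n' + h' then (1:ℝ) / n' else 0) := by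
      intro x _
      unfold UU
      rw [Finset.sum_filter, Finset.sum_filter, Finset.sum_mul_sum]
    rw [Finset.sum_congr rfl h2, Finset.sum_comm]
    refine Finset.sum_congr rfl fun n _ => ?_
    rw [Finset.sum_comm]
  rw [h1]
  apply Finset.sum_le_sum
  intro n hn
  rw [Finset.sum_filter]
  apply Finset.sum_le_sum
  intro n' hn'
  rw [Finset.mem_Icc] at hn hn'
  have hnn : ∀ x ∈ s, 0 ≤ (if x.1 ∣ n + h then (1:ℝ) / n else 0) *
      (if x.2 ∣ n' + h' then (1:ℝ) / n' else 0) := by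
    intro x _
    apply mul_nonneg
    · split_ifs
      · positivity
      · exact le_refl 0
    · split_ifs
      · positivity
      · exact le_refl 0
  split_ifs with hR
  · obtain ⟨x, hx, hx1, hx2⟩ := hs n n' hn.1 hn.2 hn'.1 hn'.2 hR
    refine le_trans (le_of_eq ?_) (Finset.single_le_sum hnn hx)
    rw [if_pos hx1, if_pos hx2]
  · exact Finset.sum_nonneg hnn

open Classical in
/-- Proof: the sum is at most `∑_{(p,q)} UU N h p * UU N h' q` over the close pairs of primes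
`p, q ≤ N + hm`, `p > zz N`, `q ≥ p/L`; use `P4a7640.UU_le` (`q ≥ zz N/L ≥ 2 hm` for large `N`) and
`sum_close_pairs`. -/
theorem close_two (hm a : ℕ) : ∃ C : ℝ, 0 < C ∧ ∀ᶠ N : ℕ in atTop, ∀ h ≤ hm, ∀ h' ≤ hm,
    ∑ n ∈ Finset.Icc 1 N, ∑ n' ∈ (Finset.Icc 1 N).filter
      (fun n' => Close (zz N) (LL a N) (n + h) (n' + h')), (1:ℝ) / n * (1 / n') ≤
      C * Real.log N ^ 2 / lam N ^ 4 := by
  refine ⟨256 * (2 + a), by positivity, ?_⟩
  filter_upwards [eventually_params_ct hm a] with N hN h hh h' hh'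
  obtain ⟨h1, hlam, hL1, hz1, hz2, hz3, hz4, hCH, hLL⟩ := hN
  set s : Finset (ℕ × ℕ) := ((Finset.Icc 1 (N + hm)) ×ˢ (Finset.Icc 1 (N + hm))).filter
    (fun x => x.1.Prime ∧ x.2.Prime ∧ x.2 < x.1 ∧ zz N < x.1 ∧ (x.1:ℝ) ≤ LL a N * x.2) with hs
  have hsm : ∀ x ∈ s, x.1.Prime ∧ x.2.Prime ∧ x.2 < x.1 ∧ zz N < x.1 ∧
      (x.1:ℝ) ≤ LL a N * x.2 := fun x hx => (Finset.mem_filter.1 hx).2
  have step1 := sum_pairs_le_ct N h h' (fun n n' => Close (zz N) (LL a N) (n + h) (n' + h')) s (by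
    intro n n' hn hnN hn' hn'N hR
    obtain ⟨p, q, hp, hq, hqp, hzp, hpq, hpn, hqn⟩ := hR
    refine ⟨(p, q), ?_, hpn, hqn⟩
    rw [hs, Finset.mem_filter, Finset.mem_product, Finset.mem_Icc, Finset.mem_Icc]
    have e1 := Nat.le_of_dvd (by omega) hpn
    have e2 := Nat.le_of_dvd (by omega) hqn
    exact ⟨⟨⟨hp.one_le, by dsimp only; omega⟩, ⟨hq.one_le, by dsimp only; omega⟩⟩,
      hp, hq, hqp, hzp, hpq⟩)
  have hlog : 0 ≤ Real.log N := Real.log_natCast_nonneg N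
  have step2 : ∑ x ∈ s, UU N h x.1 * UU N h' x.2 ≤
      4 * Real.log N ^ 2 * ∑ x ∈ s, 1 / ((x.1:ℝ) * x.2) := by
    rw [Finset.mul_sum]
    apply Finset.sum_le_sum
    intro x hx
    obtain ⟨hp, hq, hqp, hzp, hpq⟩ := hsm x hx
    have hL0 : 0 < LL a N := by linarith
    have d1 : 2 * h ≤ x.1 := by
      have : 2 * (h:ℝ) ≤ x.1 := by
        have : (h:ℝ) ≤ hm := by exact_mod_cast hh
        linarith
      exact_mod_cast this
    have d2 : 2 * h' ≤ x.2 := by
      have : 2 * (h':ℝ) ≤ x.2 := by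
        have e1 : (h':ℝ) ≤ hm := by exact_mod_cast hh'
        have e2 : 2 * (hm:ℝ) * LL a N < LL a N * x.2 := by linarith
        have e3 : 2 * (hm:ℝ) < x.2 := by
          rw [mul_comm (LL a N)] at e2
          exact lt_of_mul_lt_mul_right e2 hL0.le
        linarith
      exact_mod_cast this
    have u1 := UU_le_two_ct h1 hp.one_le d1 (hCH h hh)
    have u2 := UU_le_two_ct h1 hq.one_le d2 (hCH h' hh')
    calc UU N h x.1 * UU N h' x.2 ≤ (2 * Real.log N * (1 / x.1)) * (2 * Real.log N * (1 / x.2)) :=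
          mul_le_mul u1 u2 (UU_nonneg_ct _ _ _) (by positivity)
      _ = 4 * Real.log N ^ 2 * (1 / ((x.1:ℝ) * x.2)) := by
          simp only [one_div, mul_inv]
          ring
  have step3 := sum_close_pairs hL1 hz1 s hsm
  have hlz : Real.log (zz N) = lam N ^ 5 := by
    unfold zz
    rw [Real.log_exp]
  have hl2L : 1 + Real.log (2 * LL a N) ≤ (2 + a) * lam N := by
    rw [Real.log_mul (by norm_num) (by linarith), hLL, Real.log_exp]
    have : Real.log 2 ≤ 1 := by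
      have := Real.log_two_lt_d9
      linarith
    nlinarith
  rw [hlz] at step3
  have step4 : 64 * (1 + Real.log (2 * LL a N)) / lam N ^ 5 ≤ 64 * (2 + a) / lam N ^ 4 := by
    rw [div_le_div_iff₀ (by positivity) (by positivity)]
    have : 64 * (1 + Real.log (2 * LL a N)) * lam N ^ 4 ≤ 64 * ((2 + a) * lam N) * lam N ^ 4 :=
      mul_le_mul_of_nonneg_right (by linarith) (by positivity)
    calc _ ≤ 64 * ((2 + a) * lam N) * lam N ^ 4 := this
      _ = _ := by ring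
  calc _ ≤ ∑ x ∈ s, UU N h x.1 * UU N h' x.2 := step1
    _ ≤ 4 * Real.log N ^ 2 * ∑ x ∈ s, 1 / ((x.1:ℝ) * x.2) := step2
    _ ≤ 4 * Real.log N ^ 2 * (64 * (2 + a) / lam N ^ 4) :=
        mul_le_mul_of_nonneg_left (step3.trans step4) (by positivity)
    _ = 256 * (2 + a) * Real.log N ^ 2 / lam N ^ 4 := by ring

open Classical in
/-- Proof: at most `∑_{p > zz N} UU N h p * UU N h' p ≤ ∑_p (2 log N/p)^2 ≤ 8 (log N)^2/zz N`. -/
theorem common_two (hm : ℕ) : ∃ C : ℝ, 0 < C ∧ ∀ᶠ N : ℕ in atTop, ∀ h ≤ hm, ∀ h' ≤ hm,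
    ∑ n ∈ Finset.Icc 1 N, ∑ n' ∈ (Finset.Icc 1 N).filter
      (fun n' => ∃ p : ℕ, p.Prime ∧ zz N < p ∧ p ∣ n + h ∧ p ∣ n' + h'), (1:ℝ) / n * (1 / n') ≤
      C * Real.log N ^ 2 / lam N ^ 4 := by
  refine ⟨32, by norm_num, ?_⟩
  filter_upwards [eventually_params_ct hm 0] with N hN h hh h' hh'
  obtain ⟨h1, hlam, hL1, hz1, hz2, hz3, hz4, hCH, hLL⟩ := hN
  set t : Finset ℕ := (Finset.Icc 1 (N + hm)).filter (fun p => p.Prime ∧ zz N < p) with ht
  have htm : ∀ p ∈ t, p.Prime ∧ zz N < p := fun p hp => (Finset.mem_filter.1 hp).2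
  have step1 := sum_pairs_le_ct N h h'
    (fun n n' => ∃ p : ℕ, p.Prime ∧ zz N < p ∧ p ∣ n + h ∧ p ∣ n' + h')
    (t.image (fun p => (p, p))) (by
    intro n n' hn hnN hn' hn'N hR
    obtain ⟨p, hp, hzp, hpn, hpn'⟩ := hR
    refine ⟨(p, p), ?_, hpn, hpn'⟩
    apply Finset.mem_image_of_mem (fun p => (p, p))
    rw [ht, Finset.mem_filter, Finset.mem_Icc]
    have e1 := Nat.le_of_dvd (by omega) hpn
    exact ⟨⟨hp.one_le, by omega⟩, hp, hzp⟩)
  have hlog : 0 ≤ Real.log N := Real.log_natCast_nonneg N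
  have step2 : ∑ x ∈ t.image (fun p => (p, p)), UU N h x.1 * UU N h' x.2 =
      ∑ p ∈ t, UU N h p * UU N h' p :=
    Finset.sum_image (fun p _ q _ hpq => (Prod.mk.inj hpq).1)
  have step3 : ∑ p ∈ t, UU N h p * UU N h' p ≤
      4 * Real.log N ^ 2 * ∑ p ∈ t, 1 / ((p:ℝ) * Real.log p) := by
    rw [Finset.mul_sum]
    apply Finset.sum_le_sum
    intro p hp
    obtain ⟨hpp, hzp⟩ := htm p hp
    have d1 : 2 * h ≤ p := by
      have : 2 * (h:ℝ) ≤ p := by
        have : (h:ℝ) ≤ hm := by exact_mod_cast hh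
        linarith
      exact_mod_cast this
    have d2 : 2 * h' ≤ p := by
      have : 2 * (h':ℝ) ≤ p := by
        have : (h':ℝ) ≤ hm := by exact_mod_cast hh'
        linarith
      exact_mod_cast this
    have u1 := UU_le_two_ct h1 hpp.one_le d1 (hCH h hh)
    have u2 := UU_le_two_ct h1 hpp.one_le d2 (hCH h' hh')
    have hp0 : (0:ℝ) < p := by exact_mod_cast hpp.pos
    have hp1 : (1:ℝ) < p := by exact_mod_cast hpp.one_lt
    have hlp : 0 < Real.log p := Real.log_pos hp1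
    have hlp2 : Real.log p ≤ p := by
      have := Real.log_le_sub_one_of_pos hp0
      linarith
    calc UU N h p * UU N h' p ≤ (2 * Real.log N * (1 / p)) * (2 * Real.log N * (1 / p)) :=
          mul_le_mul u1 u2 (UU_nonneg_ct _ _ _) (by positivity)
      _ = 4 * Real.log N ^ 2 * (1 / ((p:ℝ) * p)) := by
          simp only [one_div, mul_inv]
          ring
      _ ≤ 4 * Real.log N ^ 2 * (1 / ((p:ℝ) * Real.log p)) := by
          apply mul_le_mul_of_nonneg_left _ (by positivity)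
          apply one_div_le_one_div_of_le (by positivity)
          exact mul_le_mul_of_nonneg_left hlp2 hp0.le
  have step4 := sum_inv_log_tail hz3 t htm
  have hlz : Real.log (zz N) = lam N ^ 5 := by
    unfold zz
    rw [Real.log_exp]
  rw [hlz] at step4
  have step5 : 8 / lam N ^ 5 ≤ 8 / lam N ^ 4 := by
    apply div_le_div_of_nonneg_left (by norm_num) (by positivity)
    exact pow_le_pow_right₀ hlam (by norm_num)
  calc _ ≤ ∑ x ∈ t.image (fun p => (p, p)), UU N h x.1 * UU N h' x.2 := step1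
    _ = ∑ p ∈ t, UU N h p * UU N h' p := step2
    _ ≤ 4 * Real.log N ^ 2 * ∑ p ∈ t, 1 / ((p:ℝ) * Real.log p) := step3
    _ ≤ 4 * Real.log N ^ 2 * (8 / lam N ^ 4) :=
        mul_le_mul_of_nonneg_left (step4.trans step5) (by positivity)
    _ = 32 * Real.log N ^ 2 / lam N ^ 4 := by ring

end Pool.Agent.Lib.P4a7640M
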