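import Mathlib
import Pool.Agent.Lib.P4a7640M.Base
import Pool.Agent.Lib.P4a7640.Avg

/-!
# Integers with few large prime factors in `P`
-/

open Finset Filter

namespace Pool.Agent.Lib.P4a7640M

open Pool.Agent.Lib.P4a7640

open Classical in
/-- the weights -/
noncomputable def bw (P : Set ℕ) (z : ℝ) (p : ℕ) : ℝ :=
  if p ∈ P ∧ z < p then Real.exp (-1) else 1

lemma bw_nonneg (P : Set ℕ) (z : ℝ) (p : ℕ) : 0 ≤ bw P z p := by
  unfold bw
  split_ifs
  · exact (Real.exp_pos _).le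
  · exact zero_le_one

open Classical in
lemma prod_bw (P : Set ℕ) (z : ℝ) (s : Finset ℕ) :
    ∏ p ∈ s, bw P z p = Real.exp (-((s.filter (fun p => p ∈ P ∧ z < p)).card : ℝ)) := by
  unfold bw
  rw [Finset.prod_ite, Finset.prod_const_one, mul_one, Finset.prod_const, ← Real.exp_nat_mul]
  congr 1
  ring

open Classical in
/-- the exponential Markov bound -/
lemma few_markov (P : Set ℕ) (z : ℝ) (h k N : ℕ) (hN : 3 ≤ N) :
    ∑ n ∈ (Finset.Icc 1 N).filter (fun n => ((oddT (n + h)).filter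
      (fun p => p ∈ P ∧ z < p)).card < k), (1:ℝ) / n ≤
      Real.exp k * (1 + h) * (2 * Real.exp 6 * Real.log ((N + h : ℕ) : ℝ) *
        Real.exp (-∑ p ∈ Nat.primesLE (N + h), (1 - bw P z p) / p)) := by
  have hh0 : (0:ℝ) ≤ h := Nat.cast_nonneg h
  have h1 : ∑ n ∈ (Finset.Icc 1 N).filter (fun n => ((oddT (n + h)).filter
      (fun p => p ∈ P ∧ z < p)).card < k), (1:ℝ) / n ≤
      ∑ n ∈ Finset.Icc 1 N, Real.exp k * (1 + h) *
        ((∏ p ∈ oddPrimes (n + h), bw P z p) / ((n + h : ℕ) : ℝ)) := by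
    rw [Finset.sum_filter]
    apply Finset.sum_le_sum
    intro n hn
    rw [Finset.mem_Icc] at hn
    have hn0 : (1:ℝ) ≤ n := by exact_mod_cast hn.1
    have hnh : (0:ℝ) < ((n + h : ℕ) : ℝ) := by push_cast; linarith
    have hprod : 0 ≤ ∏ p ∈ oddPrimes (n + h), bw P z p :=
      Finset.prod_nonneg fun p _ => bw_nonneg P z p
    split_ifs with hc
    · have e1 : Real.exp (-(k:ℝ)) ≤ ∏ p ∈ oddPrimes (n + h), bw P z p := by
        rw [prod_bw]
        apply Real.exp_le_exp.2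
        have : (((oddPrimes (n + h)).filter (fun p => p ∈ P ∧ z < p)).card : ℝ) ≤ k := by
          exact_mod_cast le_of_lt hc
        linarith
      have e2 : 1 ≤ Real.exp k * ∏ p ∈ oddPrimes (n + h), bw P z p := by
        calc 1 = Real.exp k * Real.exp (-(k:ℝ)) := by rw [← Real.exp_add, add_neg_cancel, Real.exp_zero]
          _ ≤ _ := mul_le_mul_of_nonneg_left e1 (Real.exp_pos _).le
      have e3 : (1:ℝ) / n ≤ (1 + h) / ((n + h : ℕ) : ℝ) := by
        rw [div_le_div_iff₀ (by linarith) hnh]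
        push_cast
        nlinarith
      calc (1:ℝ) / n ≤ (1 + h) / ((n + h : ℕ) : ℝ) := e3
        _ = 1 * ((1 + h) / ((n + h : ℕ) : ℝ)) := by ring
        _ ≤ (Real.exp k * ∏ p ∈ oddPrimes (n + h), bw P z p) * ((1 + h) / ((n + h : ℕ) : ℝ)) :=
            mul_le_mul_of_nonneg_right e2 (by positivity)
        _ = _ := by ring
    · positivity
  refine h1.trans ?_
  rw [← Finset.mul_sum]
  apply mul_le_mul_of_nonneg_left _ (by positivity)
  refine le_trans ?_ (log_mean_le (bw P z) (bw_nonneg P z) (N + h) (by omega))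
  have h2 : ∑ n ∈ Finset.Icc 1 N, (∏ p ∈ oddPrimes (n + h), bw P z p) / ((n + h : ℕ) : ℝ) =
      ∑ m ∈ (Finset.Icc 1 N).image (fun n => n + h),
        (∏ p ∈ oddPrimes m, bw P z p) / (m : ℝ) := by
    rw [Finset.sum_image]
    intro a _ b _ hab
    exact Nat.add_right_cancel hab
  rw [h2]
  apply Finset.sum_le_sum_of_subset_of_nonneg
  · intro m hm
    rw [Finset.mem_image] at hm
    obtain ⟨n, hn, rfl⟩ := hm
    rw [Finset.mem_Icc] at hn ⊢
    omega
  · intro m _ _
    exact div_nonneg (Finset.prod_nonneg fun p _ => bw_nonneg P z p) (Nat.cast_nonneg m)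

open Classical in
/-- lower bound for the exponent -/
lemma few_exponent (P : Set ℕ) (z : ℝ) (hz : 3 ≤ z) (h N : ℕ) (M : ℝ)
    (hM : M ≤ ∑ p ∈ (Finset.Icc 1 N).filter (fun p : ℕ => p.Prime ∧ p ∈ P), (1:ℝ) / p)
    :
    (M - (Real.log (Real.log z) + 6)) / 2 ≤ ∑ p ∈ Nat.primesLE (N + h), (1 - bw P z p) / p := by
  have he : Real.exp (-1) ≤ 1 / 2 := by
    have := Real.add_one_le_exp (1:ℝ)
    rw [Real.exp_neg, ← one_div]
    exact one_div_le_one_div_of_le (by norm_num) (by linarith)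
  have hnn : ∀ p : ℕ, 0 ≤ (1 - bw P z p) / p := by
    intro p
    apply div_nonneg _ (Nat.cast_nonneg p)
    unfold bw
    split_ifs
    · linarith
    · simp
  have h1 : ∑ p ∈ (Finset.Icc 1 N).filter (fun p : ℕ => p.Prime ∧ p ∈ P), (1:ℝ) / p ≤
      ∑ p ∈ (Finset.Icc 1 N).filter (fun p : ℕ => (p.Prime ∧ p ∈ P) ∧ z < p), (1:ℝ) / p +
      ∑ p ∈ Nat.primesLE ⌊z⌋₊, (1:ℝ) / p := by
    rw [← Finset.sum_filter_add_sum_filter_not ((Finset.Icc 1 N).filter
      (fun p : ℕ => p.Prime ∧ p ∈ P)) (fun p => z < p)]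
    rw [Finset.filter_filter, Finset.filter_filter]
    apply add_le_add (le_refl _)
    apply Finset.sum_le_sum_of_subset_of_nonneg
    · intro p hp
      rw [Finset.mem_filter] at hp
      rw [Nat.mem_primesLE]
      refine ⟨Nat.le_floor (not_lt.1 hp.2.2), hp.2.1.1⟩
    · intro p _ _
      positivity
  have h2 : ∑ p ∈ Nat.primesLE ⌊z⌋₊, (1:ℝ) / p ≤ Real.log (Real.log z) + 6 := by
    have e1 := sum_inv_primes_le ⌊z⌋₊ (Nat.le_floor (by exact_mod_cast hz))
    have e2 : ((⌊z⌋₊ : ℕ) : ℝ) ≤ z := Nat.floor_le (by linarith)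
    have e3 : (3:ℝ) ≤ ((⌊z⌋₊ : ℕ) : ℝ) := by
      have := Nat.le_floor (show ((3:ℕ):ℝ) ≤ z by exact_mod_cast hz)
      exact_mod_cast this
    have e4 : Real.log (Real.log ((⌊z⌋₊ : ℕ) : ℝ)) ≤ Real.log (Real.log z) := by
      apply Real.log_le_log (Real.log_pos (by linarith))
      exact Real.log_le_log (by linarith) e2
    linarith
  have h3 : (1/2 : ℝ) * ∑ p ∈ (Finset.Icc 1 N).filter
      (fun p : ℕ => (p.Prime ∧ p ∈ P) ∧ z < p), (1:ℝ) / p ≤
      ∑ p ∈ Nat.primesLE (N + h), (1 - bw P z p) / p := by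
    rw [Finset.mul_sum]
    calc ∑ p ∈ (Finset.Icc 1 N).filter (fun p : ℕ => (p.Prime ∧ p ∈ P) ∧ z < p),
          (1/2 : ℝ) * ((1:ℝ) / p)
        ≤ ∑ p ∈ (Finset.Icc 1 N).filter (fun p : ℕ => (p.Prime ∧ p ∈ P) ∧ z < p),
          (1 - bw P z p) / p := by
          apply Finset.sum_le_sum
          intro p hp
          rw [Finset.mem_filter] at hp
          have hb : bw P z p = Real.exp (-1) := by
            unfold bw
            rw [if_pos ⟨hp.2.1.2, hp.2.2⟩]
          rw [hb, mul_one_div]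
          exact div_le_div_of_nonneg_right (by linarith) (Nat.cast_nonneg p)
      _ ≤ _ := by
          apply Finset.sum_le_sum_of_subset_of_nonneg
          · intro p hp
            rw [Finset.mem_filter, Finset.mem_Icc] at hp
            rw [Nat.mem_primesLE]
            exact ⟨by omega, hp.2.1.1⟩
          · intro p _ _
            exact hnn p
  linarith

open Classical in
/-- Proof. Let `z = zz N`, `k = ⌈K log (lam N)⌉₊`, `b p = exp (-1)` if `p ∈ P`, `p > z`, and
`b p = 1` otherwise. If `n` is in the set then, as `oddT (n + h) = oddPrimes (n + h)`,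
`∏ p ∈ oddPrimes (n + h), b p ≥ exp (-k)`. So, by `1/n ≤ (1 + h)/(n + h)` and `log_mean_le` at
`N + h`, the sum is at most
`exp k * (1 + h) * 2 exp 6 * log (N + h) * exp (-(1 - exp (-1)) ∑_{p ∈ P, z < p ≤ N} 1/p)`. By
`sum_inv_primes_le` (at `⌊z⌋₊`), `∑_{p ∈ P, z < p ≤ N} 1/p ≥ ∑_{p ∈ P, p ≤ N} 1/p - 5 log (lam N) - 6`,
which exceeds any multiple of `log (lam N)` for large `N` by the hypothesis `hP`. -/
theorem few {P : Set ℕ} (hP : Tendsto (fun N : ℕ => (∑ p ∈ (Finset.Icc 1 N).filter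
      (fun p : ℕ => p.Prime ∧ p ∈ P), (1:ℝ) / p) / Real.log (Real.log (Real.log N))) atTop atTop)
    (h : ℕ) (K : ℝ) : ∀ᶠ N : ℕ in atTop,
    ∑ n ∈ (Finset.Icc 1 N).filter (fun n => ((oddT (n + h)).filter
      (fun p => p ∈ P ∧ zz N < p)).card < ⌈K * Real.log (lam N)⌉₊), (1:ℝ) / n ≤
      Real.log N / lam N ^ 4 := by
  have tlog : Tendsto (fun N : ℕ => Real.log N) atTop atTop :=
    Real.tendsto_log_atTop.comp tendsto_natCast_atTop_atTop
  have tlam : Tendsto lam atTop atTop := Real.tendsto_log_atTop.comp tlog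
  have tl3 : Tendsto (fun N => Real.log (lam N)) atTop atTop := Real.tendsto_log_atTop.comp tlam
  have hh0 : (0:ℝ) ≤ h := Nat.cast_nonneg h
  filter_upwards [tlam.eventually_ge_atTop 2, tl3.eventually_ge_atTop
      (20 + Real.log (4 * (1 + h))), hP.eventually_ge_atTop (2 * (|K| + 6) + 5),
      eventually_ge_atTop 3, eventually_ge_atTop (h + 2)] with N h1 h2 h3 h4 h5
  set l := Real.log (lam N) with hl
  have hlh : 0 ≤ Real.log (4 * (1 + h)) := Real.log_nonneg (by linarith)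
  have hl0 : 0 < l := by linarith
  have hz : (3:ℝ) ≤ zz N := by
    unfold zz
    have e1 : (2:ℝ) ^ 5 ≤ lam N ^ 5 := pow_le_pow_left₀ (by norm_num) h1 5
    have e2 := Real.add_one_le_exp (lam N ^ 5)
    linarith
  have hlz : Real.log (Real.log (zz N)) = 5 * l := by
    unfold zz
    rw [Real.log_exp, Real.log_pow, ← hl]
    norm_num
  have h3' : (2 * (|K| + 6) + 5) * l ≤ ∑ p ∈ (Finset.Icc 1 N).filter
      (fun p : ℕ => p.Prime ∧ p ∈ P), (1:ℝ) / p := by
    exact (le_div_iff₀ hl0).1 h3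
  have hK0 := abs_nonneg K
  have hex := few_exponent P (zz N) hz h N ((2 * (|K| + 6) + 5) * l) h3'
  rw [hlz] at hex
  have hex2 : (|K| + 6) * l - 3 ≤ ∑ p ∈ Nat.primesLE (N + h), (1 - bw P (zz N) p) / p := by
    refine le_trans (le_of_eq ?_) hex
    ring
  have hk : ((⌈K * l⌉₊ : ℕ) : ℝ) ≤ |K| * l + 1 := by
    rcases le_or_gt 0 (K * l) with hc | hc
    · have e1 := (Nat.ceil_lt_add_one hc).le
      have e2 : K * l ≤ |K| * l := mul_le_mul_of_nonneg_right (le_abs_self K) hl0.le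
      linarith
    · rw [Nat.ceil_eq_zero.2 hc.le, Nat.cast_zero]
      positivity
  have hlogN : 0 ≤ Real.log N := Real.log_natCast_nonneg N
  have hlogNh : Real.log ((N + h : ℕ) : ℝ) ≤ 2 * Real.log N := by
    have e1 : ((N + h : ℕ) : ℝ) ≤ (N:ℝ) ^ 2 := by
      have : N + h ≤ N ^ 2 := by nlinarith
      exact_mod_cast this
    have e2 : Real.log ((N:ℝ) ^ 2) = 2 * Real.log N := by
      rw [Real.log_pow]
      norm_num
    rw [← e2]
    apply Real.log_le_log _ e1
    have : 0 < N + h := by omega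
    exact_mod_cast this
  have hmain := few_markov P (zz N) h ⌈K * l⌉₊ N h4
  refine hmain.trans ?_
  have e6 : Real.exp (((⌈K * l⌉₊ : ℕ) : ℝ)) ≤ Real.exp (|K| * l + 1) := Real.exp_le_exp.2 hk
  have e7 : Real.exp (-∑ p ∈ Nat.primesLE (N + h), (1 - bw P (zz N) p) / p) ≤
      Real.exp (-((|K| + 6) * l - 3)) := Real.exp_le_exp.2 (by linarith)
  have e8 : Real.exp (((⌈K * l⌉₊ : ℕ) : ℝ)) * (1 + h) *
      (2 * Real.exp 6 * Real.log ((N + h : ℕ) : ℝ) *
        Real.exp (-∑ p ∈ Nat.primesLE (N + h), (1 - bw P (zz N) p) / p)) ≤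
      Real.exp (|K| * l + 1) * (1 + h) * (2 * Real.exp 6 * (2 * Real.log N) *
        Real.exp (-((|K| + 6) * l - 3))) := by
    have hlogNh0 : 0 ≤ Real.log ((N + h : ℕ) : ℝ) := Real.log_natCast_nonneg _
    gcongr
  refine e8.trans ?_
  have e9 : Real.exp (|K| * l + 1) * (1 + h) * (2 * Real.exp 6 * (2 * Real.log N) *
        Real.exp (-((|K| + 6) * l - 3))) = Real.log N * (Real.exp (10 - 6 * l) *
          (4 * (1 + h))) := by
    have : Real.exp (10 - 6 * l) = Real.exp (|K| * l + 1) * Real.exp 6 *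
        Real.exp (-((|K| + 6) * l - 3)) := by
      rw [← Real.exp_add, ← Real.exp_add]
      congr 1
      ring
    rw [this]
    ring
  rw [e9, div_eq_mul_inv]
  apply mul_le_mul_of_nonneg_left _ hlogN
  have e10 : (lam N ^ 4)⁻¹ = Real.exp (-(4 * l)) := by
    rw [Real.exp_neg, hl]
    congr 1
    have : (4:ℝ) * Real.log (lam N) = ((4:ℕ):ℝ) * Real.log (lam N) := by norm_num
    rw [this, Real.exp_nat_mul, Real.exp_log (by linarith)]
  rw [e10]
  have e11 : 4 * (1 + (h:ℝ)) = Real.exp (Real.log (4 * (1 + h))) := by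
    rw [Real.exp_log (by linarith)]
  rw [e11, ← Real.exp_add]
  apply Real.exp_le_exp.2
  linarith

end Pool.Agent.Lib.P4a7640M
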