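import Mathlib
import Pool.Agent.Lib.P4a7640M.Base
import Pool.Agent.Lib.P4a7640M.CloseOne
import Pool.Agent.Lib.P4a7640M.CloseTwo
import Pool.Agent.Lib.P4a7640M.Few

/-!
# The mass of the bad pairs
-/

open Finset Filter

namespace Pool.Agent.Lib.P4a7640M

open Pool.Agent.Lib.P4a7640

lemma sum_inv_le_two_log {N : ℕ} (hN : 3 ≤ N) :
    ∑ n ∈ Finset.Icc 1 N, (1:ℝ) / n ≤ 2 * Real.log N := by
  have h1 : ∑ n ∈ Finset.Icc 1 N, (1:ℝ) / n = ((harmonic N : ℚ) : ℝ) := by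
    rw [harmonic_eq_sum_Icc]
    push_cast
    exact Finset.sum_congr rfl (fun n _ => by rw [one_div])
  have h2 := harmonic_le_one_add_log N
  have h3 : (1:ℝ) ≤ Real.log N := by
    rw [Real.le_log_iff_exp_le (by positivity)]
    have := Real.exp_one_lt_d9
    have h4 : (3:ℝ) ≤ N := by exact_mod_cast hN
    linarith
  rw [h1]
  linarith

/-- the indicator of a proposition -/
noncomputable def ind (p : Prop) [Decidable p] : ℝ := if p then 1 else 0

lemma ind_nonneg (p : Prop) [Decidable p] : 0 ≤ ind p := by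
  unfold ind; split_ifs <;> norm_num

lemma ind_of {p : Prop} [Decidable p] (h : p) : ind p = 1 := by
  unfold ind; rw [if_pos h]

lemma sum_ind {S : Finset ℕ} (f : ℕ → ℝ) (p : ℕ → Prop) [DecidablePred p] :
    ∑ n ∈ S, f n * ind (p n) = ∑ n ∈ S.filter p, f n := by
  rw [Finset.sum_filter]
  refine Finset.sum_congr rfl (fun n _ => ?_)
  unfold ind
  split_ifs <;> simp

open Classical in
lemma ind_bad {P : Set ℕ} {z L : ℝ} {H : Finset ℕ} {h₀ k n n' : ℕ}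
    (hb : ¬ Good P z L H h₀ k n n') :
    1 ≤ ind (((oddT (n + h₀)).filter (fun p => p ∈ P ∧ z < p)).card < k) +
      ∑ h ∈ H, ∑ h' ∈ H, (ind (∃ p : ℕ, p.Prime ∧ z < p ∧ p ∣ n + h ∧ p ∣ n' + h') +
        ind (Close z L (n + h) (n + h')) + ind (Close z L (n' + h) (n' + h')) +
        ind (Close z L (n + h) (n' + h')) + ind (Close z L (n' + h) (n + h'))) := by
  have key : ∀ h ∈ H, ∀ h' ∈ H, (1:ℝ) ≤ (ind (∃ p : ℕ, p.Prime ∧ z < p ∧ p ∣ n + h ∧ p ∣ n' + h') +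
        ind (Close z L (n + h) (n + h')) + ind (Close z L (n' + h) (n' + h')) +
        ind (Close z L (n + h) (n' + h')) + ind (Close z L (n' + h) (n + h'))) →
      1 ≤ ind (((oddT (n + h₀)).filter (fun p => p ∈ P ∧ z < p)).card < k) +
      ∑ h ∈ H, ∑ h' ∈ H, (ind (∃ p : ℕ, p.Prime ∧ z < p ∧ p ∣ n + h ∧ p ∣ n' + h') +
        ind (Close z L (n + h) (n + h')) + ind (Close z L (n' + h) (n' + h')) +
        ind (Close z L (n + h) (n' + h')) + ind (Close z L (n' + h) (n + h'))) := by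
    intro h hh h' hh' h1
    have hnn : ∀ h h' : ℕ, 0 ≤ (ind (∃ p : ℕ, p.Prime ∧ z < p ∧ p ∣ n + h ∧ p ∣ n' + h') +
        ind (Close z L (n + h) (n + h')) + ind (Close z L (n' + h) (n' + h')) +
        ind (Close z L (n + h) (n' + h')) + ind (Close z L (n' + h) (n + h'))) := by
      intro h h'
      have a1 := ind_nonneg (∃ p : ℕ, p.Prime ∧ z < p ∧ p ∣ n + h ∧ p ∣ n' + h')
      have a2 := ind_nonneg (Close z L (n + h) (n + h'))
      have a3 := ind_nonneg (Close z L (n' + h) (n' + h'))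
      have a4 := ind_nonneg (Close z L (n + h) (n' + h'))
      have a5 := ind_nonneg (Close z L (n' + h) (n + h'))
      linarith
    have h2 : (ind (∃ p : ℕ, p.Prime ∧ z < p ∧ p ∣ n + h ∧ p ∣ n' + h') +
        ind (Close z L (n + h) (n + h')) + ind (Close z L (n' + h) (n' + h')) +
        ind (Close z L (n + h) (n' + h')) + ind (Close z L (n' + h) (n + h'))) ≤
        ∑ h' ∈ H, (ind (∃ p : ℕ, p.Prime ∧ z < p ∧ p ∣ n + h ∧ p ∣ n' + h') +
        ind (Close z L (n + h) (n + h')) + ind (Close z L (n' + h) (n' + h')) +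
        ind (Close z L (n + h) (n' + h')) + ind (Close z L (n' + h) (n + h'))) :=
      Finset.single_le_sum (f := fun h' => (ind (∃ p : ℕ, p.Prime ∧ z < p ∧ p ∣ n + h ∧ p ∣ n' + h') +
        ind (Close z L (n + h) (n + h')) + ind (Close z L (n' + h) (n' + h')) +
        ind (Close z L (n + h) (n' + h')) + ind (Close z L (n' + h) (n + h'))))
        (fun i _ => hnn h i) hh'
    have h3 : ∑ h' ∈ H, (ind (∃ p : ℕ, p.Prime ∧ z < p ∧ p ∣ n + h ∧ p ∣ n' + h') +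
        ind (Close z L (n + h) (n + h')) + ind (Close z L (n' + h) (n' + h')) +
        ind (Close z L (n + h) (n' + h')) + ind (Close z L (n' + h) (n + h'))) ≤
        ∑ h ∈ H, ∑ h' ∈ H, (ind (∃ p : ℕ, p.Prime ∧ z < p ∧ p ∣ n + h ∧ p ∣ n' + h') +
        ind (Close z L (n + h) (n + h')) + ind (Close z L (n' + h) (n' + h')) +
        ind (Close z L (n + h) (n' + h')) + ind (Close z L (n' + h) (n + h'))) :=
      Finset.single_le_sum (f := fun h => ∑ h' ∈ H,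
        (ind (∃ p : ℕ, p.Prime ∧ z < p ∧ p ∣ n + h ∧ p ∣ n' + h') +
        ind (Close z L (n + h) (n + h')) + ind (Close z L (n' + h) (n' + h')) +
        ind (Close z L (n + h) (n' + h')) + ind (Close z L (n' + h) (n + h'))))
        (fun i _ => Finset.sum_nonneg (fun j _ => hnn i j)) hh
    have h4 := ind_nonneg (((oddT (n + h₀)).filter (fun p => p ∈ P ∧ z < p)).card < k)
    linarith
  have hnn0 : ∀ h h' : ℕ, 0 ≤ ind (∃ p : ℕ, p.Prime ∧ z < p ∧ p ∣ n + h ∧ p ∣ n' + h') ∧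
      0 ≤ ind (Close z L (n + h) (n + h')) ∧ 0 ≤ ind (Close z L (n' + h) (n' + h')) ∧
      0 ≤ ind (Close z L (n + h) (n' + h')) ∧ 0 ≤ ind (Close z L (n' + h) (n + h')) :=
    fun h h' => ⟨ind_nonneg _, ind_nonneg _, ind_nonneg _, ind_nonneg _, ind_nonneg _⟩
  by_contra hcon
  apply hb
  refine ⟨?_, ?_, ?_, ?_, ?_, ?_⟩
  · by_contra hm
    apply hcon
    have h1 : ((oddT (n + h₀)).filter (fun p => p ∈ P ∧ z < p)).card < k := by
      by_contra h2
      apply hm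
      refine ⟨(oddT (n + h₀)).filter (fun p => p ∈ P ∧ z < p), not_lt.mp h2, ?_⟩
      intro p hp
      rw [Finset.mem_filter] at hp
      exact ⟨hp.1, hp.2.1, hp.2.2⟩
    rw [ind_of h1]
    have : 0 ≤ ∑ h ∈ H, ∑ h' ∈ H, (ind (∃ p : ℕ, p.Prime ∧ z < p ∧ p ∣ n + h ∧ p ∣ n' + h') +
        ind (Close z L (n + h) (n + h')) + ind (Close z L (n' + h) (n' + h')) +
        ind (Close z L (n + h) (n' + h')) + ind (Close z L (n' + h) (n + h'))) := by
      refine Finset.sum_nonneg (fun h _ => Finset.sum_nonneg (fun h' _ => ?_))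
      obtain ⟨a1, a2, a3, a4, a5⟩ := hnn0 h h'
      linarith
    linarith
  · intro h hh h' hh' p hp hz hd hd'
    apply hcon
    refine key h hh h' hh' ?_
    obtain ⟨a1, a2, a3, a4, a5⟩ := hnn0 h h'
    rw [ind_of (p := ∃ p : ℕ, p.Prime ∧ z < p ∧ p ∣ n + h ∧ p ∣ n' + h') ⟨p, hp, hz, hd, hd'⟩]
    linarith
  · intro h hh h' hh' hc
    apply hcon
    refine key h hh h' hh' ?_
    obtain ⟨a1, a2, a3, a4, a5⟩ := hnn0 h h'
    rw [ind_of hc]
    linarith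
  · intro h hh h' hh' hc
    apply hcon
    refine key h hh h' hh' ?_
    obtain ⟨a1, a2, a3, a4, a5⟩ := hnn0 h h'
    rw [ind_of hc]
    linarith
  · intro h hh h' hh' hc
    apply hcon
    refine key h hh h' hh' ?_
    obtain ⟨a1, a2, a3, a4, a5⟩ := hnn0 h h'
    rw [ind_of hc]
    linarith
  · intro h hh h' hh' hc
    apply hcon
    refine key h hh h' hh' ?_
    obtain ⟨a1, a2, a3, a4, a5⟩ := hnn0 h h'
    rw [ind_of hc]
    linarith

open Classical in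
/-- Proof: a bad pair violates one of the conditions of `Good`; union bound with `few`,
`common_two`, `close_one` (for `n` and for `n'`; the other sum is at most `1 + log N ≤ 2 log N`) and
`close_two` (for `(n, n')` and for `(n', n)`, after exchanging the sums), over the at most
`H.card ^ 2` pairs `(h, h')`. -/
theorem bad_mass {P : Set ℕ} (hP : Tendsto (fun N : ℕ => (∑ p ∈ (Finset.Icc 1 N).filter
      (fun p : ℕ => p.Prime ∧ p ∈ P), (1:ℝ) / p) / Real.log (Real.log (Real.log N))) atTop atTop)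
    (H : Finset ℕ) (h₀ a : ℕ) (K : ℝ) : ∃ C : ℝ, 0 < C ∧ ∀ᶠ N : ℕ in atTop,
    ∑ n ∈ Finset.Icc 1 N, ∑ n' ∈ (Finset.Icc 1 N).filter
      (fun n' => ¬ Good P (zz N) (LL a N) H h₀ ⌈K * Real.log (lam N)⌉₊ n n'),
        (1:ℝ) / n * (1 / n') ≤ C * Real.log N ^ 2 / lam N ^ 4 := by
  obtain ⟨C1, hC1, h1⟩ := close_one (H.sup id) a
  obtain ⟨C2, hC2, h2⟩ := close_two (H.sup id) a
  obtain ⟨C3, hC3, h3⟩ := common_two (H.sup id)
  have h4 := few hP h₀ K
  refine ⟨2 + (H.card:ℝ) ^ 2 * (C3 + 2 * C1 + 2 * C1 + C2 + C2), by positivity, ?_⟩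
  filter_upwards [h1, h2, h3, h4, eventually_ge_atTop 3] with N g1 g2 g3 g4 hN
  have hle : ∀ h ∈ H, h ≤ H.sup id := fun h hh => Finset.le_sup (f := id) hh
  have hW := sum_inv_le_two_log hN
  have hl0 : 0 ≤ Real.log N := Real.log_natCast_nonneg N
  set z := zz N with hz
  set L := LL a N with hL
  set k := ⌈K * Real.log (lam N)⌉₊ with hk
  set E : ℝ := Real.log N ^ 2 / lam N ^ 4 with hE
  have hE0 : 0 ≤ E := by
    rw [hE]
    have : 0 ≤ lam N ^ 4 := by positivity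
    positivity
  have hD0 : 0 ≤ Real.log N / lam N ^ 4 := by
    have : 0 ≤ lam N ^ 4 := by positivity
    positivity
  -- product sums
  have hprod : ∀ (p : ℕ → Prop) [DecidablePred p] (B : ℝ), 0 ≤ B →
      ∑ n ∈ (Finset.Icc 1 N).filter p, (1:ℝ) / n ≤ B * (Real.log N / lam N ^ 4) →
      (∑ n ∈ Finset.Icc 1 N, ∑ n' ∈ Finset.Icc 1 N, (1:ℝ) / n * (1 / n') * ind (p n)
        ≤ 2 * B * E) ∧
      (∑ n ∈ Finset.Icc 1 N, ∑ n' ∈ Finset.Icc 1 N, (1:ℝ) / n * (1 / n') * ind (p n')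
        ≤ 2 * B * E) := by
    intro p _ B hB hp
    have e0 : (∑ n ∈ (Finset.Icc 1 N).filter p, (1:ℝ) / n) * ∑ n ∈ Finset.Icc 1 N, (1:ℝ) / n ≤
        2 * B * E := by
      calc (∑ n ∈ (Finset.Icc 1 N).filter p, (1:ℝ) / n) * ∑ n ∈ Finset.Icc 1 N, (1:ℝ) / n
          ≤ (B * (Real.log N / lam N ^ 4)) * (2 * Real.log N) :=
            mul_le_mul hp hW (Finset.sum_nonneg (fun n _ => by positivity))
              (mul_nonneg hB hD0)
        _ = 2 * B * E := by rw [hE]; ring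
    constructor
    · have : ∑ n ∈ Finset.Icc 1 N, ∑ n' ∈ Finset.Icc 1 N, (1:ℝ) / n * (1 / n') * ind (p n) =
          (∑ n ∈ (Finset.Icc 1 N).filter p, (1:ℝ) / n) * ∑ n ∈ Finset.Icc 1 N, (1:ℝ) / n := by
        rw [← sum_ind, Finset.sum_mul_sum]
        refine Finset.sum_congr rfl (fun n _ => Finset.sum_congr rfl (fun n' _ => ?_))
        ring
      rw [this]
      exact e0
    · have : ∑ n ∈ Finset.Icc 1 N, ∑ n' ∈ Finset.Icc 1 N, (1:ℝ) / n * (1 / n') * ind (p n') =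
          (∑ n ∈ (Finset.Icc 1 N).filter p, (1:ℝ) / n) * ∑ n ∈ Finset.Icc 1 N, (1:ℝ) / n := by
        rw [Finset.sum_comm, ← sum_ind, Finset.sum_mul_sum]
        refine Finset.sum_congr rfl (fun n _ => Finset.sum_congr rfl (fun n' _ => ?_))
        ring
      rw [this]
      exact e0
  -- double sums
  have hdbl : ∀ (p : ℕ → ℕ → Prop) [∀ n, DecidablePred (p n)],
      ∑ n ∈ Finset.Icc 1 N, ∑ n' ∈ (Finset.Icc 1 N).filter (p n), (1:ℝ) / n * (1 / n') =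
      ∑ n ∈ Finset.Icc 1 N, ∑ n' ∈ Finset.Icc 1 N, (1:ℝ) / n * (1 / n') * ind (p n n') := by
    intro p _
    refine Finset.sum_congr rfl (fun n _ => ?_)
    rw [← sum_ind]
  have hstep : ∑ n ∈ Finset.Icc 1 N, ∑ n' ∈ (Finset.Icc 1 N).filter
      (fun n' => ¬ Good P z L H h₀ k n n'), (1:ℝ) / n * (1 / n') ≤
      (∑ n ∈ Finset.Icc 1 N, ∑ n' ∈ Finset.Icc 1 N, (1:ℝ) / n * (1 / n') *
        ind (((oddT (n + h₀)).filter (fun p => p ∈ P ∧ z < p)).card < k)) +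
      ∑ h ∈ H, ∑ h' ∈ H,
        ((∑ n ∈ Finset.Icc 1 N, ∑ n' ∈ Finset.Icc 1 N, (1:ℝ) / n * (1 / n') *
          ind (∃ p : ℕ, p.Prime ∧ z < p ∧ p ∣ n + h ∧ p ∣ n' + h')) +
        (∑ n ∈ Finset.Icc 1 N, ∑ n' ∈ Finset.Icc 1 N, (1:ℝ) / n * (1 / n') *
          ind (Close z L (n + h) (n + h'))) +
        (∑ n ∈ Finset.Icc 1 N, ∑ n' ∈ Finset.Icc 1 N, (1:ℝ) / n * (1 / n') *
          ind (Close z L (n' + h) (n' + h'))) +
        (∑ n ∈ Finset.Icc 1 N, ∑ n' ∈ Finset.Icc 1 N, (1:ℝ) / n * (1 / n') *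
          ind (Close z L (n + h) (n' + h'))) +
        (∑ n ∈ Finset.Icc 1 N, ∑ n' ∈ Finset.Icc 1 N, (1:ℝ) / n * (1 / n') *
          ind (Close z L (n' + h) (n + h')))) := by
    have e1 : (∑ n ∈ Finset.Icc 1 N, ∑ n' ∈ Finset.Icc 1 N, (1:ℝ) / n * (1 / n') *
        ind (((oddT (n + h₀)).filter (fun p => p ∈ P ∧ z < p)).card < k)) +
      ∑ h ∈ H, ∑ h' ∈ H,
        ((∑ n ∈ Finset.Icc 1 N, ∑ n' ∈ Finset.Icc 1 N, (1:ℝ) / n * (1 / n') *
          ind (∃ p : ℕ, p.Prime ∧ z < p ∧ p ∣ n + h ∧ p ∣ n' + h')) +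
        (∑ n ∈ Finset.Icc 1 N, ∑ n' ∈ Finset.Icc 1 N, (1:ℝ) / n * (1 / n') *
          ind (Close z L (n + h) (n + h'))) +
        (∑ n ∈ Finset.Icc 1 N, ∑ n' ∈ Finset.Icc 1 N, (1:ℝ) / n * (1 / n') *
          ind (Close z L (n' + h) (n' + h'))) +
        (∑ n ∈ Finset.Icc 1 N, ∑ n' ∈ Finset.Icc 1 N, (1:ℝ) / n * (1 / n') *
          ind (Close z L (n + h) (n' + h'))) +
        (∑ n ∈ Finset.Icc 1 N, ∑ n' ∈ Finset.Icc 1 N, (1:ℝ) / n * (1 / n') *
          ind (Close z L (n' + h) (n + h')))) =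
      ∑ n ∈ Finset.Icc 1 N, ∑ n' ∈ Finset.Icc 1 N, (1:ℝ) / n * (1 / n') *
        (ind (((oddT (n + h₀)).filter (fun p => p ∈ P ∧ z < p)).card < k) +
        ∑ h ∈ H, ∑ h' ∈ H, (ind (∃ p : ℕ, p.Prime ∧ z < p ∧ p ∣ n + h ∧ p ∣ n' + h') +
        ind (Close z L (n + h) (n + h')) + ind (Close z L (n' + h) (n' + h')) +
        ind (Close z L (n + h) (n' + h')) + ind (Close z L (n' + h) (n + h')))) := by
      simp only [← Finset.sum_add_distrib]
      have e2 : ∀ F : ℕ → ℕ → ℕ → ℕ → ℝ,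
          ∑ h ∈ H, ∑ h' ∈ H, ∑ n ∈ Finset.Icc 1 N, ∑ n' ∈ Finset.Icc 1 N, F h h' n n' =
          ∑ n ∈ Finset.Icc 1 N, ∑ n' ∈ Finset.Icc 1 N, ∑ h ∈ H, ∑ h' ∈ H, F h h' n n' := by
        intro F
        calc ∑ h ∈ H, ∑ h' ∈ H, ∑ n ∈ Finset.Icc 1 N, ∑ n' ∈ Finset.Icc 1 N, F h h' n n'
            = ∑ h ∈ H, ∑ n ∈ Finset.Icc 1 N, ∑ h' ∈ H, ∑ n' ∈ Finset.Icc 1 N, F h h' n n' :=
              Finset.sum_congr rfl (fun h _ => Finset.sum_comm)
          _ = ∑ n ∈ Finset.Icc 1 N, ∑ h ∈ H, ∑ h' ∈ H, ∑ n' ∈ Finset.Icc 1 N, F h h' n n' :=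
              Finset.sum_comm
          _ = ∑ n ∈ Finset.Icc 1 N, ∑ h ∈ H, ∑ n' ∈ Finset.Icc 1 N, ∑ h' ∈ H, F h h' n n' :=
              Finset.sum_congr rfl (fun n _ => Finset.sum_congr rfl (fun h _ => Finset.sum_comm))
          _ = ∑ n ∈ Finset.Icc 1 N, ∑ n' ∈ Finset.Icc 1 N, ∑ h ∈ H, ∑ h' ∈ H, F h h' n n' :=
              Finset.sum_congr rfl (fun n _ => Finset.sum_comm)
      rw [e2, ← Finset.sum_add_distrib]
      refine Finset.sum_congr rfl (fun n _ => ?_)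
      rw [← Finset.sum_add_distrib]
      refine Finset.sum_congr rfl (fun n' _ => ?_)
      rw [mul_add]
      congr 1
      rw [Finset.mul_sum]
      refine Finset.sum_congr rfl (fun h _ => ?_)
      rw [Finset.mul_sum]
      refine Finset.sum_congr rfl (fun h' _ => ?_)
      ring
    rw [e1]
    refine Finset.sum_le_sum (fun n _ => ?_)
    rw [Finset.sum_filter]
    refine Finset.sum_le_sum (fun n' _ => ?_)
    have hw : 0 ≤ (1:ℝ) / n * (1 / n') := by positivity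
    by_cases hb : Good P z L H h₀ k n n'
    · rw [if_neg (not_not.mpr hb)]
      refine mul_nonneg hw (add_nonneg (ind_nonneg _) ?_)
      refine Finset.sum_nonneg (fun h _ => Finset.sum_nonneg (fun h' _ => ?_))
      exact add_nonneg (add_nonneg (add_nonneg (add_nonneg (ind_nonneg _) (ind_nonneg _))
        (ind_nonneg _)) (ind_nonneg _)) (ind_nonneg _)
    · rw [if_pos hb]
      exact le_mul_of_one_le_right hw (ind_bad hb)
  have hfew : (∑ n ∈ Finset.Icc 1 N, ∑ n' ∈ Finset.Icc 1 N, (1:ℝ) / n * (1 / n') *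
        ind (((oddT (n + h₀)).filter (fun p => p ∈ P ∧ z < p)).card < k)) ≤ 2 * E := by
    have := (hprod (fun n => ((oddT (n + h₀)).filter (fun p => p ∈ P ∧ z < p)).card < k) 1
      zero_le_one (by rw [one_mul]; exact g4)).1
    simpa using this
  have hpair : ∀ h ∈ H, ∀ h' ∈ H,
        ((∑ n ∈ Finset.Icc 1 N, ∑ n' ∈ Finset.Icc 1 N, (1:ℝ) / n * (1 / n') *
          ind (∃ p : ℕ, p.Prime ∧ z < p ∧ p ∣ n + h ∧ p ∣ n' + h')) +
        (∑ n ∈ Finset.Icc 1 N, ∑ n' ∈ Finset.Icc 1 N, (1:ℝ) / n * (1 / n') *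
          ind (Close z L (n + h) (n + h'))) +
        (∑ n ∈ Finset.Icc 1 N, ∑ n' ∈ Finset.Icc 1 N, (1:ℝ) / n * (1 / n') *
          ind (Close z L (n' + h) (n' + h'))) +
        (∑ n ∈ Finset.Icc 1 N, ∑ n' ∈ Finset.Icc 1 N, (1:ℝ) / n * (1 / n') *
          ind (Close z L (n + h) (n' + h'))) +
        (∑ n ∈ Finset.Icc 1 N, ∑ n' ∈ Finset.Icc 1 N, (1:ℝ) / n * (1 / n') *
          ind (Close z L (n' + h) (n + h')))) ≤ (C3 + 2 * C1 + 2 * C1 + C2 + C2) * E := by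
    intro h hh h' hh'
    have b1 : (∑ n ∈ Finset.Icc 1 N, ∑ n' ∈ Finset.Icc 1 N, (1:ℝ) / n * (1 / n') *
          ind (∃ p : ℕ, p.Prime ∧ z < p ∧ p ∣ n + h ∧ p ∣ n' + h')) ≤ C3 * E := by
      rw [← hdbl (fun n n' => ∃ p : ℕ, p.Prime ∧ z < p ∧ p ∣ n + h ∧ p ∣ n' + h')]
      calc _ ≤ C3 * Real.log N ^ 2 / lam N ^ 4 := g3 h (hle h hh) h' (hle h' hh')
        _ = C3 * E := by rw [hE]; ring
    have b23 := hprod (fun n => Close z L (n + h) (n + h')) C1 hC1.le (by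
      calc _ ≤ C1 * Real.log N / lam N ^ 4 := g1 h (hle h hh) h' (hle h' hh')
        _ = C1 * (Real.log N / lam N ^ 4) := by ring)
    have b4 : (∑ n ∈ Finset.Icc 1 N, ∑ n' ∈ Finset.Icc 1 N, (1:ℝ) / n * (1 / n') *
          ind (Close z L (n + h) (n' + h'))) ≤ C2 * E := by
      rw [← hdbl (fun n n' => Close z L (n + h) (n' + h'))]
      calc _ ≤ C2 * Real.log N ^ 2 / lam N ^ 4 := g2 h (hle h hh) h' (hle h' hh')
        _ = C2 * E := by rw [hE]; ring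
    have b5 : (∑ n ∈ Finset.Icc 1 N, ∑ n' ∈ Finset.Icc 1 N, (1:ℝ) / n * (1 / n') *
          ind (Close z L (n' + h) (n + h'))) ≤ C2 * E := by
      have : (∑ n ∈ Finset.Icc 1 N, ∑ n' ∈ Finset.Icc 1 N, (1:ℝ) / n * (1 / n') *
          ind (Close z L (n' + h) (n + h'))) =
          (∑ n ∈ Finset.Icc 1 N, ∑ n' ∈ Finset.Icc 1 N, (1:ℝ) / n * (1 / n') *
          ind (Close z L (n + h) (n' + h'))) := by
        rw [Finset.sum_comm]
        refine Finset.sum_congr rfl (fun n _ => Finset.sum_congr rfl (fun n' _ => ?_))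
        rw [mul_comm ((1:ℝ) / n') (1 / n)]
      rw [this]
      exact b4
    have b2 := b23.1
    have b3 := b23.2
    linarith
  calc ∑ n ∈ Finset.Icc 1 N, ∑ n' ∈ (Finset.Icc 1 N).filter
        (fun n' => ¬ Good P z L H h₀ k n n'), (1:ℝ) / n * (1 / n')
      ≤ _ := hstep
    _ ≤ 2 * E + ∑ h ∈ H, ∑ h' ∈ H, ((C3 + 2 * C1 + 2 * C1 + C2 + C2) * E) :=
        add_le_add hfew (Finset.sum_le_sum (fun h hh => Finset.sum_le_sum (fun h' hh' =>
          hpair h hh h' hh')))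
    _ = (2 + (H.card:ℝ) ^ 2 * (C3 + 2 * C1 + 2 * C1 + C2 + C2)) * Real.log N ^ 2 / lam N ^ 4 := by
        rw [hE]
        simp only [Finset.sum_const, nsmul_eq_mul]
        ring

end Pool.Agent.Lib.P4a7640M
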