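import Mathlib
import Pool.Agent.Lib.P4a7640M.Base
import Pool.Agent.Lib.P4a7640M.GoodPair

/-!
# The second moment over the parameter
-/

open MeasureTheory Finset

namespace Pool.Agent.Lib.P4a7640M

open Pool.Agent.Lib.P4a7640

private lemma sm_meas_A {A : Set ℝ} (hA : FinInt A) : MeasurableSet A := by
  obtain ⟨s, hs, rfl⟩ := hA
  exact Finset.measurableSet_biUnion s fun J hJ => (hs J hJ).measurableSet

private lemma sm_meas_xs {A : Set ℝ} (hA : FinInt A) (P : Set ℕ) (θ : ℕ → ℝ) :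
    Measurable (fun α => xs A P θ α) := by
  refine measurable_pi_iff.mpr fun p => ?_
  unfold xs
  refine Measurable.ite ?_ measurable_const measurable_const
  by_cases hp : p ∈ P
  · have h1 : {a : ℝ | p ∈ P ∧ Int.fract (a * θ p) ∈ A} = (fun a : ℝ => Int.fract (a * θ p)) ⁻¹' A := by
      ext a
      simp [hp]
    rw [h1]
    exact (measurable_fract.comp (measurable_id.mul_const _)) (sm_meas_A hA)
  · have h1 : {a : ℝ | p ∈ P ∧ Int.fract (a * θ p) ∈ A} = ∅ := by
      ext a
      simp [hp]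
    rw [h1]
    exact MeasurableSet.empty

private lemma sm_int {A : Set ℝ} (hA : FinInt A) (P : Set ℕ) (θ : ℕ → ℝ) (S S' : Finset ℕ)
    (u v : ℝ) : IntervalIntegrable
      (fun α => chiT S (xs A P θ α) * chiT S' (xs A P θ α)) volume u v := by
  refine IntervalIntegrable.mono_fun' (g := fun _ => (1:ℝ)) intervalIntegrable_const ?_ ?_
  · exact (((measurable_chiT S).comp (sm_meas_xs hA P θ)).mul
      ((measurable_chiT S').comp (sm_meas_xs hA P θ))).aestronglyMeasurable
  · refine Filter.Eventually.of_forall fun α => ?_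
    show ‖chiT S (xs A P θ α) * chiT S' (xs A P θ α)‖ ≤ 1
    rw [Real.norm_eq_abs, abs_mul, abs_chiT, abs_chiT, one_mul]

private lemma sm_triv (A : Set ℝ) (P : Set ℕ) (θ : ℕ → ℝ) (S S' : Finset ℕ) (u : ℝ) :
    |∫ α in u..(u + 1), chiT S (xs A P θ α) * chiT S' (xs A P θ α)| ≤ 1 := by
  have h := intervalIntegral.norm_integral_le_of_norm_le_const (a := u) (b := u + 1) (C := 1)
    (f := fun α => chiT S (xs A P θ α) * chiT S' (xs A P θ α)) (fun α _ => by
      rw [Real.norm_eq_abs, abs_mul, abs_chiT, abs_chiT, one_mul])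
  rw [Real.norm_eq_abs] at h
  refine h.trans ?_
  simp

open Classical in
/-- Proof: expand the square with `FF_eq`, integrate term by term, use `good_pair` for good pairs
and the trivial bound `1` for the others, and `∑_{n ≤ N} 1/n ≤ 1 + log N`. -/
theorem second_moment {A : Set ℝ} (hA : FinInt A) : ∃ C : ℝ, 0 < C ∧
    ∀ (P : Set ℕ) (θ : ℕ → ℝ) (z L δ : ℝ), (∀ p : ℕ, p.Prime → p ∈ P → 0 < θ p) → 0 ≤ δ →
      (∀ p : ℕ, p.Prime → p ∈ P → z < p → 1 ≤ δ * θ p) →
      (∀ q p : ℕ, q.Prime → p.Prime → q ∈ P → p ∈ P → z < p → L * q < p → θ q ≤ δ * θ p) →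
      ∀ (H : Finset ℕ) (hm h₀ k N : ℕ), (∀ h ∈ H, h ≤ hm) → (hm:ℝ) ≤ z → h₀ ∈ H → 2 ≤ N →
      ∀ (w : ℕ → ℝ), (∀ n, |w n| ≤ 1) → ∀ u : ℝ,
        ∫ α in u..(u + 1), FF w H N (xs A P θ α) ^ 2 ≤
          (1 + 1 / Real.log N) ^ 2 * (|cc A| ^ k +
            C * (2 * (H.card * Real.log (N + hm) / Real.log 2) + 1) ^ 2 * δ) +
          (∑ n ∈ Finset.Icc 1 N, ∑ n' ∈ (Finset.Icc 1 N).filter
            (fun n' => ¬ Good P z L H h₀ k n n'), (1:ℝ) / n * (1 / n')) / Real.log N ^ 2 := by
  obtain ⟨C, hC, hgp⟩ := good_pair hA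
  refine ⟨C, hC, ?_⟩
  intro P θ z L δ hθ hδ hδ1 hδ2 H hm h₀ k N hH hmz hh₀ hN w hw u
  have hl : 0 < Real.log N := Real.log_pos (by exact_mod_cast hN)
  set G : ℝ := |cc A| ^ k + C * (2 * (H.card * Real.log (N + hm) / Real.log 2) + 1) ^ 2 * δ with hG
  have hG0 : 0 ≤ G := by
    rw [hG]
    positivity
  have hsq : ∀ α : ℝ, FF w H N (xs A P θ α) ^ 2 =
      ∑ n ∈ Finset.Icc 1 N, ∑ n' ∈ Finset.Icc 1 N,
        ((w n / n / Real.log N) * (w n' / n' / Real.log N)) *
          (chiT (oddT (MM H n)) (xs A P θ α) * chiT (oddT (MM H n')) (xs A P θ α)) := by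
    intro α
    rw [sq, FF_eq, Finset.sum_mul_sum]
    refine Finset.sum_congr rfl fun n _ => Finset.sum_congr rfl fun n' _ => ?_
    ring
  have hint : ∫ α in u..(u + 1), FF w H N (xs A P θ α) ^ 2 =
      ∑ n ∈ Finset.Icc 1 N, ∑ n' ∈ Finset.Icc 1 N,
        ((w n / n / Real.log N) * (w n' / n' / Real.log N)) *
          ∫ α in u..(u + 1),
            (chiT (oddT (MM H n)) (xs A P θ α) * chiT (oddT (MM H n')) (xs A P θ α)) := by
    simp_rw [hsq]
    rw [intervalIntegral.integral_finsetSum]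
    · refine Finset.sum_congr rfl fun n _ => ?_
      rw [intervalIntegral.integral_finsetSum]
      · refine Finset.sum_congr rfl fun n' _ => ?_
        rw [intervalIntegral.integral_const_mul]
      · intro n' _
        exact (sm_int hA P θ _ _ u (u + 1)).const_mul _
    · intro n _
      have h := IntervalIntegrable.sum (μ := volume) (a := u) (b := u + 1) (Finset.Icc 1 N)
        (f := fun n' α => ((w n / n / Real.log N) * (w n' / n' / Real.log N)) *
          (chiT (oddT (MM H n)) (xs A P θ α) * chiT (oddT (MM H n')) (xs A P θ α)))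
        (fun n' _ => (sm_int hA P θ _ _ u (u + 1)).const_mul _)
      rw [Finset.sum_fn] at h
      exact h
  have hwn : ∀ n : ℕ, |w n / n / Real.log N| ≤ 1 / n / Real.log N := by
    intro n
    rw [abs_div, abs_div, abs_of_pos hl, abs_of_nonneg (Nat.cast_nonneg (α := ℝ) n)]
    exact div_le_div_of_nonneg_right (div_le_div_of_nonneg_right (hw n) (Nat.cast_nonneg n)) hl.le
  have hterm : ∀ n ∈ Finset.Icc 1 N, ∀ n' ∈ Finset.Icc 1 N,
      ((w n / n / Real.log N) * (w n' / n' / Real.log N)) *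
          (∫ α in u..(u + 1),
            (chiT (oddT (MM H n)) (xs A P θ α) * chiT (oddT (MM H n')) (xs A P θ α))) ≤
        (1 / n / Real.log N) * (1 / n' / Real.log N) * G +
          (if ¬ Good P z L H h₀ k n n' then (1:ℝ) / n * (1 / n') / Real.log N ^ 2 else 0) := by
    intro n hn n' hn'
    rw [Finset.mem_Icc] at hn hn'
    have hn0 : (0:ℝ) ≤ 1 / n / Real.log N := by positivity
    have hn0' : (0:ℝ) ≤ 1 / n' / Real.log N := by positivity
    have hab : |(w n / n / Real.log N) * (w n' / n' / Real.log N)| ≤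
        (1 / n / Real.log N) * (1 / n' / Real.log N) := by
      rw [abs_mul]
      exact mul_le_mul (hwn n) (hwn n') (abs_nonneg _) hn0
    refine (le_abs_self _).trans ?_
    rw [abs_mul]
    by_cases hg : Good P z L H h₀ k n n'
    · rw [if_neg (not_not.mpr hg), add_zero]
      exact mul_le_mul hab (hgp P θ z L δ hθ hδ hδ1 hδ2 H hm h₀ k N n n' hH hmz hh₀ hn.1 hn.2
        hn'.1 hn'.2 hg u) (abs_nonneg _) (mul_nonneg hn0 hn0')
    · rw [if_pos hg]
      have h1 := mul_le_mul hab (sm_triv A P θ (oddT (MM H n)) (oddT (MM H n')) u) (abs_nonneg _)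
        (mul_nonneg hn0 hn0')
      refine h1.trans ?_
      have h2 : (1:ℝ) / n / Real.log N * (1 / n' / Real.log N) * 1 =
          1 / n * (1 / n') / Real.log N ^ 2 := by
        field_simp
      rw [h2]
      have h3 : 0 ≤ (1:ℝ) / n / Real.log N * (1 / n' / Real.log N) * G :=
        mul_nonneg (mul_nonneg hn0 hn0') hG0
      linarith
  rw [hint]
  refine (Finset.sum_le_sum fun n hn => Finset.sum_le_sum fun n' hn' => hterm n hn n' hn').trans ?_
  simp_rw [Finset.sum_add_distrib]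
  refine add_le_add ?_ ?_
  · simp_rw [← Finset.sum_mul, ← Finset.mul_sum]
    rw [← Finset.sum_mul, ← sq]
    refine mul_le_mul_of_nonneg_right ?_ hG0
    refine pow_le_pow_left₀ (Finset.sum_nonneg fun n _ => by positivity) ?_ 2
    calc (∑ n ∈ Finset.Icc 1 N, (1:ℝ) / n / Real.log N)
        = (∑ n ∈ Finset.Icc 1 N, (1:ℝ) / n) / Real.log N := by rw [Finset.sum_div]
      _ ≤ (1 + Real.log N) / Real.log N := div_le_div_of_nonneg_right (sum_inv_le N) hl.le
      _ = 1 + 1 / Real.log N := by field_simp; ring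
  · refine le_of_eq ?_
    rw [Finset.sum_div]
    refine Finset.sum_congr rfl fun n _ => ?_
    rw [Finset.sum_div, Finset.sum_filter]

end Pool.Agent.Lib.P4a7640M
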