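import Mathlib
import Pool.Agent.Lib.P4a7640M.SecMom
import Pool.Agent.Lib.P4a7640M.BadMass

/-!
# The second moment bound
-/

open MeasureTheory Filter Topology

namespace Pool.Agent.Lib.P4a7640M

open Pool.Agent.Lib.P4a7640

lemma tendsto_lam : Tendsto lam atTop atTop := Real.tendsto_log_atTop.comp
  (Real.tendsto_log_atTop.comp tendsto_natCast_atTop_atTop)

lemma ev_pow_sub {κ : ℝ} (hκ : 0 < κ) (c : ℝ) : ∀ᶠ m : ℝ in atTop, 3 * m ≤ c + κ * m ^ 5 := by
  filter_upwards [eventually_ge_atTop (1:ℝ), eventually_ge_atTop ((3 + |c|) / κ)] with m h1 h2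
  rw [div_le_iff₀ hκ] at h2
  have h3 : m ^ 2 ≤ m ^ 5 := pow_le_pow_right₀ h1 (by norm_num)
  have h4 : -|c| ≤ c := neg_abs_le c
  have h5 : (3 + |c|) * m ≤ κ * m ^ 2 := by nlinarith
  have h6 : κ * m ^ 2 ≤ κ * m ^ 5 := mul_le_mul_of_nonneg_left h3 hκ.le
  have h7 : |c| ≤ |c| * m := le_mul_of_one_le_right (abs_nonneg c) h1
  linarith

lemma pow_small {r : ℝ} (hr0 : 0 < r) (hr1 : r < 1) {m : ℝ} (hm : 0 < m) :
    r ^ ⌈4 / Real.log (1 / r) * Real.log m⌉₊ ≤ 1 / m ^ 4 := by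
  have hl : 0 < Real.log (1 / r) := Real.log_pos (by rw [one_div]; exact (one_lt_inv₀ hr0).mpr hr1)
  have h1 := Nat.le_ceil (4 / Real.log (1 / r) * Real.log m)
  set k := ⌈4 / Real.log (1 / r) * Real.log m⌉₊ with hk
  have h2 : 4 * Real.log m ≤ k * Real.log (1 / r) := by
    calc 4 * Real.log m = 4 / Real.log (1 / r) * Real.log m * Real.log (1 / r) := by field_simp
      _ ≤ k * Real.log (1 / r) := mul_le_mul_of_nonneg_right h1 hl.le
  rw [← Real.log_le_log_iff (by positivity) (by positivity)]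
  rw [Real.log_pow, one_div, Real.log_inv, Real.log_pow]
  rw [one_div, Real.log_inv] at h2
  push_cast
  linarith

open Classical in
/-- Proof: `second_moment` with `z = zz N`, `L = LL a N` with `a κ ≥ 3`,
`k = ⌈K log (lam N)⌉₊` with `|cc A|^k ≤ (lam N)^(-4)`, `δ = C' (log N)^(-3)`, and `bad_mass`. -/
theorem moment_bound {A : Set ℝ} (hA : FinInt A) (hc : |cc A| < 1) {P : Set ℕ}
    (hP : Tendsto (fun N : ℕ => (∑ p ∈ (Finset.Icc 1 N).filter
      (fun p : ℕ => p.Prime ∧ p ∈ P), (1:ℝ) / p) / Real.log (Real.log (Real.log N))) atTop atTop)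
    {θ : ℕ → ℝ} (hθ : ∀ p : ℕ, p.Prime → p ∈ P → 0 < θ p) {κ C : ℝ} (hκ : 0 < κ)
    (hgr : ∀ q p : ℕ, q.Prime → p.Prime → q ∈ P → p ∈ P → q ≤ p →
      θ q * (p:ℝ) ^ κ ≤ C * θ p * (q:ℝ) ^ κ) {H : Finset ℕ} (hH : H.Nonempty) :
    ∃ B : ℝ, 0 < B ∧ ∀ᶠ N : ℕ in atTop, ∀ (w : ℕ → ℝ), (∀ n, |w n| ≤ 1) → ∀ u : ℝ,
      ∫ α in u..(u + 1), FF w H N (xs A P θ α) ^ 2 ≤ B / lam N ^ 4 := by
  obtain ⟨C₁, hC₁, hsm⟩ := second_moment hA
  obtain ⟨h₀, hh₀⟩ := hH
  set hm := H.sup id with hhm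
  have hHm : ∀ h ∈ H, h ≤ hm := fun h hh => Finset.le_sup (f := id) hh
  set a := ⌈3 / κ⌉₊ with ha
  have haκ : 3 ≤ a * κ := by
    have := Nat.le_ceil (3 / κ)
    rw [div_le_iff₀ hκ] at this
    exact this
  set r := max |cc A| (1 / 2) with hr
  have hr0 : 0 < r := lt_max_of_lt_right (by norm_num)
  have hr1 : r < 1 := max_lt hc (by norm_num)
  set K := 4 / Real.log (1 / r) with hK
  obtain ⟨C₂, hC₂, hbm⟩ := bad_mass hP H h₀ a K
  refine ⟨8 + C₂, by positivity, ?_⟩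
  -- the lower bound for `θ`
  have hlow : ∀ᶠ N : ℕ in atTop, ∀ p : ℕ, p.Prime → p ∈ P → zz N < p →
      Real.log N ^ 3 ≤ θ p := by
    by_cases hex : ∃ q₀ : ℕ, q₀.Prime ∧ q₀ ∈ P
    · obtain ⟨q₀, hq₀, hq₀P⟩ := hex
      have hθ0 := hθ q₀ hq₀ hq₀P
      have hq0 : (0:ℝ) < q₀ := by exact_mod_cast hq₀.pos
      have hqκ : 0 < (q₀:ℝ) ^ κ := Real.rpow_pos_of_pos hq0 κ
      have hC0 : 0 < C := by
        have h1 := hgr q₀ q₀ hq₀ hq₀ hq₀P hq₀P le_rfl
        by_contra hcon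
        push Not at hcon
        have h2 : 0 < θ q₀ * (q₀:ℝ) ^ κ := mul_pos hθ0 hqκ
        have h3 : C * θ q₀ * (q₀:ℝ) ^ κ ≤ 0 := by
          have h4 : 0 ≤ θ q₀ * (q₀:ℝ) ^ κ := h2.le
          calc C * θ q₀ * (q₀:ℝ) ^ κ = C * (θ q₀ * (q₀:ℝ) ^ κ) := by ring
            _ ≤ 0 := mul_nonpos_of_nonpos_of_nonneg hcon h4
        linarith
      set c₀ := θ q₀ / (C * (q₀:ℝ) ^ κ) with hc₀
      have hc₀0 : 0 < c₀ := by positivity
      have hlin : ∀ᶠ m : ℝ in atTop, Real.log q₀ ≤ m ^ 5 := by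
        have : Tendsto (fun m : ℝ => m ^ 5) atTop atTop := tendsto_pow_atTop (by norm_num)
        exact this.eventually_ge_atTop _
      filter_upwards [tendsto_lam.eventually (ev_pow_sub hκ (Real.log c₀)),
        tendsto_lam.eventually hlin, eventually_ge_atTop 2] with N h1 h2 hN p hp hpP hzp
      have hl0 : 0 < Real.log N := Real.log_pos (by exact_mod_cast hN)
      have hqp : q₀ ≤ p := by
        have h3 : (q₀:ℝ) ≤ zz N := by
          rw [zz, ← Real.exp_log hq0]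
          exact Real.exp_le_exp.mpr h2
        exact_mod_cast h3.trans hzp.le
      have h4 := hgr q₀ p hq₀ hp hq₀P hpP hqp
      have h5 : c₀ * (p:ℝ) ^ κ ≤ θ p := by
        rw [hc₀, div_mul_eq_mul_div, div_le_iff₀ (by positivity)]
        calc θ q₀ * (p:ℝ) ^ κ ≤ C * θ p * (q₀:ℝ) ^ κ := h4
          _ = θ p * (C * (q₀:ℝ) ^ κ) := by ring
      refine le_trans ?_ h5
      have h6 : Real.exp (κ * lam N ^ 5) ≤ (p:ℝ) ^ κ := by
        calc Real.exp (κ * lam N ^ 5) = (zz N) ^ κ := by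
              rw [zz, ← Real.exp_mul]
              congr 1
              ring
          _ ≤ (p:ℝ) ^ κ := Real.rpow_le_rpow (Real.exp_pos _).le hzp.le hκ.le
      calc Real.log N ^ 3 = Real.exp (3 * lam N) := by
            rw [lam, show (3:ℝ) * Real.log (Real.log N) = ((3:ℕ):ℝ) * Real.log (Real.log N) by
              norm_num, ← Real.log_pow, Real.exp_log (by positivity)]
        _ ≤ Real.exp (Real.log c₀ + κ * lam N ^ 5) := Real.exp_le_exp.mpr h1
        _ = c₀ * Real.exp (κ * lam N ^ 5) := by rw [Real.exp_add, Real.exp_log hc₀0]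
        _ ≤ c₀ * (p:ℝ) ^ κ := by gcongr
    · exact Eventually.of_forall fun N p hp hpP => absurd ⟨p, hp, hpP⟩ hex
  have hexp := ev_exp 4 (C₁ * (8 * H.card + 1) ^ 2 * (|C| + 1)) 1 one_pos
  have hzzhm : ∀ᶠ m : ℝ in atTop, (hm:ℝ) ≤ Real.exp (m ^ 5) := by
    have : Tendsto (fun m : ℝ => Real.exp (m ^ 5)) atTop atTop :=
      Real.tendsto_exp_atTop.comp (tendsto_pow_atTop (by norm_num))
    exact this.eventually_ge_atTop _
  filter_upwards [hlow, hbm, tendsto_lam.eventually hexp, tendsto_lam.eventually hzzhm,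
    eventually_ge_atTop 2, eventually_ge_atTop hm,
    (Real.tendsto_log_atTop.comp tendsto_natCast_atTop_atTop).eventually_ge_atTop 1,
    tendsto_lam.eventually_gt_atTop 0] with N h1 h2 h3 h4 hN hNhm hl1 hlam w hw u
  have hl1' : 1 ≤ Real.log N := hl1
  have hl0 : 0 < Real.log N := by linarith
  set δ := (|C| + 1) / Real.log N ^ 3 with hδ
  have hδ0 : 0 ≤ δ := by positivity
  have hd1 : ∀ p : ℕ, p.Prime → p ∈ P → zz N < p → 1 ≤ δ * θ p := by
    intro p hp hpP hzp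
    have h5 := h1 p hp hpP hzp
    have h6 : 0 < Real.log N ^ 3 := by positivity
    rw [hδ, div_mul_eq_mul_div, le_div_iff₀ h6, one_mul]
    have h7 : 0 ≤ |C| := abs_nonneg C
    have h8 : 0 ≤ θ p := (hθ p hp hpP).le
    nlinarith
  have hd2 : ∀ q p : ℕ, q.Prime → p.Prime → q ∈ P → p ∈ P → zz N < p → LL a N * q < p →
      θ q ≤ δ * θ p := by
    intro q p hq hp hqP hpP hzp hLqp
    have hL1 : 1 ≤ LL a N := one_le_pow₀ hl1'
    have hq0 : (0:ℝ) < q := by exact_mod_cast hq.pos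
    have hp0 : (0:ℝ) < p := by exact_mod_cast hp.pos
    have hqp : q ≤ p := by
      have h5 : (q:ℝ) ≤ p := by nlinarith
      exact_mod_cast h5
    have h5 := hgr q p hq hp hqP hpP hqp
    have h6 : (LL a N * q) ^ κ ≤ (p:ℝ) ^ κ := Real.rpow_le_rpow (by positivity) hLqp.le hκ.le
    rw [Real.mul_rpow (by positivity) hq0.le] at h6
    have hqκ : 0 < (q:ℝ) ^ κ := Real.rpow_pos_of_pos hq0 κ
    have hθq := hθ q hq hqP
    have hθp := hθ p hp hpP
    have h7 : θ q * LL a N ^ κ * (q:ℝ) ^ κ ≤ C * θ p * (q:ℝ) ^ κ := by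
      calc θ q * LL a N ^ κ * (q:ℝ) ^ κ = θ q * (LL a N ^ κ * (q:ℝ) ^ κ) := by ring
        _ ≤ θ q * (p:ℝ) ^ κ := by gcongr
        _ ≤ _ := h5
    have h8 : θ q * LL a N ^ κ ≤ C * θ p := le_of_mul_le_mul_right h7 hqκ
    have h9 : Real.log N ^ 3 ≤ LL a N ^ κ := by
      rw [LL, ← Real.rpow_natCast (Real.log N) a, ← Real.rpow_mul hl0.le,
        ← Real.rpow_natCast (Real.log N) 3]
      apply Real.rpow_le_rpow_of_exponent_le hl1'
      exact_mod_cast haκ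
    rw [hδ, div_mul_eq_mul_div, le_div_iff₀ (by positivity)]
    calc θ q * Real.log N ^ 3 ≤ θ q * LL a N ^ κ := by gcongr
      _ ≤ C * θ p := h8
      _ ≤ (|C| + 1) * θ p := by
          gcongr
          linarith [le_abs_self C]
  have hmain := hsm P θ (zz N) (LL a N) δ hθ hδ0 hd1 hd2 H hm h₀ ⌈K * Real.log (lam N)⌉₊ N hHm h4
    hh₀ hN w hw u
  refine hmain.trans ?_
  have hlam4 : 0 < lam N ^ 4 := by positivity
  have e1 : |cc A| ^ ⌈K * Real.log (lam N)⌉₊ ≤ 1 / lam N ^ 4 := by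
    calc |cc A| ^ ⌈K * Real.log (lam N)⌉₊ ≤ r ^ ⌈K * Real.log (lam N)⌉₊ :=
          pow_le_pow_left₀ (abs_nonneg _) (le_max_left _ _) _
      _ ≤ 1 / lam N ^ 4 := pow_small hr0 hr1 hlam
  have e2 : (2 * (H.card * Real.log (N + hm) / Real.log 2) + 1) ≤ (8 * H.card + 1) * Real.log N := by
    have hN0 : (0:ℝ) < N := by exact_mod_cast (show 0 < N by omega)
    have h5 : Real.log (N + hm) ≤ 2 * Real.log N := by
      have h6 : (N:ℝ) + hm ≤ N ^ 2 := by
        have h7 : (hm:ℝ) ≤ N := by exact_mod_cast hNhm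
        have h8 : (2:ℝ) ≤ N := by exact_mod_cast hN
        nlinarith
      calc Real.log (N + hm) ≤ Real.log ((N:ℝ) ^ 2) := Real.log_le_log (by positivity) h6
        _ = 2 * Real.log N := by rw [Real.log_pow]; norm_num
    have h6 : (1:ℝ) / 2 ≤ Real.log 2 := by
      have := Real.log_two_gt_d9
      linarith
    have h7 : H.card * Real.log (N + hm) / Real.log 2 ≤ H.card * (2 * Real.log N) / (1 / 2) := by
      gcongr
    have h8 : (0:ℝ) ≤ H.card := Nat.cast_nonneg _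
    calc 2 * (H.card * Real.log (N + hm) / Real.log 2) + 1
        ≤ 2 * (H.card * (2 * Real.log N) / (1 / 2)) + 1 * Real.log N := by linarith
      _ = (8 * H.card + 1) * Real.log N := by ring
  have e20 : 0 ≤ 2 * (H.card * Real.log (N + hm) / Real.log 2) + 1 := by
    have hN0 : (1:ℝ) ≤ (N:ℝ) + hm := by
      have h8 : (2:ℝ) ≤ N := by exact_mod_cast hN
      have h9 : (0:ℝ) ≤ hm := Nat.cast_nonneg _
      linarith
    have h5 : 0 ≤ Real.log (N + hm) := Real.log_nonneg hN0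
    have h6 : 0 ≤ Real.log 2 := Real.log_nonneg (by norm_num)
    positivity
  have e3 : C₁ * (2 * (H.card * Real.log (N + hm) / Real.log 2) + 1) ^ 2 * δ ≤ 1 / lam N ^ 4 := by
    calc C₁ * (2 * (H.card * Real.log (N + hm) / Real.log 2) + 1) ^ 2 * δ
        ≤ C₁ * ((8 * H.card + 1) * Real.log N) ^ 2 * δ := by gcongr
      _ = (C₁ * (8 * H.card + 1) ^ 2 * (|C| + 1)) / Real.log N := by
          rw [hδ]
          field_simp
      _ ≤ 1 / lam N ^ 4 := by
          rw [div_le_div_iff₀ hl0 hlam4, one_mul]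
          refine h3.trans (le_of_eq ?_)
          rw [one_mul, lam, Real.exp_log hl0]
  have e4 : (1 + 1 / Real.log N) ^ 2 ≤ 4 := by
    have h5 : 1 / Real.log N ≤ 1 := by
      rw [div_le_one hl0]
      exact hl1'
    have h6 : 0 ≤ 1 / Real.log N := by positivity
    nlinarith
  have e5 : (∑ n ∈ Finset.Icc 1 N, ∑ n' ∈ (Finset.Icc 1 N).filter
            (fun n' => ¬ Good P (zz N) (LL a N) H h₀ ⌈K * Real.log (lam N)⌉₊ n n'),
              (1:ℝ) / n * (1 / n')) / Real.log N ^ 2 ≤ C₂ / lam N ^ 4 := by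
    rw [div_le_iff₀ (by positivity)]
    refine h2.trans (le_of_eq ?_)
    ring
  have e6 : 0 ≤ |cc A| ^ ⌈K * Real.log (lam N)⌉₊ +
      C₁ * (2 * (H.card * Real.log (N + hm) / Real.log 2) + 1) ^ 2 * δ := by positivity
  calc (1 + 1 / Real.log N) ^ 2 * (|cc A| ^ ⌈K * Real.log (lam N)⌉₊ +
        C₁ * (2 * (H.card * Real.log (N + hm) / Real.log 2) + 1) ^ 2 * δ) + _
      ≤ 4 * (1 / lam N ^ 4 + 1 / lam N ^ 4) + C₂ / lam N ^ 4 := by
        apply add_le_add _ e5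
        apply mul_le_mul e4 (add_le_add e1 e3) e6 (by norm_num)
    _ = (8 + C₂) / lam N ^ 4 := by ring

end Pool.Agent.Lib.P4a7640M
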