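import Mathlib
import Pool.Agent.Lib.P4a7640.AS
import Pool.Agent.Lib.P4a7640M.MomBound

/-!
# Almost every member of a metric family
-/

open MeasureTheory Filter Topology

namespace Pool.Agent.Lib.P4a7640M

open Pool.Agent.Lib.P4a7640

lemma FinInt.measurable' {A : Set ℝ} (hA : FinInt A) : MeasurableSet A := by
  obtain ⟨s, hs, rfl⟩ := hA
  exact Finset.measurableSet_biUnion s fun J hJ => (hs J hJ).measurableSet

lemma measurable_xs {A : Set ℝ} (hA : MeasurableSet A) (P : Set ℕ) (θ : ℕ → ℝ) :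
    Measurable (xs A P θ) := by
  refine measurable_pi_iff.mpr fun p => ?_
  unfold xs
  refine Measurable.ite ?_ measurable_const measurable_const
  by_cases hp : p ∈ P
  · have h1 : {a : ℝ | p ∈ P ∧ Int.fract (a * θ p) ∈ A} = (fun a : ℝ => Int.fract (a * θ p)) ⁻¹' A := by
      ext a
      simp [hp]
    rw [h1]
    exact (measurable_fract.comp (measurable_id.mul_const (θ p))) hA
  · have h1 : {a : ℝ | p ∈ P ∧ Int.fract (a * θ p) ∈ A} = ∅ := by
      ext a
      simp [hp]
    rw [h1]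
    exact MeasurableSet.empty

/-- square integrable sums along the scales -/
lemma ae_restrict_tendsto {f : ℕ → ℝ → ℝ} (hf : ∀ k, Measurable (f k)) {M : ℕ → ℝ}
    (hM : ∀ k x, |f k x| ≤ M k) {B : ℝ} {k₀ : ℕ} {u : ℝ} (hB : 0 ≤ B)
    (h : ∀ k, k₀ ≤ k → ∫ x in u..(u + 1), f k x ^ 2 ≤ B / (k:ℝ) ^ 2) :
    ∀ᵐ x ∂(volume.restrict (Set.Ioc u (u + 1))), Tendsto (fun k => f k x) atTop (𝓝 0) := by
  set μ := (volume : Measure ℝ).restrict (Set.Ioc u (u + 1)) with hμ
  set F : ℕ → ℝ → ENNReal := fun k x => ENNReal.ofReal (f (k + k₀) x ^ 2) with hF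
  have hFm : ∀ k, Measurable (F k) := fun k => ((hf _).pow_const 2).ennreal_ofReal
  have hint : ∀ k, ∫⁻ x, F k x ∂μ ≤ ENNReal.ofReal (B / ((k + k₀ : ℕ) : ℝ) ^ 2) := by
    intro k
    have h1 : Integrable (fun x => f (k + k₀) x ^ 2) μ := by
      refine Integrable.of_bound ((hf _).pow_const 2).aestronglyMeasurable (M (k + k₀) ^ 2) ?_
      refine Eventually.of_forall fun x => ?_
      rw [Real.norm_eq_abs, abs_pow]
      exact pow_le_pow_left₀ (abs_nonneg _) (hM _ x) 2
    have h2 := ofReal_integral_eq_lintegral_ofReal h1 (Eventually.of_forall fun x => sq_nonneg _)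
    rw [hF]
    rw [← h2]
    apply ENNReal.ofReal_le_ofReal
    have h3 := h (k + k₀) (by omega)
    rwa [intervalIntegral.integral_of_le (by linarith)] at h3
  have hsum : ∑' k, ∫⁻ x, F k x ∂μ ≠ ⊤ := by
    refine ne_top_of_le_ne_top ?_ (ENNReal.tsum_le_tsum hint)
    have h1 : Summable fun k : ℕ => B / ((k + k₀ : ℕ) : ℝ) ^ 2 := by
      have h2 : Summable fun k : ℕ => B / (k : ℝ) ^ 2 := by
        have h3 := (Real.summable_one_div_nat_pow.mpr (show 1 < 2 by norm_num)).mul_left B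
        refine h3.congr fun k => ?_
        ring
      exact (summable_nat_add_iff k₀).mpr h2
    rw [← ENNReal.ofReal_tsum_of_nonneg (fun k => by positivity) h1]
    exact ENNReal.ofReal_ne_top
  rw [← lintegral_tsum (fun k => (hFm k).aemeasurable)] at hsum
  have hae := ae_lt_top (Measurable.ennreal_tsum hFm) hsum
  filter_upwards [hae] with x hx
  have h1 := ENNReal.tendsto_atTop_zero_of_tsum_ne_top hx.ne
  have h2 : Tendsto (fun k => f (k + k₀) x ^ 2) atTop (𝓝 0) := by
    have h3 := (ENNReal.tendsto_toReal ENNReal.zero_ne_top).comp h1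
    simp only [ENNReal.toReal_zero] at h3
    refine h3.congr fun k => ?_
    simp only [hF, Function.comp_apply]
    exact ENNReal.toReal_ofReal (sq_nonneg _)
  have h4 : Tendsto (fun k => f k x ^ 2) atTop (𝓝 0) := (tendsto_add_atTop_iff_nat k₀).mp h2
  have h5 : Tendsto (fun k => Real.sqrt (f k x ^ 2)) atTop (𝓝 (Real.sqrt 0)) :=
    (Real.continuous_sqrt.tendsto 0).comp h4
  rw [Real.sqrt_zero] at h5
  rw [tendsto_zero_iff_abs_tendsto_zero]
  refine h5.congr fun k => ?_
  rw [Real.sqrt_sq_eq_abs]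
  rfl

open Classical in
/-- Proof: `moment_bound` at `N = NK k` (`sqrt_le_loglog_NK`), summability of `k^(-2)`, Tonelli. -/
theorem metric_ae {A : Set ℝ} (hA : FinInt A) (hc : |cc A| < 1) {P : Set ℕ}
    (hP : Tendsto (fun N : ℕ => (∑ p ∈ (Finset.Icc 1 N).filter
      (fun p : ℕ => p.Prime ∧ p ∈ P), (1:ℝ) / p) / Real.log (Real.log (Real.log N))) atTop atTop)
    {θ : ℕ → ℝ} (hθ : ∀ p : ℕ, p.Prime → p ∈ P → 0 < θ p) {κ C : ℝ} (hκ : 0 < κ)
    (hgr : ∀ q p : ℕ, q.Prime → p.Prime → q ∈ P → p ∈ P → q ≤ p →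
      θ q * (p:ℝ) ^ κ ≤ C * θ p * (q:ℝ) ^ κ) (g : ℕ → ℤˣ) :
    ∀ᵐ α : ℝ, ∀ H : Finset ℕ, H.Nonempty →
      Tendsto (LA (prodSeq (fun n => g n * rnd (xs A P θ α) n) H)) atTop (𝓝 0) := by
  have h1 : ∀ H : Finset ℕ, ∀ᵐ α : ℝ, H.Nonempty →
      Tendsto (LA (prodSeq (fun n => g n * rnd (xs A P θ α) n) H)) atTop (𝓝 0) := by
    intro H
    by_cases hne : H.Nonempty
    · obtain ⟨B, hB, hev⟩ := moment_bound hA hc hP hθ hκ hgr hne
      have hev2 := tendsto_NK.eventually hev
      have hev3 : ∀ᶠ k : ℕ in atTop, 2 ≤ NK k := tendsto_NK.eventually_ge_atTop 2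
      obtain ⟨k₀, hk₀⟩ := eventually_atTop.mp (hev2.and (hev3.and (eventually_ge_atTop 1)))
      set f : ℕ → ℝ → ℝ := fun k α => FF (prodSeq g H) H (NK (k + k₀)) (xs A P θ α) with hf
      have hmeas : ∀ k, Measurable (f k) := fun k =>
        (measurable_FF _ _ _).comp (measurable_xs hA.measurable' P θ)
      have hbound : ∀ k x, |f k x| ≤ 1 + 1 / Real.log (NK (k + k₀)) := fun k x =>
        FF_bound (fun n => (abs_prodSeq g H n).le) H (hk₀ (k + k₀) (by omega)).2.1 _
      have hmom : ∀ k : ℕ, 1 ≤ k → ∀ u : ℝ, ∫ x in u..(u + 1), f k x ^ 2 ≤ B / (k:ℝ) ^ 2 := by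
        intro k hk u
        have h2 := (hk₀ (k + k₀) (by omega)).1 (prodSeq g H) (fun n => (abs_prodSeq g H n).le) u
        refine h2.trans ?_
        have h3 := sqrt_le_loglog_NK (k + k₀)
        have hk0 : (0:ℝ) < k := by exact_mod_cast hk
        have h4 : Real.sqrt k ≤ lam (NK (k + k₀)) := by
          refine le_trans (Real.sqrt_le_sqrt ?_) h3
          push_cast
          have : (0:ℝ) ≤ k₀ := Nat.cast_nonneg k₀
          linarith
        have h5 : (k:ℝ) ^ 2 ≤ lam (NK (k + k₀)) ^ 4 := by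
          calc (k:ℝ) ^ 2 = (Real.sqrt k) ^ 4 := by
                rw [show (4:ℕ) = 2 * 2 by norm_num, pow_mul, Real.sq_sqrt hk0.le]
            _ ≤ _ := pow_le_pow_left₀ (Real.sqrt_nonneg _) h4 4
        exact div_le_div_of_nonneg_left hB.le (by positivity) h5
      have hall : ∀ j : ℤ, ∀ᵐ α ∂((volume : Measure ℝ).restrict (Set.Ioc (j:ℝ) (j + 1))),
          Tendsto (fun k => f k α) atTop (𝓝 0) := by
        intro j
        exact ae_restrict_tendsto hmeas hbound hB.le fun k hk => hmom k hk j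
      have hall2 := (ae_restrict_iUnion_iff (μ := (volume : Measure ℝ))
        (fun j : ℤ => Set.Ioc (j:ℝ) (j + 1)) (fun α => Tendsto (fun k => f k α) atTop (𝓝 0))).mpr hall
      rw [iUnion_Ioc_intCast, Measure.restrict_univ] at hall2
      filter_upwards [hall2] with α hα _
      apply interp fun n => (abs_prodSeq _ H n).le
      have h6 : Tendsto (fun k => FF (prodSeq g H) H (NK k) (xs A P θ α)) atTop (𝓝 0) :=
        (tendsto_add_atTop_iff_nat k₀).mp hα
      refine h6.congr fun k => ?_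
      rw [LA_prodSeq_mul]
    · exact Eventually.of_forall fun x hx => absurd hx hne
  exact ae_all_iff.mpr h1

end Pool.Agent.Lib.P4a7640M
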